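import Mathlib

/-!
The (unnormalised) cobar complex of the polynomial part `P_*` of the dual Steenrod algebra at `p`.
`Cobar p s` is `P_* ^ ⊗ s`, a polynomial ring in the variables `X (j, n)`, which is `ξ_{n+1}` in
the `j`-th tensor factor.  The cohomology of this complex is `Ext_P^s(F_p, F_p)`.
-/

namespace Pool.Agent.H8.NP

open Finset MvPolynomial

noncomputable section

/-- `P_* ^ ⊗ s` -/
abbrev Cobar (p s : ℕ) := MvPolynomial (Fin s × ℕ) (ZMod p)

/-- `ξ_n` in the tensor factor `j`, with `ξ_0 = 1` -/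
def xi (p : ℕ) {s : ℕ} (j : Fin s) : ℕ → Cobar p s
  | 0 => 1
  | n + 1 => X (j, n)

/-- Milnor coproduct of `ξ_n`, placed in the tensor factors `j` and `j + 1`:
`∑_{a + b = n} ξ_a ^ (p ^ b) ⊗ ξ_b` -/
def milnor (p : ℕ) {s : ℕ} (j : Fin s) (n : ℕ) : Cobar p (s + 1) :=
  ∑ q ∈ antidiagonal n, xi p j.castSucc q.1 ^ (p ^ q.2) * xi p j.succ q.2

/-- the coface `i` (`0 ≤ i ≤ s + 1`): the algebra map `P_* ^ ⊗ s → P_* ^ ⊗ (s + 1)` which inserts `1`
in front (`i = 0`) or at the end (`i = s + 1`), or applies the Milnor coproduct to the `i`-th tensor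
factor (`1 ≤ i ≤ s`; this is the factor with index `j`, `j + 1 = i`) -/
def face (p s : ℕ) (i : Fin (s + 2)) : Cobar p s →ₐ[ZMod p] Cobar p (s + 1) :=
  aeval fun v =>
    if (v.1 : ℕ) + 1 < i then xi p v.1.castSucc (v.2 + 1)
    else if (v.1 : ℕ) + 1 = i then milnor p v.1 (v.2 + 1)
    else xi p v.1.succ (v.2 + 1)

/-- the cobar differential -/
def dC (p s : ℕ) (u : Cobar p s) : Cobar p (s + 1) :=
  ∑ i : Fin (s + 2), (-1) ^ (i : ℕ) * face p s i u

/-- the product of the cobar complex (juxtaposition of tensors), which induces the Yoneda product -/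
def cup {p s t : ℕ} (u : Cobar p s) (v : Cobar p t) : Cobar p (s + t) :=
  rename (fun w => (Fin.castAdd t w.1, w.2)) u * rename (fun w => (Fin.natAdd s w.1, w.2)) v

/-- powers for this product -/
def cpow {p s : ℕ} (u : Cobar p s) : (m : ℕ) → Cobar p (s * m)
  | 0 => 1
  | m + 1 => cup (cpow u m) u

/-- the map induced by the Hopf algebra endomorphism `x ↦ x ^ p` of `P_*`
(every `ξ_n` in every tensor factor goes to its `p`-th power) -/
def P0 {p s : ℕ} (u : Cobar p s) : Cobar p s := aeval (fun v => X v ^ p) u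

/-- coboundaries of the cobar complex -/
def IsCob {p : ℕ} : {s : ℕ} → Cobar p s → Prop
  | 0, u => u = 0
  | s + 1, u => ∃ b : Cobar p s, dC p s b = u

end

end Pool.Agent.H8.NP
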