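import Pool.Agent.H8.NP.LadB

/-! Module ROW of project MP_9cbe1e_gt: from a subgroup `K0 = ker χ` to `K`. -/

namespace Pool.Agent.H8.NP

open Finset Polynomial

noncomputable section

/-- the invariant constant extension of a family -/
def row_ext (b : Fm) : Fm :=
  ⟨fun i => fun n x => C ((b.1 i n (fun k => (x 0)⁻¹ * x k)).coeff 0), by
    refine ⟨fun i j φ n x => ?_, fun i n x y hxy => ?_, ?_⟩
    · have h := b.2.1 i j φ n (fun k => (x 0)⁻¹ * x k)
      have e : (fun k => (G.map φ (x 0))⁻¹ * G.map φ (x k))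
          = (fun k => G.map φ ((x 0)⁻¹ * x k)) := by
        funext k
        rw [map_mul, map_inv]
      change C ((b.1 j n (fun k => (G.map φ (x 0))⁻¹ * G.map φ (x k))).coeff 0)
        = Polynomial.map φ (C ((b.1 i n (fun k => (x 0)⁻¹ * x k)).coeff 0))
      rw [e, h, Polynomial.map_C, Polynomial.coeff_map]
    · have e : b.1 i n (fun k => (x 0)⁻¹ * x k) = b.1 i n (fun k => (y 0)⁻¹ * y k) := by
        apply b.2.2.1 i n
        intro k hk
        rw [hxy 0 (Nat.zero_le n), hxy k hk]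
      change C _ = C _
      rw [e]
    · obtain ⟨N, hN⟩ := b.2.2.2
      refine ⟨N, fun n hn i x => ?_⟩
      change C ((b.1 i n (fun k => (x 0)⁻¹ * x k)).coeff 0) = 0
      rw [hN n hn, coeff_zero, C_0]⟩

theorem row_ext_val (b : Fm) (i : A2) (n : ℕ) (x : ℕ → G i.R) :
    (row_ext b).1 i n x = C ((b.1 i n (fun k => (x 0)⁻¹ * x k)).coeff 0) := rfl

theorem row_ext_mem (K : SG) (b : Fm) : row_ext b ∈ InC K := by
  constructor
  · intro i n x g _ _
    rw [row_ext_val, row_ext_val]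
    have e : (fun k => (g * x 0)⁻¹ * (g * x k)) = (fun k => (x 0)⁻¹ * x k) := by
      funext k
      rw [mul_inv_rev, mul_assoc, inv_mul_cancel_left]
    rw [e]
  · intro i n x _
    rw [row_ext_val, coeff_C_zero]

theorem row_ext_eq {K0 : SG} {b : Fm} (hb : b ∈ InC K0) : EqK K0 (row_ext b) b := by
  intro i n x hx
  rw [row_ext_val]
  have h0 : (x 0)⁻¹ ∈ K0.S i := (K0.S i).inv_mem (hx 0)
  rw [← hb.2 i n (fun k => (x 0)⁻¹ * x k) (fun k => (K0.S i).mul_mem h0 (hx k))]
  exact hb.1 i n x _ h0 hx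

/-- `K0` is the kernel of the character `χ` on `K`; `hS` is the Shapiro property (`shapiroA` or
`shapiroB`).  If `w` is nilpotent on `K0` and all `h_j w` are nilpotent on `K`, then `w` is nilpotent
on `K`.
Proof. `w ^ N = d b` on `K0`; put `b' n x = C (coeff 0 (b n (fun k => (x 0)⁻¹ * x k)))`, a natural
family which is invariant under all of `G`, has constant values, and agrees with `b` on sequences in
`K0`.  Then `w' = w ^ N + d b'` is a cocycle on `K`, vanishes on sequences in `K` with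
`χ (x k) = 0` for all `k`, and has the class of `w ^ N`.  Apply `hS` and `ladder` to `w'`
(`h_j w'` is nilpotent when `N ≥ 1`; increase `N` if needed). -/
theorem row (K K0 : SG) (χ : Chr K)
    (hK0 : ∀ (i : A2) (g : G i.R), g ∈ K0.S i ↔ g ∈ K.S i ∧ χ.t i g = 0)
    (hS : ∀ w : Fm, w ∈ Z K →
      (∀ (i : A2) (n : ℕ) (x : ℕ → G i.R), K.Sq x → (∀ k, χ.t i (x k) = 0) → w.1 i n x = 0) →
      ∃ (F : Fm) (D : ℕ), InM K χ D F ∧ EqK K F.d w)
    (w : Z K) (hw0 : Nilp K0 w.1) (hh : ∀ j, IsNilpotent (cls K (χ.hz j) * cls K w)) :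
    IsNilpotent (cls K w) := by
  have hle : ∀ i, K0.S i ≤ K.S i := fun i g hg => ((hK0 i g).1 hg).1
  obtain ⟨N, hN⟩ := hw0
  have hN' : Bd K0 (w.1 ^ (N + 1)) := by
    rw [pow_succ]
    exact Bd.mul_right (Z.mono hle w.2) hN
  obtain ⟨b, hb, hbd⟩ := hN'
  -- the modified cocycle
  set b' := row_ext b with hb'
  have hb'K : b' ∈ InC K := row_ext_mem K b
  have hb'0 : EqK K0 b' b := row_ext_eq hb
  let u : Z K := ⟨b'.d, Z.d_mem hb'K⟩
  let w' : Z K := w ^ (N + 1) + u
  have hu0 : cls K u = 0 := by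
    rw [cls_eq_zero]
    exact Bd.of_d hb'K
  have hw' : cls K w' = cls K w ^ (N + 1) := by
    change cls K (w ^ (N + 1) + u) = _
    rw [map_add, hu0, add_zero, map_pow]
  have hval : w'.1 = w.1 ^ (N + 1) + b'.d := rfl
  have hvan : ∀ (i : A2) (n : ℕ) (x : ℕ → G i.R), K.Sq x → (∀ k, χ.t i (x k) = 0) →
      w'.1.1 i n x = 0 := by
    intro i n x hx hχ
    have hx0 : K0.Sq x := fun k => (hK0 i (x k)).2 ⟨hx k, hχ k⟩
    rw [hval, Fm.add_val, TC.add_apply, hbd i n x hx0, (hb'0.d) i n x hx0]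
    exact add_self0 _
  obtain ⟨F, D, hF, hFd⟩ := hS w'.1 w'.2 hvan
  have hnil : IsNilpotent (cls K w') := by
    apply ladder χ w' _ F D hF hFd
    intro j
    rw [hw', pow_succ']
    have := (Commute.all (cls K (χ.hz j) * cls K w) (cls K w ^ N)).isNilpotent_mul_right (hh j)
    rwa [mul_assoc] at this
  rw [hw'] at hnil
  obtain ⟨m, hm⟩ := hnil
  exact ⟨(N + 1) * m, by rw [pow_mul]; exact hm⟩

end

end Pool.Agent.H8.NP
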