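import Pool.Agent.H8.NP.Fam

/-! Module SHPA of project MP_9cbe1e_gt: Shapiro lemma with a `q`-th root section. -/

namespace Pool.Agent.H8.NP

open Finset Polynomial

noncomputable section

section Lam

variable {R R' : Type} [CommRing R] [CommRing R']

theorem shpa_smul_inj (q : ℕ) (hq : 1 ≤ q) :
    Function.Injective (fun k : ℕ →₀ ℕ => q • k) := by
  intro k l h
  ext a
  have h1 := DFunLike.congr_fun h a
  simp only [Finsupp.smul_apply, smul_eq_mul] at h1
  exact Nat.eq_of_mul_eq_mul_left hq h1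

/-- the `q`-th root functional on monomials -/
def shpaLam (q : ℕ) (hq : 1 ≤ q) (f : MvPolynomial ℕ R) : MvPolynomial ℕ R :=
  AddMonoidAlgebra.ofCoeff
    (Finsupp.comapDomain (fun k => q • k) (AddMonoidAlgebra.coeff f) (shpa_smul_inj q hq).injOn)

theorem shpaLam_coeff (q : ℕ) (hq : 1 ≤ q) (f : MvPolynomial ℕ R) (k : ℕ →₀ ℕ) :
    MvPolynomial.coeff k (shpaLam q hq f) = MvPolynomial.coeff (q • k) f := rfl

theorem shpaLam_add (q : ℕ) (hq : 1 ≤ q) (f g : MvPolynomial ℕ R) :
    shpaLam q hq (f + g) = shpaLam q hq f + shpaLam q hq g := by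
  ext k
  rw [shpaLam_coeff, MvPolynomial.coeff_add, MvPolynomial.coeff_add, shpaLam_coeff, shpaLam_coeff]

theorem shpaLam_C_mul (q : ℕ) (hq : 1 ≤ q) (r : R) (f : MvPolynomial ℕ R) :
    shpaLam q hq (MvPolynomial.C r * f) = MvPolynomial.C r * shpaLam q hq f := by
  ext k
  rw [shpaLam_coeff, MvPolynomial.coeff_C_mul, MvPolynomial.coeff_C_mul, shpaLam_coeff]

theorem shpaLam_C (q : ℕ) (hq : 1 ≤ q) (r : R) :
    shpaLam q hq (MvPolynomial.C r : MvPolynomial ℕ R) = MvPolynomial.C r := by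
  classical
  ext k
  rw [shpaLam_coeff, MvPolynomial.coeff_C, MvPolynomial.coeff_C]
  by_cases hk : k = 0
  · subst hk; simp
  · have h1 : (0 : ℕ →₀ ℕ) ≠ q • k := by
      intro h
      apply hk
      apply shpa_smul_inj q hq
      simpa using h.symm
    rw [if_neg h1, if_neg (Ne.symm hk)]

theorem shpaLam_X (q : ℕ) (hq : 1 ≤ q) (k : ℕ) (f : MvPolynomial ℕ R) :
    shpaLam q hq (f * MvPolynomial.X k ^ q) = shpaLam q hq f * MvPolynomial.X k := by
  classical
  ext m
  rw [shpaLam_coeff, MvPolynomial.X_pow_eq_monomial, MvPolynomial.coeff_mul_monomial',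
    MvPolynomial.X, MvPolynomial.coeff_mul_monomial', shpaLam_coeff]
  have h1 : Finsupp.single k q ≤ q • m ↔ Finsupp.single k 1 ≤ m := by
    rw [Finsupp.single_le_iff, Finsupp.single_le_iff, Finsupp.smul_apply, smul_eq_mul]
    constructor
    · intro h
      by_contra h0
      have : m k = 0 := by omega
      rw [this] at h
      omega
    · intro h
      exact Nat.le_mul_of_pos_right q h
  by_cases h : Finsupp.single k 1 ≤ m
  · rw [if_pos h, if_pos (h1.mpr h)]
    congr 2
    ext a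
    simp only [Finsupp.smul_apply, Finsupp.tsub_apply, smul_eq_mul]
    by_cases ha : k = a
    · subst ha
      simp [Nat.mul_sub]
    · simp [ha]
  · rw [if_neg h, if_neg (fun h' => h (h1.mp h'))]

theorem shpaLam_rename (q : ℕ) (hq : 1 ≤ q) (ρ : ℕ → ℕ) (hρ : Function.Injective ρ)
    (f : MvPolynomial ℕ R) :
    shpaLam q hq (MvPolynomial.rename ρ f) = MvPolynomial.rename ρ (shpaLam q hq f) := by
  classical
  ext m
  rw [shpaLam_coeff]
  by_cases h : ∃ u : ℕ →₀ ℕ, Finsupp.mapDomain ρ u = m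
  · obtain ⟨u, rfl⟩ := h
    have h1 : q • Finsupp.mapDomain ρ u = Finsupp.mapDomain ρ (q • u) := by
      rw [Finsupp.mapDomain_smul]
    rw [h1, MvPolynomial.coeff_rename_mapDomain ρ hρ, MvPolynomial.coeff_rename_mapDomain ρ hρ,
      shpaLam_coeff]
  · push Not at h
    rw [MvPolynomial.coeff_rename_eq_zero ρ (shpaLam q hq f) m (fun u hu => absurd hu (h u))]
    apply MvPolynomial.coeff_rename_eq_zero
    intro u hu
    exfalso
    refine h (Finsupp.comapDomain ρ m hρ.injOn) ?_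
    apply Finsupp.mapDomain_comapDomain ρ hρ
    intro a ha
    have h2 : (q • m) a ≠ 0 := by
      rw [Finsupp.smul_apply, smul_eq_mul]
      have := Finsupp.mem_support_iff.mp ha
      positivity
    rw [← hu] at h2
    by_contra hcon
    exact h2 (Finsupp.mapDomain_of_notMem_range u a hcon)

theorem shpaLam_map (q : ℕ) (hq : 1 ≤ q) (ψ : R →+* R') (f : MvPolynomial ℕ R) :
    shpaLam q hq (MvPolynomial.map ψ f) = MvPolynomial.map ψ (shpaLam q hq f) := by
  ext m
  rw [shpaLam_coeff, MvPolynomial.coeff_map, MvPolynomial.coeff_map, shpaLam_coeff]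

/-- the evaluation `v_k ^ q ↦ X + b k` -/
def shpaE (q : ℕ) (hq : 1 ≤ q) (b : ℕ → R) (f : MvPolynomial ℕ R) : R[X] :=
  MvPolynomial.eval₂ (Polynomial.C) (fun k => X + Polynomial.C (b k)) (shpaLam q hq f)

theorem shpaE_add (q : ℕ) (hq : 1 ≤ q) (b : ℕ → R) (f g : MvPolynomial ℕ R) :
    shpaE q hq b (f + g) = shpaE q hq b f + shpaE q hq b g := by
  unfold shpaE
  rw [shpaLam_add, MvPolynomial.eval₂_add]

theorem shpaE_C_mul (q : ℕ) (hq : 1 ≤ q) (b : ℕ → R) (r : R) (f : MvPolynomial ℕ R) :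
    shpaE q hq b (MvPolynomial.C r * f) = Polynomial.C r * shpaE q hq b f := by
  unfold shpaE
  rw [shpaLam_C_mul, MvPolynomial.eval₂_mul, MvPolynomial.eval₂_C]

theorem shpaE_C (q : ℕ) (hq : 1 ≤ q) (b : ℕ → R) (r : R) :
    shpaE q hq b (MvPolynomial.C r) = Polynomial.C r := by
  unfold shpaE
  rw [shpaLam_C, MvPolynomial.eval₂_C]

theorem shpaE_zero (q : ℕ) (hq : 1 ≤ q) (b : ℕ → R) : shpaE q hq b 0 = 0 := by
  have := shpaE_C q hq b 0
  rwa [map_zero, map_zero] at this

theorem shpaE_sum {ι : Type*} (q : ℕ) (hq : 1 ≤ q) (b : ℕ → R) (t : Finset ι)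
    (f : ι → MvPolynomial ℕ R) :
    shpaE q hq b (∑ j ∈ t, f j) = ∑ j ∈ t, shpaE q hq b (f j) := by
  classical
  induction t using Finset.induction_on with
  | empty => rw [Finset.sum_empty, Finset.sum_empty, shpaE_zero]
  | insert a t ha ih => rw [Finset.sum_insert ha, Finset.sum_insert ha, shpaE_add, ih]

theorem shpaE_X (q : ℕ) (hq : 1 ≤ q) (b : ℕ → R) (k : ℕ) (f : MvPolynomial ℕ R) :
    shpaE q hq b (f * MvPolynomial.X k ^ q) = shpaE q hq b f * (X + Polynomial.C (b k)) := by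
  unfold shpaE
  rw [shpaLam_X, MvPolynomial.eval₂_mul, MvPolynomial.eval₂_X]

theorem shpaE_rename (q : ℕ) (hq : 1 ≤ q) (b : ℕ → R) (ρ : ℕ → ℕ) (hρ : Function.Injective ρ)
    (f : MvPolynomial ℕ R) :
    shpaE q hq b (MvPolynomial.rename ρ f) = shpaE q hq (fun k => b (ρ k)) f := by
  unfold shpaE
  rw [shpaLam_rename q hq ρ hρ, MvPolynomial.eval₂_rename]
  rfl

theorem shpaE_map (q : ℕ) (hq : 1 ≤ q) (ψ : R →+* R') (b : ℕ → R) (f : MvPolynomial ℕ R) :
    shpaE q hq (fun k => ψ (b k)) (MvPolynomial.map ψ f) = (shpaE q hq b f).map ψ := by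
  unfold shpaE
  rw [shpaLam_map, MvPolynomial.eval₂_map]
  have h1 : (MvPolynomial.eval₂ Polynomial.C (fun k => X + Polynomial.C (b k))
      (shpaLam q hq f)).map ψ = Polynomial.mapRingHom ψ (MvPolynomial.eval₂ Polynomial.C
        (fun k => X + Polynomial.C (b k)) (shpaLam q hq f)) := rfl
  rw [h1, MvPolynomial.eval₂_comp_left (Polynomial.mapRingHom ψ)]
  congr 1
  · ext r : 1
    simp
  · funext k
    simp

theorem shpaE_comp (q : ℕ) (hq : 1 ≤ q) (b : ℕ → R) (c : R) (f : MvPolynomial ℕ R) :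
    shpaE q hq (fun k => c + b k) f = (shpaE q hq b f).comp (X + Polynomial.C c) := by
  unfold shpaE
  have h1 : (MvPolynomial.eval₂ Polynomial.C (fun k => X + Polynomial.C (b k))
      (shpaLam q hq f)).comp (X + Polynomial.C c) =
        Polynomial.compRingHom (X + Polynomial.C c) (MvPolynomial.eval₂ Polynomial.C
        (fun k => X + Polynomial.C (b k)) (shpaLam q hq f)) := rfl
  rw [h1, MvPolynomial.eval₂_comp_left (Polynomial.compRingHom (X + Polynomial.C c))]
  congr 1
  · ext r : 1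
    simp
  · funext k
    simp [add_assoc]

theorem shpaE_congr (q : ℕ) (hq : 1 ≤ q) (b b' : ℕ → R) (n : ℕ) (h : ∀ k, k ≤ n → b k = b' k)
    (f : MvPolynomial ℕ R) (hf : ∀ k ∈ f.vars, k ≤ n) :
    shpaE q hq b f = shpaE q hq b' f := by
  unfold shpaE
  apply MvPolynomial.eval₂_congr
  intro k m hk hm
  rw [shpaLam_coeff] at hm
  have h1 : k ∈ f.vars := by
    rw [MvPolynomial.mem_vars_iff_mem_support]
    refine ⟨q • m, MvPolynomial.mem_support_iff.mpr hm, ?_⟩
    rw [Finsupp.mem_support_iff, Finsupp.smul_apply, smul_eq_mul]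
    have := Finsupp.mem_support_iff.mp hk
    positivity
  rw [h k (hf k h1)]

/-- `shpaE` kills the ideal generated by `v_k ^ q - v_0 ^ q - (b k - b 0)` -/
theorem shpaE_ideal (q : ℕ) (hq : 1 ≤ q) (b : ℕ → R) (f : MvPolynomial ℕ R)
    (hf : f ∈ Ideal.span (Set.range fun k : ℕ => (MvPolynomial.X k ^ q - MvPolynomial.X 0 ^ q -
      MvPolynomial.C (b k - b 0) : MvPolynomial ℕ R))) : shpaE q hq b f = 0 := by
  let J : Ideal (MvPolynomial ℕ R) :=
    { carrier := {f | ∀ a, shpaE q hq b (a * f) = 0}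
      add_mem' := by
        intro f g hf hg a
        rw [mul_add, shpaE_add, hf a, hg a, add_zero]
      zero_mem' := by
        intro a
        rw [mul_zero, shpaE_zero]
      smul_mem' := by
        intro c f hf a
        rw [smul_eq_mul, ← mul_assoc]
        exact hf (a * c) }
  have hJ : Ideal.span (Set.range fun k : ℕ => (MvPolynomial.X k ^ q - MvPolynomial.X 0 ^ q -
      MvPolynomial.C (b k - b 0) : MvPolynomial ℕ R)) ≤ J := by
    rw [Ideal.span_le]
    rintro _ ⟨k, rfl⟩ a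
    have h1 : a * (MvPolynomial.X k ^ q - MvPolynomial.X 0 ^ q - MvPolynomial.C (b k - b 0)) =
        a * MvPolynomial.X k ^ q + (MvPolynomial.C (-1) * (a * MvPolynomial.X 0 ^ q) +
          MvPolynomial.C (-(b k - b 0)) * a) := by
      simp only [map_neg, map_one, map_sub]
      ring
    rw [h1, shpaE_add, shpaE_add, shpaE_X, shpaE_C_mul, shpaE_C_mul, shpaE_X]
    simp only [map_neg, map_one, map_sub]
    ring
  have := hJ hf 1
  rwa [one_mul] at this

end Lam

/-- the polynomial ring -/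
abbrev shpaP (i : A2) : A2 := ⟨MvPolynomial ℕ i.R⟩

/-- the vertices `x_k` over the polynomial ring -/
def shpaX (i : A2) (x : ℕ → G i.R) (k : ℕ) : G (shpaP i).R :=
  G.map (MvPolynomial.C : i.R →+* MvPolynomial ℕ i.R) (x k)

/-- the vertices `x_k * (s v_k)⁻¹` over the polynomial ring -/
def shpaY (s : ∀ i : A2, i.R → G i.R) (i : A2) (x : ℕ → G i.R) (k : ℕ) : G (shpaP i).R :=
  shpaX i x k * (s (shpaP i) (MvPolynomial.X k))⁻¹

/-- the pairs -/
def shpaZ (s : ∀ i : A2, i.R → G i.R) (i : A2) (x : ℕ → G i.R) (k : ℕ) :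
    G (shpaP i).R × G (shpaP i).R := (shpaX i x k, shpaY s i x k)

/-- the prism value -/
def shpaT (w : Fm) (s : ∀ i : A2, i.R → G i.R) (i : A2) (n : ℕ) (x : ℕ → G i.R) :
    MvPolynomial ℕ i.R := (TC.prism (w.1 (shpaP i)) n (shpaZ s i x)).coeff 0

theorem shpa_prism_nat (w : Fm) (i j : A2) (Φ : i.R →+* j.R) (n : ℕ) (z : ℕ → G i.R × G i.R) :
    (TC.prism (w.1 i) n z).map Φ =
      TC.prism (w.1 j) n (fun k => (G.map Φ (z k).1, G.map Φ (z k).2)) := by
  rw [TC.prism_apply, TC.prism_apply, Polynomial.map_sum]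
  refine Finset.sum_congr rfl fun l _ => ?_
  rw [← w.2.1 i j Φ (n + 1)]
  refine congrArg (w.1 j (n + 1)) ?_
  funext k
  unfold TC.mix
  split_ifs <;> rfl

theorem shpa_dep (w : Fm) (i : A2) (n : ℕ) (z z' : ℕ → G i.R × G i.R)
    (h : ∀ k, k ≤ n → z k = z' k) : TC.prism (w.1 i) n z = TC.prism (w.1 i) n z' :=
  (w.2.2.1 i).prism n z z' h

section Main

variable (s : ∀ i : A2, i.R → G i.R)
  (hs : ∀ (i j : A2) (φ : i.R →+* j.R) (v : i.R), G.map φ (s i v) = s j (φ v))

include hs

theorem shpaZ_map (i j : A2) (ψ : i.R →+* j.R) (x : ℕ → G i.R) (k : ℕ) :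
    (G.map (MvPolynomial.map ψ : (shpaP i).R →+* (shpaP j).R) (shpaZ s i x k).1,
      G.map (MvPolynomial.map ψ : (shpaP i).R →+* (shpaP j).R) (shpaZ s i x k).2) =
      shpaZ s j (fun l => G.map ψ (x l)) k := by
  have h1 : G.map (MvPolynomial.map ψ : (shpaP i).R →+* (shpaP j).R) (shpaX i x k) =
      shpaX j (fun l => G.map ψ (x l)) k := by
    unfold shpaX
    rw [G.map_map, G.map_map]
    congr 1
    congr 1
    ext r : 1
    exact MvPolynomial.map_C ψ r
  have h2 : G.map (MvPolynomial.map ψ : (shpaP i).R →+* (shpaP j).R) (shpaY s i x k) =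
      shpaY s j (fun l => G.map ψ (x l)) k := by
    unfold shpaY
    rw [map_mul, map_inv, h1]
    have e := hs (shpaP i) (shpaP j) (MvPolynomial.map ψ) (MvPolynomial.X k)
    have e' : (MvPolynomial.map ψ : MvPolynomial ℕ i.R →+* MvPolynomial ℕ j.R)
      (MvPolynomial.X k) = MvPolynomial.X k := MvPolynomial.map_X ψ k
    exact congrArg (fun t => shpaX j (fun l => G.map ψ (x l)) k * t⁻¹)
      (e.trans (congrArg (s (shpaP j)) e'))
  exact Prod.ext h1 h2

theorem shpaZ_rename (i : A2) (ρ : ℕ → ℕ) (x : ℕ → G i.R) (k : ℕ) :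
    (G.map ((MvPolynomial.rename ρ : MvPolynomial ℕ i.R →ₐ[i.R] MvPolynomial ℕ i.R).toRingHom :
        (shpaP i).R →+* (shpaP i).R) (shpaZ s i (fun l => x (ρ l)) k).1,
      G.map ((MvPolynomial.rename ρ : MvPolynomial ℕ i.R →ₐ[i.R] MvPolynomial ℕ i.R).toRingHom :
        (shpaP i).R →+* (shpaP i).R) (shpaZ s i (fun l => x (ρ l)) k).2) =
      shpaZ s i x (ρ k) := by
  have h1 : G.map ((MvPolynomial.rename ρ :
      MvPolynomial ℕ i.R →ₐ[i.R] MvPolynomial ℕ i.R).toRingHom :
        (shpaP i).R →+* (shpaP i).R) (shpaX i (fun l => x (ρ l)) k) = shpaX i x (ρ k) := by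
    unfold shpaX
    rw [G.map_map]
    congr 1
    congr 1
    ext r : 1
    exact MvPolynomial.rename_C ρ r
  have h2 : G.map ((MvPolynomial.rename ρ :
      MvPolynomial ℕ i.R →ₐ[i.R] MvPolynomial ℕ i.R).toRingHom :
        (shpaP i).R →+* (shpaP i).R) (shpaY s i (fun l => x (ρ l)) k) = shpaY s i x (ρ k) := by
    unfold shpaY
    rw [map_mul, map_inv, h1]
    have e := hs (shpaP i) (shpaP i) ((MvPolynomial.rename ρ :
      MvPolynomial ℕ i.R →ₐ[i.R] MvPolynomial ℕ i.R).toRingHom) (MvPolynomial.X k)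
    have e' : (MvPolynomial.rename ρ : MvPolynomial ℕ i.R →ₐ[i.R] MvPolynomial ℕ i.R).toRingHom
      (MvPolynomial.X k) = MvPolynomial.X (ρ k) := MvPolynomial.rename_X ρ k
    exact congrArg (fun t => shpaX i x (ρ k) * t⁻¹) (e.trans (congrArg (s (shpaP i)) e'))
  exact Prod.ext h1 h2

theorem shpaT_map (w : Fm) (i j : A2) (ψ : i.R →+* j.R) (n : ℕ) (x : ℕ → G i.R) :
    MvPolynomial.map ψ (shpaT w s i n x) = shpaT w s j n (fun k => G.map ψ (x k)) := by
  unfold shpaT
  have h1 := shpa_prism_nat w (shpaP i) (shpaP j) (MvPolynomial.map ψ) n (shpaZ s i x)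
  have h2 : (fun k => (G.map (MvPolynomial.map ψ : (shpaP i).R →+* (shpaP j).R) (shpaZ s i x k).1,
      G.map (MvPolynomial.map ψ : (shpaP i).R →+* (shpaP j).R) (shpaZ s i x k).2)) =
      shpaZ s j (fun l => G.map ψ (x l)) := funext (shpaZ_map s hs i j ψ x)
  rw [h2] at h1
  rw [← h1, Polynomial.coeff_map]

theorem shpaT_rename (w : Fm) (i : A2) (ρ : ℕ → ℕ) (n : ℕ) (x : ℕ → G i.R) :
    MvPolynomial.rename ρ (shpaT w s i n (fun l => x (ρ l))) =
      (TC.prism (w.1 (shpaP i)) n (fun k => shpaZ s i x (ρ k))).coeff 0 := by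
  unfold shpaT
  have h1 := shpa_prism_nat w (shpaP i) (shpaP i) ((MvPolynomial.rename ρ :
      MvPolynomial ℕ i.R →ₐ[i.R] MvPolynomial ℕ i.R).toRingHom) n
      (shpaZ s i (fun l => x (ρ l)))
  have h2 := funext (shpaZ_rename s hs i ρ x)
  rw [h2] at h1
  rw [← h1, Polynomial.coeff_map]
  rfl

omit hs in
theorem shpaT_congr (w : Fm) (i : A2) (n : ℕ) (x x' : ℕ → G i.R) (h : ∀ k, k ≤ n → x k = x' k) :
    shpaT w s i n x = shpaT w s i n x' := by
  unfold shpaT
  rw [shpa_dep w (shpaP i) n (shpaZ s i x) (shpaZ s i x')]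
  intro k hk
  unfold shpaZ shpaY shpaX
  rw [h k hk]

/-- only the variables `v_0, ..., v_n` occur -/
theorem shpaT_vars (w : Fm) (i : A2) (n : ℕ) (x : ℕ → G i.R) :
    ∀ k ∈ (shpaT w s i n x).vars, k ≤ n := by
  let g : ℕ → MvPolynomial ℕ i.R := fun k => if k ≤ n then MvPolynomial.X k else 0
  let Φ : MvPolynomial ℕ i.R →ₐ[i.R] MvPolynomial ℕ i.R := MvPolynomial.aeval g
  have h1 := shpa_prism_nat w (shpaP i) (shpaP i) Φ.toRingHom n (shpaZ s i x)
  have h2 : TC.prism (w.1 (shpaP i)) n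
      (fun k => (G.map (Φ.toRingHom : (shpaP i).R →+* (shpaP i).R) (shpaZ s i x k).1,
        G.map (Φ.toRingHom : (shpaP i).R →+* (shpaP i).R) (shpaZ s i x k).2)) =
      TC.prism (w.1 (shpaP i)) n (shpaZ s i x) := by
    apply shpa_dep
    intro k hk
    have e1 : G.map (Φ.toRingHom : (shpaP i).R →+* (shpaP i).R) (shpaX i x k) = shpaX i x k := by
      unfold shpaX
      rw [G.map_map]
      congr 1
      congr 1
      ext r : 1
      exact MvPolynomial.aeval_C g r
    have e2 : G.map (Φ.toRingHom : (shpaP i).R →+* (shpaP i).R) (shpaY s i x k) =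
        shpaY s i x k := by
      unfold shpaY
      rw [map_mul, map_inv, e1]
      have e := hs (shpaP i) (shpaP i) Φ.toRingHom (MvPolynomial.X k)
      have e3 : Φ (MvPolynomial.X k) = g k := MvPolynomial.aeval_X g k
      have e4 : g k = MvPolynomial.X k := if_pos hk
      exact congrArg (fun t => shpaX i x k * t⁻¹)
        (e.trans (congrArg (s (shpaP i)) (e3.trans e4)))
    exact Prod.ext e1 e2
  rw [h2] at h1
  have h3 : Φ (shpaT w s i n x) = shpaT w s i n x := by
    have := congrArg (fun f => Polynomial.coeff f 0) h1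
    simp only [Polynomial.coeff_map] at this
    exact this
  have h4 : shpaT w s i n x ∈ MvPolynomial.supported i.R {k | k ≤ n} := by
    rw [← h3]
    have h5 : Φ (shpaT w s i n x) ∈ (MvPolynomial.aeval g :
        MvPolynomial ℕ i.R →ₐ[i.R] MvPolynomial ℕ i.R).range := ⟨_, rfl⟩
    rw [← Algebra.adjoin_range_eq_range_aeval] at h5
    refine (Algebra.adjoin_le ?_) h5
    rintro _ ⟨k, rfl⟩
    change g k ∈ MvPolynomial.supported i.R {k | k ≤ n}
    by_cases hk : k ≤ n
    · rw [show g k = MvPolynomial.X k from if_pos hk]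
      exact Algebra.subset_adjoin ⟨k, hk, rfl⟩
    · rw [show g k = 0 from if_neg hk]
      exact Subalgebra.zero_mem _
  intro k hk
  exact MvPolynomial.mem_supported.mp h4 hk

end Main

/-- the family -/
def shpaF (K : SG) (χ : Chr K) (q : ℕ) (hq : 1 ≤ q) (s : ∀ i : A2, i.R → G i.R)
    (hs : ∀ (i j : A2) (φ : i.R →+* j.R) (v : i.R), G.map φ (s i v) = s j (φ v)) (w : Fm) : Fm :=
  ⟨fun i n x => shpaE q hq (fun k => χ.t i (x k)) (shpaT w s i n x), by
    refine ⟨?_, ?_, ?_⟩
    · intro i j φ n x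
      change shpaE q hq (fun k => χ.t j (G.map φ (x k))) (shpaT w s j n (fun k => G.map φ (x k))) =
        (shpaE q hq (fun k => χ.t i (x k)) (shpaT w s i n x)).map φ
      rw [← shpaT_map s hs w i j φ n x, ← shpaE_map]
      congr 1
      funext k
      exact χ.nat i j φ (x k)
    · intro i n x x' h
      change shpaE q hq (fun k => χ.t i (x k)) (shpaT w s i n x) =
        shpaE q hq (fun k => χ.t i (x' k)) (shpaT w s i n x')
      rw [← shpaT_congr s w i n x x' h]
      exact shpaE_congr q hq _ _ n (fun k hk => by rw [h k hk]) _ (shpaT_vars s hs w i n x)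
    · obtain ⟨N, hN⟩ := w.2.2.2
      refine ⟨N, fun n hn i x => ?_⟩
      change shpaE q hq (fun k => χ.t i (x k)) (shpaT w s i n x) = 0
      have h1 : shpaT w s i n x = 0 := by
        unfold shpaT
        rw [TC.prism_apply]
        rw [Finset.sum_eq_zero]
        · exact Polynomial.coeff_zero 0
        · intro l _
          exact hN (n + 1) (by omega) _ _
      rw [h1, shpaE_zero]⟩

theorem shpaF_apply (K : SG) (χ : Chr K) (q : ℕ) (hq : 1 ≤ q) (s : ∀ i : A2, i.R → G i.R)
    (hs : ∀ (i j : A2) (φ : i.R →+* j.R) (v : i.R), G.map φ (s i v) = s j (φ v)) (w : Fm)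
    (i : A2) (n : ℕ) (x : ℕ → G i.R) : (shpaF K χ q hq s hs w).1 i n x =
      shpaE q hq (fun k => χ.t i (x k)) (shpaT w s i n x) := rfl

theorem shpa_chr_one {K : SG} (χ : Chr K) (i : A2) : χ.t i 1 = 0 := by
  have h := χ.add i 1 1 (K.S i).one_mem (K.S i).one_mem
  rw [mul_one] at h
  exact left_eq_add.mp h

theorem shpa_chr_inv {K : SG} (χ : Chr K) (i : A2) (g : G i.R) (hg : g ∈ K.S i) :
    χ.t i g⁻¹ = - χ.t i g := by
  have h := χ.add i g g⁻¹ hg ((K.S i).inv_mem hg)
  rw [mul_inv_cancel, shpa_chr_one] at h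
  rw [eq_neg_iff_add_eq_zero, add_comm, ← h]

/-- the universal sequence of vertices -/
abbrev shpaU : A2 := ⟨MvPolynomial (ℕ × ℕ) (ZMod 2)⟩

/-- the universal sequence of vertices -/
def shpaXU (k : ℕ) : G shpaU.R :=
  ⟨fun m => if m = 0 then 1 else (MvPolynomial.X (k, m) : MvPolynomial (ℕ × ℕ) (ZMod 2)), by simp⟩

theorem shpa_univ (i : A2) (x : ℕ → G i.R) : ∃ φ : shpaU.R →+* i.R, ∀ k, G.map φ (shpaXU k) = x k := by
  refine ⟨(MvPolynomial.aeval (fun p : ℕ × ℕ => (x p.1).c p.2) :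
    MvPolynomial (ℕ × ℕ) (ZMod 2) →ₐ[ZMod 2] i.R).toRingHom, fun k => ?_⟩
  ext m
  rw [G.map_c]
  by_cases hm : m = 0
  · subst hm
    simp
  · have h1 : (shpaXU k).c m = (MvPolynomial.X (k, m) : MvPolynomial (ℕ × ℕ) (ZMod 2)) :=
      if_neg hm
    rw [h1]
    exact MvPolynomial.aeval_X _ _

/-- degree bound for families -/
theorem shpa_deg (F : Fm) : ∃ D : ℕ, ∀ (i : A2) (n : ℕ) (x : ℕ → G i.R),
    F.1 i n x ∈ degreeLT i.R D := by
  obtain ⟨N, hN⟩ := F.2.2.2
  refine ⟨(Finset.range N).sup (fun n => (F.1 shpaU n shpaXU).natDegree) + 1, ?_⟩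
  intro i n x
  by_cases hn : n < N
  · obtain ⟨φ, hφ⟩ := shpa_univ i x
    have h1 := F.2.1 shpaU i φ n shpaXU
    have h2 : (fun k => G.map φ (shpaXU k)) = x := funext hφ
    rw [h2] at h1
    rw [h1, Polynomial.mem_degreeLT]
    have h3 : (F.1 shpaU n shpaXU).natDegree ≤
        (Finset.range N).sup (fun n => (F.1 shpaU n shpaXU).natDegree) :=
      Finset.le_sup (f := fun n => (F.1 shpaU n shpaXU).natDegree) (Finset.mem_range.mpr hn)
    refine lt_of_le_of_lt (Polynomial.degree_map_le) ?_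
    refine lt_of_le_of_lt (Polynomial.degree_le_natDegree) ?_
    exact WithBot.coe_lt_coe.mpr (Nat.lt_succ_of_le h3)
  · rw [hN n (by omega) i x]
    exact Submodule.zero_mem _

/-- `χ` a character of `K`, `s` a natural section up to a `q`-th power: `χ (s v) = v ^ q`.  If the
cocycle `w` vanishes on the kernel of `χ`, then `w` is a coboundary in equivariant `R[X]`-valued
cochains.
Proof. For `x` a sequence in `G R` work in `R[v_0, v_1, ...]` (`MvPolynomial ℕ R`), put
`y_k = x_k * (s v_k)⁻¹` and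
`T n x = ∑_{i ≤ n} coeff 0 (w (n + 1) (y_0, ..., y_i, x_i, ..., x_n))` in `MvPolynomial ℕ R`
(this is `prism`).  Let `Λ : MvPolynomial ℕ R → MvPolynomial ℕ R` be the `R`-linear map with
`coeff k (Λ f) = coeff (q • k) f`, and `E_x f = aeval (fun k => X + C (χ (x k))) (Λ f)` in `R[X]`.
Then `E_x (C r) = C r`, `E_x (v_k ^ q * f) = (X + C (χ (x k))) * E_x f`,
`E_(x ∘ ρ) f = E_x (rename ρ f)` for injective `ρ`, and `F n x = E_x (T n x)` works:
`d F = E_x (w x) + E_x (w y) = w x` since `w y` vanishes modulo the ideal generated by the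
`v_k ^ q - v_0 ^ q - χ (x k) - χ (x 0)` (there `y_0⁻¹ y_k` lies in the kernel of `χ`), and `E_x`
kills this ideal.  The degree bound `D` comes from the universal point in
`G (MvPolynomial (ℕ × ℕ) (ZMod 2))` (all sequences `x` are images of it) and finite support. -/
theorem shapiroA (K : SG) (χ : Chr K) (q : ℕ) (hq : 1 ≤ q) (s : ∀ i : A2, i.R → G i.R)
    (hs : ∀ (i j : A2) (φ : i.R →+* j.R) (v : i.R), G.map φ (s i v) = s j (φ v))
    (hsK : ∀ (i : A2) (v : i.R), s i v ∈ K.S i)
    (hst : ∀ (i : A2) (v : i.R), χ.t i (s i v) = v ^ q)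
    (w : Fm) (hwZ : w ∈ Z K)
    (hw : ∀ (i : A2) (n : ℕ) (x : ℕ → G i.R), K.Sq x → (∀ k, χ.t i (x k) = 0) → w.1 i n x = 0) :
    ∃ (F : Fm) (D : ℕ), InM K χ D F ∧ EqK K F.d w := by
  obtain ⟨D, hD⟩ := shpa_deg (shpaF K χ q hq s hs w)
  obtain ⟨hwC, hwd⟩ := hwZ
  have hXK : ∀ (i : A2) (x : ℕ → G i.R), K.Sq x → ∀ k, shpaX i x k ∈ K.S (shpaP i) :=
    fun i x hx k => K.nat i (shpaP i) _ _ (hx k)
  have hYK : ∀ (i : A2) (x : ℕ → G i.R), K.Sq x → ∀ k, shpaY s i x k ∈ K.S (shpaP i) :=
    fun i x hx k => (K.S (shpaP i)).mul_mem (hXK i x hx k) ((K.S (shpaP i)).inv_mem (hsK _ _))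
  have hmixK : ∀ (i : A2) (x : ℕ → G i.R), K.Sq x → ∀ l, K.Sq (TC.mix l
      (fun k => (shpaZ s i x k).1) (fun k => (shpaZ s i x k).2)) := by
    intro i x hx l k
    unfold TC.mix
    split_ifs
    · exact hYK i x hx _
    · exact hXK i x hx _
  refine ⟨shpaF K χ q hq s hs w, D, ⟨?_, fun i n x _ => hD i n x⟩, ?_⟩
  · -- equivariance
    intro i n x g hg hx
    rw [shpaF_apply, shpaF_apply]
    have h1 : shpaT w s i n (fun k => g * x k) = shpaT w s i n x := by
      unfold shpaT
      congr 1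
      rw [TC.prism_apply, TC.prism_apply]
      refine Finset.sum_congr rfl fun l _ => ?_
      have h2 : TC.mix l (fun k => (shpaZ s i (fun k => g * x k) k).1)
          (fun k => (shpaZ s i (fun k => g * x k) k).2) =
          fun k => shpaX i (fun _ => g) 0 * TC.mix l (fun k => (shpaZ s i x k).1)
            (fun k => (shpaZ s i x k).2) k := by
        funext k
        unfold TC.mix
        split_ifs
        · change shpaY s i (fun k => g * x k) k = shpaX i (fun _ => g) 0 * shpaY s i x k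
          unfold shpaY shpaX
          rw [map_mul, mul_assoc]
        · change shpaX i (fun k => g * x k) (k - 1) = shpaX i (fun _ => g) 0 * shpaX i x (k - 1)
          unfold shpaX
          rw [map_mul]
      rw [h2]
      exact hwC.1 (shpaP i) (n + 1) _ _ (hXK i (fun _ => g) (fun _ => hg) 0) (hmixK i x hx l)
    rw [h1, ← shpaE_comp]
    congr 1
    funext k
    exact χ.add i g (x k) hg (hx k)
  · -- the coboundary
    intro i n x hx
    rw [Fm.d_val]
    cases n with
    | zero =>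
      rw [TC.d_zero_apply]
      have h1 := hwC.1 i 0 x (x 0)⁻¹ ((K.S i).inv_mem (hx 0)) hx
      have h2 : w.1 i 0 (fun k => (x 0)⁻¹ * x k) = w.1 i 0 (fun _ => 1) := by
        apply w.2.2.1 i
        intro k hk
        have : k = 0 := by omega
        subst this
        exact inv_mul_cancel _
      rw [← h1, h2]
      exact (hw i 0 _ (fun _ => (K.S i).one_mem) (fun _ => shpa_chr_one χ i)).symm
    | succ n =>
      rw [TC.d_succ_apply]
      have hskip : ∀ j, Function.Injective (skip j) := by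
        intro j a b hab
        unfold skip at hab
        split_ifs at hab <;> omega
      have h1 : ∀ j, (shpaF K χ q hq s hs w).1 i n (fun k => x (skip j k)) =
          shpaE q hq (fun k => χ.t i (x k))
            ((TC.prism (w.1 (shpaP i)) n (fun k => shpaZ s i x (skip j k))).coeff 0) := by
        intro j
        rw [shpaF_apply, ← shpaT_rename s hs w i (skip j) n x, shpaE_rename q hq _ _ (hskip j)]
      rw [Finset.sum_congr rfl (fun j _ => h1 j), ← shpaE_sum, ← Polynomial.finsetSum_coeff,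
        ← TC.d_succ_apply]
      -- the prism identity
      have h2 := congrFun (congrFun (TC.d_prism (w.2.2.1 (shpaP i))) (n + 1)) (shpaZ s i x)
      rw [TC.add_apply, TC.add_apply] at h2
      have h3 : TC.prism (TC.d (w.1 (shpaP i))) (n + 1) (shpaZ s i x) = 0 := by
        rw [TC.prism_apply]
        refine Finset.sum_eq_zero fun l _ => ?_
        exact hwd (shpaP i) (n + 1 + 1) _ (hmixK i x hx l)
      rw [h3, add_zero] at h2
      rw [h2, Polynomial.coeff_add, shpaE_add]
      have h4 : TC.pull Prod.fst (w.1 (shpaP i)) (n + 1) (shpaZ s i x) =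
          (w.1 i (n + 1) x).map (MvPolynomial.C : i.R →+* MvPolynomial ℕ i.R) :=
        w.2.1 i (shpaP i) _ (n + 1) x
      rw [h4, Polynomial.coeff_map, shpaE_C, ← hwC.2 i (n + 1) x hx]
      -- the second term
      have h5 : shpaE q hq (fun k => χ.t i (x k))
          ((TC.pull Prod.snd (w.1 (shpaP i)) (n + 1) (shpaZ s i x)).coeff 0) = 0 := by
        apply shpaE_ideal
        set I : Ideal (MvPolynomial ℕ i.R) := Ideal.span (Set.range fun k : ℕ =>
          (MvPolynomial.X k ^ q - MvPolynomial.X 0 ^ q -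
            MvPolynomial.C (χ.t i (x k) - χ.t i (x 0)) : MvPolynomial ℕ i.R)) with hI
        let Q : A2 := ⟨MvPolynomial ℕ i.R ⧸ I⟩
        let π : (shpaP i).R →+* Q.R := Ideal.Quotient.mk I
        have hyQ : ∀ k, G.map π (shpaY s i x k) ∈ K.S Q := fun k => K.nat _ _ π _ (hYK i x hx k)
        have hchi : ∀ k, χ.t Q (G.map π (shpaY s i x k)) =
            π (MvPolynomial.C (χ.t i (x k)) - MvPolynomial.X k ^ q) := by
          intro k
          rw [χ.nat]
          congr 1
          unfold shpaY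
          rw [χ.add _ _ _ (hXK i x hx k) ((K.S _).inv_mem (hsK _ _)),
            shpa_chr_inv χ _ _ (hsK _ _), hst]
          unfold shpaX
          rw [χ.nat, sub_eq_add_neg]
        have h6 : w.1 Q (n + 1) (fun k => G.map π (shpaY s i x k)) = 0 := by
          have h7 := hwC.1 Q (n + 1) (fun k => G.map π (shpaY s i x k))
            (G.map π (shpaY s i x 0))⁻¹ ((K.S Q).inv_mem (hyQ 0)) hyQ
          rw [← h7]
          apply hw Q (n + 1) _ (fun k => (K.S Q).mul_mem ((K.S Q).inv_mem (hyQ 0)) (hyQ k))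
          intro k
          rw [χ.add _ _ _ ((K.S Q).inv_mem (hyQ 0)) (hyQ k), shpa_chr_inv χ _ _ (hyQ 0), hchi,
            hchi, ← map_neg, ← map_add]
          change Ideal.Quotient.mk I _ = 0
          rw [Ideal.Quotient.eq_zero_iff_mem]
          have h8 : (MvPolynomial.X k ^ q - MvPolynomial.X 0 ^ q -
            MvPolynomial.C (χ.t i (x k) - χ.t i (x 0)) : MvPolynomial ℕ i.R) ∈ I :=
            Ideal.subset_span ⟨k, rfl⟩
          have h9 := I.neg_mem h8
          have h10 : -(MvPolynomial.C (χ.t i (x 0)) - MvPolynomial.X 0 ^ q) +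
              (MvPolynomial.C (χ.t i (x k)) - MvPolynomial.X k ^ q) =
              -(MvPolynomial.X k ^ q - MvPolynomial.X 0 ^ q -
            MvPolynomial.C (χ.t i (x k) - χ.t i (x 0)) : MvPolynomial ℕ i.R) := by
            rw [map_sub]; ring
          rw [h10]
          exact h9
        have h7 := w.2.1 (shpaP i) Q π (n + 1) (shpaY s i x)
        rw [h6] at h7
        have h8 := congrArg (fun f => Polynomial.coeff f 0) h7
        simp only [Polynomial.coeff_map, Polynomial.coeff_zero] at h8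
        exact Ideal.Quotient.eq_zero_iff_mem.mp h8.symm
      rw [h5, add_zero]

end

end Pool.Agent.H8.NP
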