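import Pool.Agent.H8.NP.Fam

/-! Module SHPB of project MP_9cbe1e_gt: Shapiro lemma, truncated height. -/

namespace Pool.Agent.H8.NP

open Finset Polynomial

noncomputable section

/-- the truncated polynomial ring -/
abbrev shpb_Q (M : ℕ) (i : A2) : A2 := ⟨AdjoinRoot (X ^ (2 ^ M) : Polynomial i.R)⟩

/-- inclusion of the constants -/
abbrev shpb_of (M : ℕ) (i : A2) : i.R →+* (shpb_Q M i).R :=
  AdjoinRoot.of (X ^ (2 ^ M) : Polynomial i.R)

/-- the variable -/
abbrev shpb_root (M : ℕ) (i : A2) : (shpb_Q M i).R :=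
  AdjoinRoot.root (X ^ (2 ^ M) : Polynomial i.R)

/-- the quotient map -/
abbrev shpb_mk (M : ℕ) (i : A2) : Polynomial i.R →+* (shpb_Q M i).R :=
  AdjoinRoot.mk (X ^ (2 ^ M) : Polynomial i.R)

/-- the representative of degree `< 2 ^ M` -/
def shpb_rep (M : ℕ) (i : A2) : (shpb_Q M i).R →+ Polynomial i.R :=
  (AdjoinRoot.modByMonicHom (monic_X_pow (R := i.R) (2 ^ M))).toAddMonoidHom

theorem shpb_rep_mk (M : ℕ) (i : A2) (p : Polynomial i.R) :
    shpb_rep M i (shpb_mk M i p) = p %ₘ (X ^ (2 ^ M)) :=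
  AdjoinRoot.modByMonicHom_mk (monic_X_pow (R := i.R) (2 ^ M)) p

theorem shpb_mk_rep (M : ℕ) (i : A2) (a : (shpb_Q M i).R) :
    shpb_mk M i (shpb_rep M i a) = a :=
  AdjoinRoot.mk_leftInverse (monic_X_pow (R := i.R) (2 ^ M)) a

theorem shpb_rep_mem (M : ℕ) (i : A2) (a : (shpb_Q M i).R) :
    shpb_rep M i a ∈ degreeLT i.R (2 ^ M) := by
  obtain ⟨p, rfl⟩ := AdjoinRoot.mk_surjective a
  rw [shpb_rep_mk, mem_degreeLT]
  rcases subsingleton_or_nontrivial i.R with h | h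
  · have : (p %ₘ (X ^ (2 ^ M)) : Polynomial i.R) = 0 := Subsingleton.elim _ _
    rw [this, degree_zero]
    exact WithBot.bot_lt_coe _
  · have := degree_modByMonic_lt p (monic_X_pow (R := i.R) (2 ^ M))
    rwa [degree_X_pow] at this

theorem shpb_rep_of_mem (M : ℕ) (i : A2) (p : Polynomial i.R) (hp : p ∈ degreeLT i.R (2 ^ M)) :
    shpb_rep M i (shpb_mk M i p) = p := by
  rw [shpb_rep_mk]
  rcases subsingleton_or_nontrivial i.R with h | h
  · exact Subsingleton.elim _ _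
  · rw [modByMonic_eq_self_iff (monic_X_pow _), degree_X_pow]
    exact mem_degreeLT.1 hp

theorem shpb_rep_of (M : ℕ) (i : A2) (a : i.R) :
    shpb_rep M i (shpb_of M i a) = C a := by
  have h : shpb_of M i a = shpb_mk M i (C a) := (AdjoinRoot.mk_C a).symm
  rw [h, shpb_rep_of_mem]
  rw [mem_degreeLT]
  exact lt_of_le_of_lt degree_C_le (by exact_mod_cast pow_pos (by norm_num) M)

/-- composition with `X + C t` preserves the degree bound -/
theorem shpb_comp_mem (i j : A2) (φ : i.R →+* j.R) (t : j.R) (D : ℕ) (p : Polynomial i.R)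
    (hp : p ∈ degreeLT i.R D) : (p.map φ).comp (X + C t) ∈ degreeLT j.R D := by
  rw [mem_degreeLT, degree_lt_iff_coeff_zero] at hp ⊢
  intro m hm
  rw [comp, eval₂_eq_sum_range, finsetSum_coeff]
  apply Finset.sum_eq_zero
  intro k _
  rw [coeff_C_mul, coeff_map]
  by_cases hk : D ≤ k
  · rw [hp k hk, map_zero, zero_mul]
  · have hd : ((X + C t) ^ k : Polynomial j.R).natDegree ≤ k := by
      refine natDegree_pow_le.trans ?_
      have : (X + C t : Polynomial j.R).natDegree ≤ 1 := by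
        refine (natDegree_add_le _ _).trans (max_le natDegree_X_le ?_)
        rw [natDegree_C]
        exact Nat.zero_le 1
      nlinarith
    have hz : ((X + C t) ^ k : Polynomial j.R).coeff m = 0 :=
      coeff_eq_zero_of_natDegree_lt (by omega)
    rw [hz, mul_zero]

/-- the substitution `X ↦ X + t` along `φ` -/
def shpb_Phi (M : ℕ) (i j : A2) (φ : i.R →+* j.R) (t : j.R) (ht : t ^ (2 ^ M) = 0) :
    (shpb_Q M i).R →+* (shpb_Q M j).R :=
  AdjoinRoot.lift ((shpb_of M j).comp φ) (shpb_root M j + shpb_of M j t) (by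
    rw [eval₂_X_pow, add_pow2]
    have h1 : shpb_root M j ^ (2 ^ M) = 0 := by
      have h2 : shpb_root M j = shpb_mk M j X := AdjoinRoot.mk_X.symm
      rw [h2, ← map_pow]
      exact AdjoinRoot.mk_self
    rw [h1, ← map_pow, ht, map_zero, add_zero])

theorem shpb_Phi_mk (M : ℕ) (i j : A2) (φ : i.R →+* j.R) (t : j.R) (ht : t ^ (2 ^ M) = 0)
    (p : Polynomial i.R) :
    shpb_Phi M i j φ t ht (shpb_mk M i p) = shpb_mk M j ((p.map φ).comp (X + C t)) := by
  rw [shpb_Phi, AdjoinRoot.lift_mk, comp, eval₂_map, hom_eval₂]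
  rw [map_add, AdjoinRoot.mk_X, AdjoinRoot.mk_C]
  rfl

theorem shpb_Phi_root (M : ℕ) (i j : A2) (φ : i.R →+* j.R) (t : j.R) (ht : t ^ (2 ^ M) = 0) :
    shpb_Phi M i j φ t ht (shpb_root M i) = shpb_root M j + shpb_of M j t := by
  rw [shpb_Phi, AdjoinRoot.lift_root]

theorem shpb_Phi_of (M : ℕ) (i j : A2) (φ : i.R →+* j.R) (t : j.R) (ht : t ^ (2 ^ M) = 0)
    (a : i.R) :
    shpb_Phi M i j φ t ht (shpb_of M i a) = shpb_of M j (φ a) := by
  rw [shpb_Phi, AdjoinRoot.lift_of]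
  rfl

theorem shpb_rep_Phi (M : ℕ) (i j : A2) (φ : i.R →+* j.R) (t : j.R) (ht : t ^ (2 ^ M) = 0)
    (a : (shpb_Q M i).R) :
    shpb_rep M j (shpb_Phi M i j φ t ht a) = ((shpb_rep M i a).map φ).comp (X + C t) := by
  conv_lhs => rw [← shpb_mk_rep M i a]
  rw [shpb_Phi_mk, shpb_rep_of_mem]
  exact shpb_comp_mem i j φ t _ _ (shpb_rep_mem M i a)

section

variable {K : SG} (χ : Chr K) (M : ℕ) (s : ∀ i : A2, i.R → G i.R)

/-- the element `v = X + χ g` -/
def shpb_v (i : A2) (g : G i.R) : (shpb_Q M i).R := shpb_root M i + shpb_of M i (χ.t i g)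

/-- the vertex `g`, in the bigger ring -/
def shpb_x (i : A2) (g : G i.R) : G (shpb_Q M i).R := G.map (shpb_of M i) g

/-- the vertex `g * (s v)⁻¹` -/
def shpb_y (i : A2) (g : G i.R) : G (shpb_Q M i).R :=
  shpb_x M i g * (s (shpb_Q M i) (shpb_v χ M i g))⁻¹

theorem shpb_x_mul (i j : A2) (φ : i.R →+* j.R) (t : j.R) (ht : t ^ (2 ^ M) = 0)
    (g : G j.R) (x : G i.R) :
    shpb_x M j (g * G.map φ x) = shpb_x M j g * G.map (shpb_Phi M i j φ t ht) (shpb_x M i x) := by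
  rw [shpb_x, map_mul]
  congr 1
  ext k
  simp only [shpb_x, G.map_c]
  rw [shpb_Phi_of]

theorem shpb_y_mul (hs : ∀ (i j : A2) (φ : i.R →+* j.R) (v : i.R), G.map φ (s i v) = s j (φ v))
    (i j : A2) (φ : i.R →+* j.R) (t : j.R) (ht : t ^ (2 ^ M) = 0)
    (g : G j.R) (x : G i.R) (hχ : χ.t j (g * G.map φ x) = t + φ (χ.t i x)) :
    shpb_y χ M s j (g * G.map φ x) =
      shpb_x M j g * G.map (shpb_Phi M i j φ t ht) (shpb_y χ M s i x) := by
  have hv : shpb_v χ M j (g * G.map φ x) = shpb_Phi M i j φ t ht (shpb_v χ M i x) := by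
    rw [shpb_v, shpb_v, map_add, shpb_Phi_root, shpb_Phi_of, hχ, map_add]
    ring
  rw [shpb_y, shpb_x_mul M i j φ t ht g x, shpb_y, map_mul, mul_assoc]
  congr 2
  rw [map_inv, hs, hv]

variable (w : Fm)

/-- the value in the truncated polynomial ring -/
def shpb_val (i : A2) (n : ℕ) (x : ℕ → G i.R) : Polynomial (shpb_Q M i).R :=
  TC.prism (w.1 (shpb_Q M i)) n (fun k => (shpb_x M i (x k), shpb_y χ M s i (x k)))

/-- the mixed sequence -/
def shpb_mix (l : ℕ) (i : A2) (x : ℕ → G i.R) : ℕ → G (shpb_Q M i).R :=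
  TC.mix l (fun k => shpb_x M i (x k)) (fun k => shpb_y χ M s i (x k))

theorem shpb_val_apply (i : A2) (n : ℕ) (x : ℕ → G i.R) :
    shpb_val χ M s w i n x =
      ∑ l ∈ range (n + 1), w.1 (shpb_Q M i) (n + 1) (shpb_mix χ M s l i x) := rfl

theorem shpb_val_mul
    (hs : ∀ (i j : A2) (φ : i.R →+* j.R) (v : i.R), G.map φ (s i v) = s j (φ v))
    (i j : A2) (φ : i.R →+* j.R) (t : j.R) (ht : t ^ (2 ^ M) = 0)
    (g : G j.R) (x : ℕ → G i.R)
    (hχ : ∀ k, χ.t j (g * G.map φ (x k)) = t + φ (χ.t i (x k)))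
    (n : ℕ)
    (hinv : ∀ l, w.1 (shpb_Q M j) (n + 1)
      (fun k => shpb_x M j g * G.map (shpb_Phi M i j φ t ht) (shpb_mix χ M s l i x k)) =
        w.1 (shpb_Q M j) (n + 1)
      (fun k => G.map (shpb_Phi M i j φ t ht) (shpb_mix χ M s l i x k))) :
    shpb_val χ M s w j n (fun k => g * G.map φ (x k)) =
      (shpb_val χ M s w i n x).map (shpb_Phi M i j φ t ht) := by
  rw [shpb_val_apply, shpb_val_apply, Polynomial.map_sum]
  refine Finset.sum_congr rfl fun l _ => ?_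
  have h1 : shpb_mix χ M s l j (fun k => g * G.map φ (x k)) =
      fun k => shpb_x M j g * G.map (shpb_Phi M i j φ t ht) (shpb_mix χ M s l i x k) := by
    funext k
    unfold shpb_mix TC.mix
    split_ifs
    · exact shpb_y_mul χ M s hs i j φ t ht g (x k) (hχ k)
    · exact shpb_x_mul M i j φ t ht g (x (k - 1))
  rw [h1, hinv l]
  exact w.2.1 (shpb_Q M i) (shpb_Q M j) (shpb_Phi M i j φ t ht) (n + 1) (shpb_mix χ M s l i x)

theorem shpb_val_nat
    (hs : ∀ (i j : A2) (φ : i.R →+* j.R) (v : i.R), G.map φ (s i v) = s j (φ v))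
    (i j : A2) (φ : i.R →+* j.R) (x : ℕ → G i.R) (n : ℕ) :
    shpb_val χ M s w j n (fun k => G.map φ (x k)) =
      (shpb_val χ M s w i n x).map (shpb_Phi M i j φ 0 (zero_pow (by positivity))) := by
  have := shpb_val_mul χ M s w hs i j φ 0 (zero_pow (by positivity)) 1 x
    (fun k => by rw [one_mul, zero_add, χ.nat]) n (fun l => by
      rw [shpb_x, map_one]
      simp only [one_mul])
  simpa only [one_mul] using this

/-- the cochain -/
def shpb_F (hs : ∀ (i j : A2) (φ : i.R →+* j.R) (v : i.R), G.map φ (s i v) = s j (φ v)) : Fm :=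
  ⟨fun i n x => shpb_rep M i ((shpb_val χ M s w i n x).coeff 0), by
    refine ⟨fun i j φ n x => ?_, fun i n x x' h => ?_, ?_⟩
    · dsimp only
      rw [shpb_val_nat χ M s w hs, coeff_map, shpb_rep_Phi, map_zero, add_zero, comp_X]
    · dsimp only
      congr 2
      exact (w.2.2.1 (shpb_Q M i)).prism n _ _ (fun k hk => by rw [h k hk])
    · obtain ⟨N, hN⟩ := w.2.2.2
      refine ⟨N, fun n hn i x => ?_⟩
      dsimp only
      rw [shpb_val_apply, Finset.sum_eq_zero, coeff_zero, map_zero]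
      intro l _
      exact hN (n + 1) (by omega) _ _⟩

theorem shpb_F_apply
    (hs : ∀ (i j : A2) (φ : i.R →+* j.R) (v : i.R), G.map φ (s i v) = s j (φ v))
    (i : A2) (n : ℕ) (x : ℕ → G i.R) :
    (shpb_F χ M s w hs).1 i n x = shpb_rep M i ((shpb_val χ M s w i n x).coeff 0) := rfl

theorem shpb_dF
    (hs : ∀ (i j : A2) (φ : i.R →+* j.R) (v : i.R), G.map φ (s i v) = s j (φ v))
    (i : A2) (n : ℕ) (x : ℕ → G i.R) :
    (shpb_F χ M s w hs).d.1 i n x = shpb_rep M i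
      ((TC.d (TC.prism (w.1 (shpb_Q M i))) n
        (fun k => (shpb_x M i (x k), shpb_y χ M s i (x k)))).coeff 0) := by
  rw [Fm.d_val]
  cases n with
  | zero => rw [TC.d_zero_apply, TC.d_zero_apply, coeff_zero, map_zero]
  | succ n =>
    rw [TC.d_succ_apply, TC.d_succ_apply, finsetSum_coeff, map_sum]
    rfl

end

/-- `χ` a character of `K` with `χ ^ (2 ^ M) = 0` on `K`, `s` a natural section on
`{v ^ (2 ^ M) = 0}`.  If the cocycle `w` vanishes on the kernel of `χ`, then `w` is a coboundary in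
equivariant `R[X]`-valued cochains of degree `< 2 ^ M`.
Proof. For `x` a sequence in `G R` work in `R_M = R[X] / (X ^ (2 ^ M))`, put
`v_k = X + χ (x k)`, `y_k = x_k * (s v_k)⁻¹` (so `χ (y_k) = X` does not depend on `k`, hence `w y = 0`),
`T n x = ∑_{i ≤ n} coeff 0 (w (n + 1) (y_0, ..., y_i, x_i, ..., x_n))` in `R_M` (this is `prism`), and
let `F n x` be the representative of degree `< 2 ^ M` of `T n x`. -/
theorem shapiroB (K : SG) (χ : Chr K) (M : ℕ) (s : ∀ i : A2, i.R → G i.R)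
    (hχ : ∀ (i : A2) (g : G i.R), g ∈ K.S i → χ.t i g ^ (2 ^ M) = 0)
    (hs : ∀ (i j : A2) (φ : i.R →+* j.R) (v : i.R), G.map φ (s i v) = s j (φ v))
    (hsK : ∀ (i : A2) (v : i.R), v ^ (2 ^ M) = 0 → s i v ∈ K.S i)
    (hst : ∀ (i : A2) (v : i.R), v ^ (2 ^ M) = 0 → χ.t i (s i v) = v)
    (w : Fm) (hwZ : w ∈ Z K)
    (hw : ∀ (i : A2) (n : ℕ) (x : ℕ → G i.R), K.Sq x → (∀ k, χ.t i (x k) = 0) → w.1 i n x = 0) :
    ∃ F : Fm, InM K χ (2 ^ M) F ∧ EqK K F.d w := by
  have hxK : ∀ (i : A2) (g : G i.R), g ∈ K.S i → shpb_x M i g ∈ K.S (shpb_Q M i) :=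
    fun i g hg => K.nat i (shpb_Q M i) (shpb_of M i) g hg
  have hroot : ∀ i : A2, shpb_root M i ^ (2 ^ M) = 0 := by
    intro i
    have h2 : shpb_root M i = shpb_mk M i X := AdjoinRoot.mk_X.symm
    rw [h2, ← map_pow]
    exact AdjoinRoot.mk_self
  have hvp : ∀ (i : A2) (g : G i.R), g ∈ K.S i → shpb_v χ M i g ^ (2 ^ M) = 0 := by
    intro i g hg
    rw [shpb_v, add_pow2, hroot, ← map_pow, hχ i g hg, map_zero, add_zero]
  have hyK : ∀ (i : A2) (g : G i.R), g ∈ K.S i → shpb_y χ M s i g ∈ K.S (shpb_Q M i) := by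
    intro i g hg
    exact (K.S _).mul_mem (hxK i g hg) ((K.S _).inv_mem (hsK _ _ (hvp i g hg)))
  have hmK : ∀ (i : A2) (x : ℕ → G i.R), K.Sq x → ∀ l, K.Sq (shpb_mix χ M s l i x) := by
    intro i x hx l k
    unfold shpb_mix TC.mix
    split_ifs
    · exact hyK i _ (hx _)
    · exact hxK i _ (hx _)
  have hχy : ∀ (i : A2) (g : G i.R), g ∈ K.S i →
      χ.t (shpb_Q M i) (shpb_y χ M s i g) = shpb_root M i := by
    intro i g hg
    have h1 : shpb_x M i g = shpb_y χ M s i g * s (shpb_Q M i) (shpb_v χ M i g) := by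
      rw [shpb_y, inv_mul_cancel_right]
    have h2 := χ.add (shpb_Q M i) _ _ (hyK i g hg) (hsK _ _ (hvp i g hg))
    rw [← h1, hst _ _ (hvp i g hg), shpb_x, χ.nat i (shpb_Q M i), shpb_v] at h2
    have h3 := add_self0 (shpb_of M i (χ.t i g))
    have h4 := add_self0 (shpb_root M i)
    linear_combination (-1 : (shpb_Q M i).R) * h2 - h4
  have hy0 : ∀ (i : A2) (n : ℕ) (x : ℕ → G i.R), K.Sq x →
      w.1 (shpb_Q M i) n (fun k => shpb_y χ M s i (x k)) = 0 := by
    intro i n x hx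
    have h1 : (fun k => shpb_y χ M s i (x k)) = fun k => shpb_y χ M s i (x 0) *
        ((shpb_y χ M s i (x 0))⁻¹ * shpb_y χ M s i (x k)) := by
      funext k
      rw [mul_inv_cancel_left]
    have hin : ∀ k, (shpb_y χ M s i (x 0))⁻¹ * shpb_y χ M s i (x k) ∈ K.S (shpb_Q M i) :=
      fun k => (K.S _).mul_mem ((K.S _).inv_mem (hyK i _ (hx 0))) (hyK i _ (hx k))
    rw [h1, hwZ.1.1 (shpb_Q M i) n _ _ (hyK i _ (hx 0)) hin]
    refine hw _ _ _ hin fun k => ?_
    have h2 := χ.add (shpb_Q M i) _ _ (hyK i _ (hx 0)) (hin k)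
    rw [mul_inv_cancel_left, hχy i _ (hx 0), hχy i _ (hx k)] at h2
    linear_combination -h2
  refine ⟨shpb_F χ M s w hs, ⟨?_, ?_⟩, ?_⟩
  · intro i n x g hg hx
    rw [shpb_F_apply, shpb_F_apply]
    have h1 := shpb_val_mul χ M s w hs i i (RingHom.id i.R) (χ.t i g) (hχ i g hg) g x
      (fun k => by rw [G.map_id', χ.add i _ _ hg (hx k)]; rfl) n (fun l => by
        refine hwZ.1.1 (shpb_Q M i) (n + 1) _ _ (hxK i g hg) fun k => ?_
        exact K.nat _ _ _ _ (hmK i x hx l k))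
    have h2 : (fun k => g * x k) = fun k => g * G.map (RingHom.id i.R) (x k) := rfl
    rw [h2, h1, coeff_map, shpb_rep_Phi, Polynomial.map_id]
  · intro i n x hx
    rw [shpb_F_apply]
    exact shpb_rep_mem M i _
  · intro i n x hx
    rw [shpb_dF]
    set z : ℕ → G (shpb_Q M i).R × G (shpb_Q M i).R :=
      fun k => (shpb_x M i (x k), shpb_y χ M s i (x k)) with hz
    have h1 := congrFun (congrFun (TC.d_prism (w.2.2.1 (shpb_Q M i))) n) z
    rw [TC.add_apply, TC.add_apply] at h1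
    have h2 : TC.prism (TC.d (w.1 (shpb_Q M i))) n z = 0 := by
      rw [TC.prism_apply]
      refine Finset.sum_eq_zero fun l _ => ?_
      exact hwZ.2 (shpb_Q M i) (n + 1) (shpb_mix χ M s l i x) (hmK i x hx l)
    have h3 : TC.pull Prod.snd (w.1 (shpb_Q M i)) n z = 0 := hy0 i n x hx
    have h4 : TC.pull Prod.fst (w.1 (shpb_Q M i)) n z = (w.1 i n x).map (shpb_of M i) :=
      w.2.1 i (shpb_Q M i) (shpb_of M i) n x
    rw [h2, h3, h4, add_zero, add_zero] at h1
    rw [h1, coeff_map, shpb_rep_of]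
    exact (hwZ.1.2 i n x hx).symm

end

end Pool.Agent.H8.NP
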