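import Pool.Agent.H8.NP.Nlm
import Pool.Agent.H8.NP.Row
import Pool.Agent.H8.NP.ShpA
import Pool.Agent.H8.NP.ShpB

/-! Module DES of project MP_9cbe1e_gt: the descent over the subgroups `KM m a`. -/

namespace Pool.Agent.H8.NP

open Finset Polynomial

noncomputable section

/-- the character `ξ_k ^ (2 ^ r)` on `KM m a`, for `1 ≤ k < a + m` -/
def chi (m a k r : ℕ) (hm : 1 ≤ m) (hk1 : 1 ≤ k) (hk : k < a + m) : Chr (KM m a) where
  t i g := g.c k ^ (2 ^ r)
  nat i j φ g := by rw [G.map_c, map_pow]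
  add i g h hg hh := by rw [G.KS_mul_c hm hg hh k hk1 hk, add_pow2]

/-- values of the one-cocycle of a character -/
theorem des_h {K : SG} (χ : Chr K) (j : ℕ) (i : A2) (n : ℕ) (x : ℕ → G i.R) :
    (χ.h j).1 i n x =
      if n = 1 then C (χ.t i (x 1) ^ 2 ^ j) + C (χ.t i (x 0) ^ 2 ^ j) else 0 := by
  rw [Chr.h, Fm.d_val]
  cases n with
  | zero => simp [TC.d_zero_apply]
  | succ n =>
    rw [TC.d_succ_apply]
    cases n with
    | zero => simp [Finset.sum_range_succ, Chr.pot, TC.deg0, skip]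
    | succ n => simp [Chr.pot, TC.deg0]

/-- the cochain `[ξ_N ^ (2 ^ k)]` -/
def des_b (N k : ℕ) : Fm :=
  ⟨fun _ n x => if n = 1 then C (((x 0)⁻¹ * x 1).c N ^ (2 ^ k)) else 0, by
    refine ⟨?_, ?_, ⟨2, ?_⟩⟩
    · intro i j φ n x
      have e : (G.map φ (x 0))⁻¹ * G.map φ (x 1) = G.map φ ((x 0)⁻¹ * x 1) := by
        rw [map_mul, map_inv]
      dsimp only
      split
      · rw [e, G.map_c, Polynomial.map_C, map_pow φ]
      · rw [Polynomial.map_zero]
    · intro i n x y h
      dsimp only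
      by_cases hn : n = 1
      · subst hn
        rw [if_pos rfl, if_pos rfl, h 0 (by omega), h 1 (by omega)]
      · rw [if_neg hn, if_neg hn]
    · intro n hn i x
      dsimp only
      rw [if_neg (by omega)]⟩

theorem des_b_val (N k : ℕ) (i : A2) (n : ℕ) (x : ℕ → G i.R) :
    (des_b N k).1 i n x = if n = 1 then C (((x 0)⁻¹ * x 1).c N ^ (2 ^ k)) else 0 := rfl

theorem des_b_inC (N k : ℕ) (K : SG) : des_b N k ∈ InC K := by
  constructor
  · intro i n x g hg hx
    rw [des_b_val, des_b_val]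
    congr 1
    have h : (g * x 0)⁻¹ * (g * x 1) = (x 0)⁻¹ * x 1 := by group
    rw [h]
  · intro i n x hx
    rw [des_b_val]
    split
    · rw [coeff_C_zero]
    · simp

/-- `h_{a, m + k} h_{m, k} = 0` on `KM m a`: it is the coboundary of `[ξ_{a + m} ^ (2 ^ k)]` -/
theorem rel0 (m a : ℕ) (hm : 1 ≤ m) (ha : m ≤ a) (k : ℕ) :
    cls (KM m a) ((chi m a a m hm (by omega) (by omega)).hz k) *
      cls (KM m a) ((chi m a m 0 hm hm (by omega)).hz k) = 0 := by
  rw [← map_mul, cls_eq_zero]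
  refine ⟨des_b (a + m) k, des_b_inC _ _ _, ?_⟩
  intro i n x hx
  change ((chi m a a m hm (by omega) (by omega)).h k * (chi m a m 0 hm hm (by omega)).h k).1 i n x = _
  rw [Fm.mul_val, TC.mul_apply, Fm.d_val]
  by_cases hn : n = 2
  · subst hn
    rw [Finset.sum_eq_single (1, 1)]
    · rw [TC.d_succ_apply]
      simp only [des_h, if_true, des_b_val, Finset.sum_range_succ, Finset.sum_range_zero, zero_add,
        skip]
      norm_num
      have hu : (x 0)⁻¹ * x 1 ∈ G.KS m a i.R := mul_mem (inv_mem (hx 0)) (hx 1)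
      have hv : (x 1)⁻¹ * x 2 ∈ G.KS m a i.R := mul_mem (inv_mem (hx 1)) (hx 2)
      have e1 : (x 0)⁻¹ * x 2 = ((x 0)⁻¹ * x 1) * ((x 1)⁻¹ * x 2) := by group
      have e2 : (x 1).c a = (x 0).c a + ((x 0)⁻¹ * x 1).c a := by
        rw [← G.KS_mul_c hm (hx 0) hu a (by omega) (by omega)]
        congr 1; group
      have e3 : (x 2).c m = (x 1).c m + ((x 1)⁻¹ * x 2).c m := by
        rw [← G.KS_mul_c hm (hx 1) hv m (by omega) (by omega)]
        congr 1; group
      rw [e1, G.KS_mul_c' hm ha hu hv]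
      simp only [chi, pow_zero, pow_one]
      rw [e2, e3]
      simp only [add_pow2, mul_pow, map_add, map_mul, map_pow]
      have t := two0 (Polynomial i.R)
      linear_combination (2 * (C ((x 0).c a) ^ 2 ^ m) ^ 2 ^ k * C ((x 1).c m) ^ 2 ^ k +
        (C ((x 0).c a) ^ 2 ^ m) ^ 2 ^ k * C (((x 1)⁻¹ * x 2).c m) ^ 2 ^ k +
        C ((x 1).c m) ^ 2 ^ k * (C (((x 0)⁻¹ * x 1).c a) ^ 2 ^ m) ^ 2 ^ k -
        C (((x 0)⁻¹ * x 1).c (a + m)) ^ 2 ^ k - C (((x 1)⁻¹ * x 2).c (a + m)) ^ 2 ^ k) * t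
    · rintro ⟨p, q⟩ h hne
      simp only [HasAntidiagonal.mem_antidiagonal] at h
      dsimp only
      rw [des_h, des_h]
      by_cases hp : p = 1
      · rw [if_neg (show ¬ q = 1 by rintro rfl; exact hne (by rw [hp])), mul_zero]
      · rw [if_neg hp, zero_mul]
    · intro h; simp at h
  · have h1 : ∑ p ∈ antidiagonal n, ((chi m a a m hm (by omega) (by omega)).h k).1 i p.1 x *
        ((chi m a m 0 hm hm (by omega)).h k).1 i p.2 (fun l => x (l + p.1)) = 0 := by
      apply Finset.sum_eq_zero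
      rintro ⟨p, q⟩ h
      simp only [HasAntidiagonal.mem_antidiagonal] at h
      dsimp only
      rw [des_h, des_h]
      by_cases hp : p = 1
      · rw [if_neg (show ¬ q = 1 by omega), mul_zero]
      · rw [if_neg hp, zero_mul]
    rw [h1]
    cases n with
    | zero => rfl
    | succ n =>
      rw [TC.d_succ_apply]
      symm
      apply Finset.sum_eq_zero
      intro j _
      rw [des_b_val, if_neg (by omega)]

theorem des_le (m a : ℕ) (i : A2) : (KM m a).S i ≤ (KM 0 0).S i := by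
  intro g _ k hk
  exact ⟨fun h => by omega, fun h => by omega⟩

theorem des_ker (m a : ℕ) (ha : 1 ≤ a) (i : A2) (g : G i.R) :
    g ∈ (KM m (a + 1)).S i ↔ g ∈ (KM m a).S i ∧ g.c a ^ 2 ^ m = 0 := by
  constructor
  · intro h
    refine ⟨fun k hk => ⟨(h k hk).1, fun hka => (h k hk).2 (by omega)⟩, (h a ha).2 (by omega)⟩
  · rintro ⟨h, h'⟩ k hk
    refine ⟨(h k hk).1, fun hka => ?_⟩
    by_cases hk' : k < a
    · exact (h k hk).2 hk'
    · have : k = a := by omega
      rw [this]; exact h'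

theorem des_map_sec (b : ℕ) (hb : 1 ≤ b) {i j : A2} (φ : i.R →+* j.R) (v : i.R) :
    G.map φ (G.sec b hb v) = G.sec b hb (φ v) := by
  ext k
  rw [G.map_c, G.sec_c, G.sec_c]
  split_ifs <;> simp

theorem des_sec_mem (m a b : ℕ) (hb : 1 ≤ b) (hmb : m ≤ b) {i : A2} (v : i.R)
    (hv : b < a → v ^ 2 ^ m = 0) : G.sec b hb v ∈ (KM m a).S i := by
  intro k hk
  refine ⟨fun h => ?_, fun h => ?_⟩
  · rw [G.sec_c_ne b hb v k (by omega) (by omega)]
  · by_cases hkb : k = b
    · rw [hkb, G.sec_c_self, hv (by omega)]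
    · rw [G.sec_c_ne b hb v k (by omega) hkb, zero_pow (by positivity)]

/-- step for `m = a` -/
theorem step_eq (m : ℕ) (hm : 1 ≤ m) (y : Fm) (hy : y ∈ Z (KM 0 0))
    (h : Nilp (KM m (m + 1)) y) : Nilp (KM m m) y := by
  have hyZ : y ∈ Z (KM m m) := Z.mono (des_le m m) hy
  have key := row (KM m m) (KM m (m + 1)) (chi m m m m hm hm (by omega)) ?_ ?_ ⟨y, hyZ⟩ h ?_
  · exact (nilp_iff (⟨y, hyZ⟩ : Z (KM m m))).2 key
  · intro i g
    exact des_ker m m hm i g
  · intro w hw hv
    exact shapiroA (KM m m) (chi m m m m hm hm (by omega)) (2 ^ m) (Nat.one_le_two_pow)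
      (fun i v => G.sec m hm v) (fun i j φ v => des_map_sec m hm φ v)
      (fun i v => des_sec_mem m m m hm le_rfl v (by omega))
      (fun i v => by change (G.sec m hm v).c m ^ 2 ^ m = v ^ 2 ^ m; rw [G.sec_c_self]) w hw hv
  · intro j
    have h1 : IsNilpotent (cls (KM m m) ((chi m m m m hm hm (by omega)).hz j)) := by
      have h2 := nlm (chi m m m m hm hm (by omega)) (chi m m m 0 hm hm (by omega))
        (rel0 m m hm le_rfl) j (m + j)
      have h3 : (chi m m m 0 hm hm (by omega)).hz (m + j) = (chi m m m m hm hm (by omega)).hz j := by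
        apply Subtype.ext
        apply Subtype.ext
        funext i n x
        change ((chi m m m 0 hm hm (by omega)).h (m + j)).1 i n x =
          ((chi m m m m hm hm (by omega)).h j).1 i n x
        rw [des_h, des_h]
        simp only [chi, pow_zero, pow_one, ← pow_mul, ← pow_add]
      rw [h3, ← pow_two] at h2
      exact IsNilpotent.of_pow h2
    exact (Commute.all _ _).isNilpotent_mul_right h1

/-- the kernel of `ξ_m` on `KM m a` -/
def desK (m a : ℕ) : SG where
  S i := (KM m a).S i ⊓ (KM (m + 1) a).S i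
  nat i j φ g hg := ⟨(KM m a).nat i j φ g hg.1, (KM (m + 1) a).nat i j φ g hg.2⟩

/-- first half of the step for `m < a` -/
theorem des_first (m a : ℕ) (hm : 1 ≤ m) (ha : m < a) (y : Fm) (hyZ : y ∈ Z (KM m a))
    (A B : Chr (KM m a)) (hBt : ∀ (i : A2) (g : G i.R), B.t i g = g.c m)
    (hAB : ∀ k j, IsNilpotent (cls (KM m a) (A.hz k) * cls (KM m a) (B.hz j)))
    (h2 : Nilp (KM (m + 1) a) y) (k : ℕ) :
    IsNilpotent (cls (KM m a) (A.hz k * ⟨y, hyZ⟩)) := by
  have a1 : ∀ (i : A2) (g : G i.R), g ∈ (desK m a).S i ↔ g ∈ (KM m a).S i ∧ B.t i g = 0 := by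
    intro i g
    rw [hBt]
    change g ∈ (KM m a).S i ⊓ (KM (m + 1) a).S i ↔ g ∈ (KM m a).S i ∧ g.c m = 0
    rw [Subgroup.mem_inf]
    refine and_congr_right fun hg => ⟨fun h => (h m hm).1 (by omega),
      fun h k hk => ⟨fun hkm => ?_, fun hka => ?_⟩⟩
    · by_cases hk' : k < m
      · exact (hg k hk).1 hk'
      · have : k = m := by omega
        rw [this]; exact h
    · rw [pow_succ, pow_mul, (hg k hk).2 hka, zero_pow (by norm_num)]
  have a2 : ∀ w : Fm, w ∈ Z (KM m a) →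
      (∀ (i : A2) (n : ℕ) (x : ℕ → G i.R), (KM m a).Sq x → (∀ k, B.t i (x k) = 0) →
        w.1 i n x = 0) →
      ∃ (F : Fm) (D : ℕ), InM (KM m a) B D F ∧ EqK (KM m a) F.d w := by
    intro w hw hv
    obtain ⟨F, hF1, hF2⟩ := shapiroB (KM m a) B m (fun i v => G.sec m hm v)
      (fun i g hg => by rw [hBt]; exact (hg m hm).2 ha)
      (fun i j φ v => des_map_sec m hm φ v)
      (fun i v hv => des_sec_mem m a m hm le_rfl v (fun _ => hv))
      (fun i v hv => by rw [hBt, G.sec_c_self])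
      w hw hv
    exact ⟨F, 2 ^ m, hF1, hF2⟩
  have a3 : Nilp (desK m a) (A.hz k * ⟨y, hyZ⟩ : Z (KM m a)).1 := by
    have hle1 : ∀ i, (desK m a).S i ≤ (KM m a).S i := fun i g hg => hg.1
    have hle2 : ∀ i, (desK m a).S i ≤ (KM (m + 1) a).S i := fun i g hg => hg.2
    have hyK : y ∈ Z (desK m a) := Z.mono hle1 hyZ
    have hAK : A.h k ∈ Z (desK m a) := Z.mono hle1 (A.h_mem k)
    have h3 : IsNilpotent (cls (desK m a) ⟨y, hyK⟩) := by
      rw [← nilp_iff]
      obtain ⟨N, hN⟩ := h2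
      exact ⟨N, hN.mono hle2⟩
    have h4 : IsNilpotent (cls (desK m a) (⟨A.h k, hAK⟩ * ⟨y, hyK⟩)) := by
      rw [map_mul]
      exact (Commute.all _ _).isNilpotent_mul_left h3
    rw [← nilp_iff] at h4
    exact h4
  have a4 : ∀ j, IsNilpotent (cls (KM m a) (B.hz j) * cls (KM m a) (A.hz k * ⟨y, hyZ⟩)) := by
    intro j
    rw [map_mul]
    have e : cls (KM m a) (B.hz j) * (cls (KM m a) (A.hz k) * cls (KM m a) ⟨y, hyZ⟩) =
        (cls (KM m a) (A.hz k) * cls (KM m a) (B.hz j)) * cls (KM m a) ⟨y, hyZ⟩ := by ring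
    rw [e]
    exact (Commute.all _ _).isNilpotent_mul_right (hAB k j)
  exact row (KM m a) (desK m a) B a1 a2 _ a3 a4

/-- second half of the step for `m < a` -/
theorem des_second (m a : ℕ) (hm : 1 ≤ m) (ha : m < a) (y : Fm) (hyZ : y ∈ Z (KM m a))
    (A : Chr (KM m a)) (hAt : ∀ (i : A2) (g : G i.R), A.t i g = g.c a ^ 2 ^ m)
    (h1 : Nilp (KM m (a + 1)) y)
    (hA : ∀ k, IsNilpotent (cls (KM m a) (A.hz k) * cls (KM m a) ⟨y, hyZ⟩)) :
    IsNilpotent (cls (KM m a) ⟨y, hyZ⟩) := by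
  have a1 : ∀ (i : A2) (g : G i.R), g ∈ (KM m (a + 1)).S i ↔ g ∈ (KM m a).S i ∧ A.t i g = 0 := by
    intro i g
    rw [hAt]
    exact des_ker m a (by omega) i g
  have a2 : ∀ w : Fm, w ∈ Z (KM m a) →
      (∀ (i : A2) (n : ℕ) (x : ℕ → G i.R), (KM m a).Sq x → (∀ k, A.t i (x k) = 0) →
        w.1 i n x = 0) →
      ∃ (F : Fm) (D : ℕ), InM (KM m a) A D F ∧ EqK (KM m a) F.d w := by
    intro w hw hv
    exact shapiroA (KM m a) A (2 ^ m) (Nat.one_le_two_pow)
      (fun i v => G.sec a (by omega) v) (fun i j φ v => des_map_sec a (by omega) φ v)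
      (fun i v => des_sec_mem m a a (by omega) ha.le v (by omega))
      (fun i v => by rw [hAt, G.sec_c_self]) w hw hv
  exact row (KM m a) (KM m (a + 1)) A a1 a2 ⟨y, hyZ⟩ h1 hA

/-- step for `m < a` -/
theorem step_lt (m a : ℕ) (hm : 1 ≤ m) (ha : m < a) (y : Fm) (hy : y ∈ Z (KM 0 0))
    (h1 : Nilp (KM m (a + 1)) y) (h2 : Nilp (KM (m + 1) a) y) : Nilp (KM m a) y := by
  have hyZ : y ∈ Z (KM m a) := Z.mono (des_le m a) hy
  have hAB := nlm (chi m a a m hm (by omega) (by omega)) (chi m a m 0 hm hm (by omega))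
    (rel0 m a hm ha.le)
  have hA := des_first m a hm ha y hyZ (chi m a a m hm (by omega) (by omega))
    (chi m a m 0 hm hm (by omega))
    (fun i g => by change g.c m ^ 2 ^ 0 = g.c m; rw [pow_zero, pow_one]) hAB h2
  have key := des_second m a hm ha y hyZ (chi m a a m hm (by omega) (by omega))
    (fun i g => rfl) h1 (fun k => by rw [← map_mul]; exact hA k)
  exact (nilp_iff (⟨y, hyZ⟩ : Z (KM m a))).2 key

theorem descent (y : Fm) (hy : y ∈ Z (KM 0 0)) (N : ℕ)
    (h : ∀ m, 1 ≤ m → m ≤ N + 1 → Nilp (KM m (N + 1)) y) : Nilp (KM 1 1) y := by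
  have key : ∀ d a : ℕ, a + d = N + 1 → ∀ m, 1 ≤ m → m ≤ a → Nilp (KM m a) y := by
    intro d
    induction d with
    | zero =>
      intro a ha m hm hma
      have : a = N + 1 := by omega
      subst this
      exact h m hm hma
    | succ d ih =>
      intro a ha
      have h1 := ih (a + 1) (by omega)
      have h2 : ∀ e m : ℕ, m + e = a → 1 ≤ m → Nilp (KM m a) y := by
        intro e
        induction e with
        | zero =>
          intro m hme hm
          have : m = a := by omega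
          subst this
          exact step_eq m hm y hy (h1 m hm (by omega))
        | succ e ih2 =>
          intro m hme hm
          exact step_lt m a hm (by omega) y hy (h1 m hm (by omega)) (ih2 (m + 1) (by omega) (by omega))
      intro m hm hma
      exact h2 (a - m) m (by omega) hm
  exact key N 1 (by omega) 1 le_rfl le_rfl

end

end Pool.Agent.H8.NP
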