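import Pool.Agent.H8.NP.TC

/-! Module GENB of project MP_9cbe1e_gt: the coboundary formula for the cup-one product
(characteristic two). -/

namespace Pool.Agent.H8.NP.TC

open Finset

variable {V A : Type*} [CommRing A]

theorem Dep.cup1 {a b : TC V A} (ha : Dep a) (hb : Dep b) : Dep (TC.cup1 a b) := by
  intro n x y hxy
  rw [cup1_apply, cup1_apply]
  refine Finset.sum_congr rfl ?_
  rintro ⟨p, q⟩ hpq
  rw [HasAntidiagonal.mem_antidiagonal] at hpq
  refine Finset.sum_congr rfl ?_
  intro i hi
  rw [Finset.mem_range] at hi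
  simp only at hpq hi ⊢
  congr 1
  · refine ha p _ _ ?_
    intro k hk
    refine hxy _ ?_
    unfold jump
    split_ifs <;> omega
  · refine hb q _ _ ?_
    intro k hk
    refine hxy _ ?_
    omega

theorem genb_hom (h2 : ∀ u : A, u + u = 0) (f g : (ℕ → V) → A) (p q : ℕ)
    (hf : ∀ x y : ℕ → V, (∀ i, i ≤ p → x i = y i) → f x = f y)
    (hg : ∀ x y : ℕ → V, (∀ i, i ≤ q → x i = y i) → g x = g y) (x : ℕ → V) :
    ∑ j ∈ range (p + q + 1), ∑ i ∈ range p,
        f (fun k => x (skip j (jump i q k))) * g (fun k => x (skip j (k + i))) =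
      ∑ i ∈ range (p + 1), ∑ j ∈ range (p + 2),
        f (fun k => x (jump i q (skip j k))) * g (fun k => x (k + i)) +
      ∑ i ∈ range p, ∑ j ∈ range (q + 2),
        f (fun k => x (jump i (q + 1) k)) * g (fun k => x (skip j k + i)) +
      f x * g (fun k => x (k + p)) + g x * f (fun k => x (k + q)) := by
  set L : ℕ → ℕ → A := fun i j =>
    f (fun k => x (skip j (jump i q k))) * g (fun k => x (skip j (k + i))) with hL
  set P : ℕ → ℕ → A := fun i j =>
    f (fun k => x (jump i q (skip j k))) * g (fun k => x (k + i)) with hP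
  set B : ℕ → ℕ → A := fun i j =>
    f (fun k => x (jump i (q + 1) k)) * g (fun k => x (skip j k + i)) with hB
  -- the elementary identities
  have c1 : ∀ i j, j ≤ i → L i j = P (i + 1) j := by
    intro i j hij
    simp only [hL, hP]
    congr 1
    · congr 1; funext k; congr 1
      unfold skip jump
      split_ifs <;> omega
    · congr 1; funext k; congr 1
      unfold skip
      split_ifs <;> omega
  have c2 : ∀ i j, j < q → L i (i + 1 + j) = B i (1 + j) := by
    intro i j hij
    simp only [hL, hB]
    congr 1
    · congr 1; funext k; congr 1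
      unfold skip jump
      split_ifs <;> omega
    · congr 1; funext k; congr 1
      unfold skip
      split_ifs <;> omega
  have c3 : ∀ i j, L i (i + 1 + q + j) = P i (i + 2 + j) := by
    intro i j
    simp only [hL, hP]
    congr 1
    · congr 1; funext k; congr 1
      unfold skip jump
      split_ifs <;> omega
    · refine hg _ _ ?_
      intro k hk
      congr 1
      unfold skip
      split_ifs <;> omega
  have c4 : ∀ i, P i (i + 1) = B i (q + 1) := by
    intro i
    simp only [hP, hB]
    congr 1
    · congr 1; funext k; congr 1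
      unfold skip jump
      split_ifs <;> omega
    · refine hg _ _ ?_
      intro k hk
      congr 1
      unfold skip
      split_ifs <;> omega
  have c5 : ∀ i, P (i + 1) (i + 1) = B i 0 := by
    intro i
    simp only [hP, hB]
    congr 1
    · congr 1; funext k; congr 1
      unfold skip jump
      split_ifs <;> omega
    · congr 1; funext k; congr 1
      unfold skip
      split_ifs <;> omega
  have c6 : P 0 0 = g x * f (fun k => x (k + q)) := by
    simp only [hP]
    rw [mul_comm]
    congr 1
    · congr 1; funext k; congr 1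
      unfold skip jump
      split_ifs <;> omega
  have c7 : P p (p + 1) = f x * g (fun k => x (k + p)) := by
    simp only [hP]
    congr 1
    · refine hf _ _ ?_
      intro k hk
      congr 1
      unfold skip jump
      split_ifs <;> omega
  -- the sums
  have s1 : ∀ i ∈ range p, ∑ j ∈ range (p + q + 1), L i j =
      ∑ j ∈ range (i + 1), P (i + 1) j + ∑ j ∈ range q, B i (1 + j) +
        ∑ j ∈ range (p - i), P i (i + 2 + j) := by
    intro i hi
    rw [Finset.mem_range] at hi
    have e : p + q + 1 = (i + 1) + q + (p - i) := by omega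
    rw [e, Finset.sum_range_add, Finset.sum_range_add]
    congr 1
    · congr 1
      · exact Finset.sum_congr rfl fun j hj => c1 i j (by rw [Finset.mem_range] at hj; omega)
      · exact Finset.sum_congr rfl fun j hj => c2 i j (by rw [Finset.mem_range] at hj; omega)
    · exact Finset.sum_congr rfl fun j _ => c3 i j
  have s2 : ∀ i ∈ range (p + 1), ∑ j ∈ range (p + 2), P i j =
      ∑ j ∈ range i, P i j + P i i + P i (i + 1) + ∑ j ∈ range (p - i), P i (i + 2 + j) := by
    intro i hi
    rw [Finset.mem_range] at hi
    have e : p + 2 = (i + 2) + (p - i) := by omega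
    rw [e, Finset.sum_range_add, Finset.sum_range_succ, Finset.sum_range_succ]
  have s3 : ∀ i ∈ range p, ∑ j ∈ range (q + 2), B i j =
      B i 0 + ∑ j ∈ range q, B i (1 + j) + B i (q + 1) := by
    intro i _
    rw [Finset.sum_range_succ, Finset.sum_range_succ']
    have : ∀ j, B i (j + 1) = B i (1 + j) := fun j => by rw [add_comm]
    simp only [this]
    ring
  rw [Finset.sum_comm, Finset.sum_congr rfl s1, Finset.sum_congr rfl s2, Finset.sum_congr rfl s3]
  simp only [Finset.sum_add_distrib]
  have t1 : ∑ i ∈ range (p + 1), ∑ j ∈ range i, P i j =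
      ∑ i ∈ range p, ∑ j ∈ range (i + 1), P (i + 1) j := by
    rw [Finset.sum_range_succ']
    simp
  have t2 : ∑ i ∈ range (p + 1), ∑ j ∈ range (p - i), P i (i + 2 + j) =
      ∑ i ∈ range p, ∑ j ∈ range (p - i), P i (i + 2 + j) := by
    rw [Finset.sum_range_succ]
    simp
  have t3 : ∑ i ∈ range (p + 1), P i i = ∑ i ∈ range p, B i 0 + g x * f (fun k => x (k + q)) := by
    rw [Finset.sum_range_succ', c6]
    congr 1
    exact Finset.sum_congr rfl fun i _ => c5 i
  have t4 : ∑ i ∈ range (p + 1), P i (i + 1) =
      ∑ i ∈ range p, B i (q + 1) + f x * g (fun k => x (k + p)) := by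
    rw [Finset.sum_range_succ, c7]
    congr 1
    exact Finset.sum_congr rfl fun i _ => c4 i
  rw [t1, t2, t3, t4]
  have u1 := h2 (∑ i ∈ range p, B i 0)
  have u2 := h2 (∑ i ∈ range p, B i (q + 1))
  have u3 := h2 (g x * f (fun k => x (k + q)))
  have u4 := h2 (f x * g (fun k => x (k + p)))
  linear_combination -u1 - u2 - u3 - u4

/-- Steenrod's formula, unnormalised cochains, characteristic two -/
theorem d_cup1 [Algebra (ZMod 2) A] {a b : TC V A} (ha : Dep a) (hb : Dep b) :
    d (cup1 a b) = cup1 (d a) b + cup1 a (d b) + a * b + b * a := by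
  have h20 : (2 : A) = 0 := by
    have h := map_ofNat (algebraMap (ZMod 2) A) 2
    rw [← h]
    have : (OfNat.ofNat 2 : ZMod 2) = 0 := by decide
    rw [this, map_zero]
  have h2 : ∀ u : A, u + u = 0 := by
    intro u
    rw [← two_mul, h20, zero_mul]
  ext n x
  cases n with
  | zero =>
    simp only [d_zero_apply, add_apply, cup1_apply, mul_apply]
    rw [Finset.Nat.sum_antidiagonal_succ, Finset.Nat.sum_antidiagonal_succ]
    simp only [Finset.Nat.antidiagonal_zero, Finset.sum_singleton, Finset.range_zero, Finset.sum_empty,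
      zero_add, Finset.sum_range_one, d_zero_apply, mul_zero, add_zero]
    rw [d_succ_apply]
    simp only [zero_add, Finset.sum_range_succ, Finset.range_zero, Finset.sum_empty]
    have e : a 0 (fun k => x (jump 0 0 (skip 0 k))) = a 0 (fun k => x (jump 0 0 (skip 1 k))) := by
      refine ha 0 _ _ ?_
      intro i hi
      have : i = 0 := by omega
      subst this
      simp [skip, jump]
    rw [e, h2, zero_mul, zero_add, mul_comm, h2]
  | succ n =>
    rw [d_succ_apply]
    simp only [add_apply, cup1_apply, mul_apply]
    rw [Finset.sum_comm]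
    rw [Finset.Nat.sum_antidiagonal_succ (n := n + 1)
      (f := fun p : ℕ × ℕ => ∑ i ∈ range p.1,
        d a p.1 (fun k => x (jump i p.2 k)) * b p.2 (fun k => x (k + i)))]
    rw [Finset.Nat.sum_antidiagonal_succ' (n := n + 1)
      (f := fun p : ℕ × ℕ => ∑ i ∈ range p.1,
        a p.1 (fun k => x (jump i p.2 k)) * d b p.2 (fun k => x (k + i)))]
    simp only [Finset.range_zero, Finset.sum_empty, zero_add, d_zero_apply, mul_zero,
      Finset.sum_const_zero]
    rw [← Finset.Nat.sum_antidiagonal_swap
      (f := fun p : ℕ × ℕ => b p.1 x * a p.2 (fun k => x (k + p.1)))]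
    simp only [Prod.fst_swap, Prod.snd_swap]
    rw [← Finset.sum_add_distrib, ← Finset.sum_add_distrib, ← Finset.sum_add_distrib]
    refine Finset.sum_congr rfl ?_
    rintro ⟨p, q⟩ hpq
    rw [HasAntidiagonal.mem_antidiagonal] at hpq
    simp only at hpq ⊢
    have key := genb_hom h2 (a p) (b q) p q (ha p) (hb q) x
    rw [hpq] at key
    rw [key]
    simp only [d_succ_apply, Finset.sum_mul, Finset.mul_sum]

end Pool.Agent.H8.NP.TC
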