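import Pool.Agent.H8.NP.TC

/-! Module GENC of project MP_9cbe1e_gt: Hirsch formula, cup-one product with the coboundary of a
function, prism operator. -/

namespace Pool.Agent.H8.NP.TC

open Finset

variable {V A : Type*} [CommRing A]

theorem cup1_add_left (a b c : TC V A) : cup1 (a + b) c = cup1 a c + cup1 b c := by
  ext n x
  simp only [cup1_apply, add_apply, add_mul, Finset.sum_add_distrib]

theorem cup1_add_right (a b c : TC V A) : cup1 a (b + c) = cup1 a b + cup1 a c := by
  ext n x
  simp only [cup1_apply, add_apply, mul_add, Finset.sum_add_distrib]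

theorem genc_triple (N : ℕ) (f : ℕ → ℕ → ℕ → A) :
    ∑ p ∈ antidiagonal N, ∑ s ∈ antidiagonal p.1, f s.1 s.2 p.2 =
      ∑ m ∈ antidiagonal N, ∑ s ∈ antidiagonal m.1, f s.1 m.2 s.2 := by
  simp only [Finset.sum_sigma']
  apply Finset.sum_nbij' (fun ⟨⟨_p, q⟩, ⟨s, t⟩⟩ ↦ ⟨(s + q, t), (s, q)⟩)
    (fun ⟨⟨_m, t⟩, ⟨s, q⟩⟩ ↦ ⟨(s + t, q), (s, t)⟩)
  · rintro ⟨⟨i, j⟩, ⟨k, l⟩⟩; simp; omega
  · rintro ⟨⟨i, j⟩, ⟨k, l⟩⟩; simp; omega
  · rintro ⟨⟨i, j⟩, ⟨k, l⟩⟩; simp
  · rintro ⟨⟨i, j⟩, ⟨k, l⟩⟩; simp
  · rintro ⟨⟨i, j⟩, ⟨k, l⟩⟩ h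
    rfl

theorem genc_assoc (N : ℕ) (f : ℕ → ℕ → ℕ → A) :
    ∑ p ∈ antidiagonal N, ∑ s ∈ antidiagonal p.1, f s.1 s.2 p.2 =
      ∑ m ∈ antidiagonal N, ∑ s ∈ antidiagonal m.2, f m.1 s.1 s.2 := by
  simp only [Finset.sum_sigma']
  apply Finset.sum_nbij' (fun ⟨⟨_p, q⟩, ⟨s, t⟩⟩ ↦ ⟨(s, t + q), (t, q)⟩)
    (fun ⟨⟨s, _m⟩, ⟨t, q⟩⟩ ↦ ⟨(s + t, q), (s, t)⟩)
  · rintro ⟨⟨i, j⟩, ⟨k, l⟩⟩; simp; omega
  · rintro ⟨⟨i, j⟩, ⟨k, l⟩⟩; simp; omega
  · rintro ⟨⟨i, j⟩, ⟨k, l⟩⟩; simp
  · rintro ⟨⟨i, j⟩, ⟨k, l⟩⟩; simp
  · rintro ⟨⟨i, j⟩, ⟨k, l⟩⟩ h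
    rfl

/-- Hirsch formula (strict for this variance) -/
theorem cup1_mul {a : TC V A} (ha : Dep a) (b c : TC V A) :
    cup1 (a * b) c = a * cup1 b c + cup1 a c * b := by
  ext n x
  rw [add_apply]
  -- the two families of terms
  set F : ℕ → ℕ → ℕ → ℕ → A := fun s t q i =>
    a s (fun k => x (jump i q k)) * b t (fun k => x (k + (s + q - 1))) * c q (fun k => x (k + i))
    with hF
  set G : ℕ → ℕ → ℕ → ℕ → A := fun s t q i =>
    a s x * (b t (fun k => x (jump i q k + s)) * c q (fun k => x (k + i + s))) with hG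
  have hL : cup1 (a * b) c n x =
      ∑ p ∈ antidiagonal (n + 1), ∑ s ∈ antidiagonal p.1,
        ((∑ i ∈ range s.1, F s.1 s.2 p.2 i) + ∑ i ∈ range s.2, G s.1 s.2 p.2 i) := by
    rw [cup1_apply]
    refine Finset.sum_congr rfl ?_
    rintro ⟨p, q⟩ _
    simp only [mul_apply, Finset.sum_mul]
    rw [Finset.sum_comm]
    refine Finset.sum_congr rfl ?_
    rintro ⟨s, t⟩ hst
    rw [HasAntidiagonal.mem_antidiagonal] at hst
    simp only at hst ⊢
    rw [← hst, Finset.sum_range_add]
    congr 1
    · refine Finset.sum_congr rfl ?_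
      intro i hi
      rw [mem_range] at hi
      simp only [hF]
      congr 2
      congr 1
      funext k
      congr 1
      unfold jump
      split_ifs <;> omega
    · refine Finset.sum_congr rfl ?_
      intro i hi
      rw [mem_range] at hi
      simp only [hG]
      rw [mul_assoc]
      congr 1
      · apply ha
        intro k hk
        congr 1
        unfold jump
        split_ifs <;> omega
      · congr 1
        · congr 1
          funext k
          congr 1
          unfold jump
          split_ifs <;> omega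
        · congr 1
          funext k
          congr 1
          omega
  have hR1 : (a * cup1 b c) n x =
      ∑ p ∈ antidiagonal (n + 1), ∑ s ∈ antidiagonal p.1, ∑ i ∈ range s.2, G s.1 s.2 p.2 i := by
    rw [genc_assoc (n + 1) (fun s t q => ∑ i ∈ range t, G s t q i)]
    rw [Finset.Nat.sum_antidiagonal_succ']
    have h0 : ∑ s ∈ antidiagonal ((n + 1, 0) : ℕ × ℕ).2,
        ∑ i ∈ range s.1, G ((n + 1, 0) : ℕ × ℕ).1 s.1 s.2 i = 0 := by
      simp
    rw [h0, zero_add, mul_apply]
    refine Finset.sum_congr rfl ?_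
    rintro ⟨s, m⟩ _
    simp only [cup1_apply, Finset.mul_sum, hG]
  have hR2 : (cup1 a c * b) n x =
      ∑ p ∈ antidiagonal (n + 1), ∑ s ∈ antidiagonal p.1, ∑ i ∈ range s.1, F s.1 s.2 p.2 i := by
    rw [genc_triple (n + 1) (fun s t q => ∑ i ∈ range s, F s t q i)]
    rw [Finset.Nat.sum_antidiagonal_succ]
    have h0 : ∑ s ∈ antidiagonal ((0, n + 1) : ℕ × ℕ).1,
        ∑ i ∈ range s.1, F s.1 ((0, n + 1) : ℕ × ℕ).2 s.2 i = 0 := by
      simp
    rw [h0, zero_add, mul_apply]
    refine Finset.sum_congr rfl ?_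
    rintro ⟨m, t⟩ _
    simp only [cup1_apply, Finset.sum_mul, hF]
    refine Finset.sum_congr rfl ?_
    rintro ⟨s, q⟩ hsq
    rw [HasAntidiagonal.mem_antidiagonal] at hsq
    simp only at hsq ⊢
    refine Finset.sum_congr rfl ?_
    intro i _
    have : s + q - 1 = m := by omega
    rw [this]
    ring
  rw [hL, hR1, hR2]
  simp only [Finset.sum_add_distrib]
  rw [add_comm]

/-- cup-one product with the coboundary of a function is the commutator -/
theorem cup1_d_deg0 (α : V → A) (c : TC V A) :
    cup1 (d (deg0 α)) c = deg0 α * c + c * deg0 α := by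
  ext n x
  rw [add_apply, cup1_apply, mul_apply, mul_apply]
  rw [Finset.sum_eq_single ((1, n) : ℕ × ℕ), Finset.sum_eq_single ((0, n) : ℕ × ℕ),
    Finset.sum_eq_single ((n, 0) : ℕ × ℕ)]
  · simp only [d, deg0, Finset.sum_range_succ, Finset.sum_range_zero,
      skip, jump]
    simp
    ring
  · rintro ⟨i, j⟩ h hne
    rw [HasAntidiagonal.mem_antidiagonal] at h
    simp only at h
    have : j ≠ 0 := by
      rintro rfl
      exact hne (by simp at h; simp [h])
    simp [deg0, this]
  · intro h; simp at h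
  · rintro ⟨i, j⟩ h hne
    rw [HasAntidiagonal.mem_antidiagonal] at h
    simp only at h
    have : i ≠ 0 := by
      rintro rfl
      exact hne (by simp at h; simp [h])
    simp [deg0, this]
  · intro h; simp at h
  · rintro ⟨p, q⟩ h hne
    rw [HasAntidiagonal.mem_antidiagonal] at h
    simp only at h
    refine Finset.sum_eq_zero ?_
    intro i hi
    rcases p with _ | _ | p
    · simp at hi
    · exfalso
      apply hne
      simp only [zero_add, Prod.mk.injEq, true_and]
      omega
    · have : d (deg0 α) (p + 1 + 1) (fun k => x (jump i q k)) = 0 := by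
        simp [d, deg0]
      simp only
      rw [this, zero_mul]
  · intro h
    exfalso
    apply h
    rw [HasAntidiagonal.mem_antidiagonal]
    simp only
    omega

theorem Dep.prism {a : TC V A} (ha : Dep a) : Dep (TC.prism a) := by
  intro n z z' h
  rw [prism_apply, prism_apply]
  refine Finset.sum_congr rfl ?_
  intro i hi
  rw [mem_range] at hi
  apply ha
  intro k hk
  unfold mix
  dsimp only
  split_ifs with hki
  · rw [h k (by omega)]
  · rw [h (k - 1) (by omega)]

/-- the prism operator is a homotopy between the two projections -/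
theorem d_prism [Algebra (ZMod 2) A] {a : TC V A} (ha : Dep a) :
    d (prism a) + prism (d a) = pull Prod.fst a + pull Prod.snd a := by
  have h2 : ∀ u : A, u + u = 0 := by
    intro u
    have h : ((2 : ZMod 2)) • u = 0 := by
      have : (2 : ZMod 2) = 0 := by decide
      rw [this, zero_smul]
    have h' : ((2 : ZMod 2)) • u = u + u := by
      have : (2 : ZMod 2) = 1 + 1 := by norm_num
      rw [this, add_smul, one_smul]
    rw [← h', h]
  ext n z
  rw [add_apply, add_apply]
  rcases n with _ | n
  · rw [d_zero_apply, zero_add, prism_apply]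
    simp only [zero_add, d, Finset.sum_range_succ, Finset.sum_range_zero]
    unfold pull
    refine congrArg₂ (· + ·) ?_ ?_
    · apply ha
      intro i hi
      have : i = 0 := by omega
      subst this
      simp [mix, skip]
    · apply ha
      intro i hi
      have : i = 0 := by omega
      subst this
      simp [mix, skip]
  · set X : ℕ → V := fun k => (z k).1 with hX
    set Y : ℕ → V := fun k => (z k).2 with hY
    set G : ℕ → ℕ → A := fun i j => a (n + 1) (fun k => mix i X Y (skip j k)) with hG
    set D : ℕ → ℕ → A := fun j i =>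
      a (n + 1) (mix i (fun k => X (skip j k)) (fun k => Y (skip j k))) with hD
    have e1 : d (prism a) (n + 1) z = ∑ i ∈ range (n + 1), ∑ j ∈ range (n + 2), D j i := by
      rw [Finset.sum_comm, d_succ_apply]
      rfl
    have e2 : prism (d a) (n + 1) z = ∑ i ∈ range (n + 2), ∑ j ∈ range (n + 3), G i j := by
      rw [prism_apply]
      rfl
    have cA : ∀ i j, j ≤ i → D j i = G (i + 1) j := by
      intro i j hij
      simp only [hD, hG]
      congr 1
      funext k
      unfold mix skip
      dsimp only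
      split_ifs <;> first | omega | rfl | (congr 1; omega)
    have cB : ∀ i j, i < j → D j i = G i (j + 1) := by
      intro i j hij
      simp only [hD, hG]
      congr 1
      funext k
      unfold mix skip
      dsimp only
      split_ifs <;> first | omega | rfl | (congr 1; omega)
    have cC : ∀ i, G (i + 1) (i + 1) = G i (i + 1) := by
      intro i
      simp only [hG]
      congr 1
      funext k
      unfold mix skip
      split_ifs <;> first | omega | (congr 1; omega) | rfl
    have g0 : G 0 0 = pull Prod.fst a (n + 1) z := by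
      simp only [hG, pull]
      congr 1
    have g1 : G (n + 1) (n + 2) = pull Prod.snd a (n + 1) z := by
      simp only [hG, pull]
      apply ha
      intro k hk
      unfold mix skip
      split_ifs <;> first | omega | rfl
    -- split the rows
    have sG : ∀ i ∈ range (n + 2), ∑ j ∈ range (n + 3), G i j =
        ∑ j ∈ range i, G i j + (G i i + G i (i + 1)) + ∑ j ∈ range (n + 1 - i), G i (i + 2 + j) := by
      intro i hi
      rw [mem_range] at hi
      have h1 : n + 3 = (i + 2) + (n + 1 - i) := by omega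
      rw [h1, Finset.sum_range_add, Finset.sum_range_succ, Finset.sum_range_succ, add_assoc]
      simp only [add_assoc]
    have sD : ∀ i ∈ range (n + 1), ∑ j ∈ range (n + 2), D j i =
        ∑ j ∈ range (i + 1), G (i + 1) j + ∑ j ∈ range (n + 1 - i), G i (i + 2 + j) := by
      intro i hi
      rw [mem_range] at hi
      have h1 : n + 2 = (i + 1) + (n + 1 - i) := by omega
      rw [h1, Finset.sum_range_add]
      congr 1
      · refine Finset.sum_congr rfl ?_
        intro j hj
        rw [mem_range] at hj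
        exact cA i j (by omega)
      · refine Finset.sum_congr rfl ?_
        intro j _
        rw [cB i (i + 1 + j) (by omega)]
        congr 1
        omega
    rw [e1, e2, Finset.sum_congr rfl sG, Finset.sum_congr rfl sD]
    simp only [Finset.sum_add_distrib]
    rw [← g0, ← g1]
    have t1 : ∑ i ∈ range (n + 2), ∑ j ∈ range i, G i j =
        ∑ i ∈ range (n + 1), ∑ j ∈ range (i + 1), G (i + 1) j := by
      rw [Finset.sum_range_succ']
      simp
    have t3 : ∑ i ∈ range (n + 2), ∑ j ∈ range (n + 1 - i), G i (i + 2 + j) =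
        ∑ i ∈ range (n + 1), ∑ j ∈ range (n + 1 - i), G i (i + 2 + j) := by
      rw [Finset.sum_range_succ]
      simp
    have t2 : ∑ i ∈ range (n + 2), G i i = ∑ i ∈ range (n + 1), G i (i + 1) + G 0 0 := by
      rw [Finset.sum_range_succ']
      congr 1
      exact Finset.sum_congr rfl fun i _ => cC i
    have t4 : ∑ i ∈ range (n + 2), G i (i + 1) =
        ∑ i ∈ range (n + 1), G i (i + 1) + G (n + 1) (n + 2) := by
      rw [Finset.sum_range_succ]
    rw [t1, t3, t2, t4]
    generalize ∑ i ∈ range (n + 1), ∑ j ∈ range (i + 1), G (i + 1) j = u1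
    generalize ∑ i ∈ range (n + 1), ∑ j ∈ range (n + 1 - i), G i (i + 2 + j) = u2
    generalize ∑ i ∈ range (n + 1), G i (i + 1) = u3
    have r1 := h2 u1
    have r2 := h2 u2
    have r3 := h2 u3
    linear_combination r1 + r2 + r3

end Pool.Agent.H8.NP.TC
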