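import Mathlib

/-!
The group scheme of the polynomial part of the dual Steenrod algebra at `p = 2`: for an
`F_2`-algebra `R` the group `G R` is the set of sequences `c : ℕ → R` with `c 0 = 1` with Milnor's
composition law `(a * b)_k = ∑_{j + i = k} a_j ^ (2 ^ i) * b_i`.
-/

namespace Pool.Agent.H8.NP

open Finset

section Char2

variable {R : Type*} [CommRing R] [Algebra (ZMod 2) R]

theorem two0 (R : Type*) [CommRing R] [Algebra (ZMod 2) R] : (2 : R) = 0 := by
  have h : algebraMap (ZMod 2) R 2 = 0 := by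
    have : (2 : ZMod 2) = 0 := by decide
    rw [this, map_zero]
  rw [← h]
  exact (map_ofNat (algebraMap (ZMod 2) R) 2).symm

theorem add_self0 (a : R) : a + a = 0 := by
  rw [← two_mul, two0 R, zero_mul]

theorem neg_eq_self0 (a : R) : -a = a := by
  rw [neg_eq_iff_add_eq_zero, add_self0]

theorem eq_of_add0 {a b : R} (h : a + b = 0) : a = b := by
  rw [add_eq_zero_iff_eq_neg, neg_eq_self0] at h
  exact h

theorem add_pow2 (a b : R) (k : ℕ) : (a + b) ^ (2 ^ k) = a ^ (2 ^ k) + b ^ (2 ^ k) := by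
  induction k with
  | zero => simp
  | succ k ih =>
    rw [pow_succ, pow_mul, pow_mul, pow_mul, ih]
    have := two0 R
    linear_combination (a ^ (2 ^ k) * b ^ (2 ^ k)) * this

theorem sum_pow2 {ι : Type*} (s : Finset ι) (f : ι → R) (k : ℕ) :
    (∑ i ∈ s, f i) ^ (2 ^ k) = ∑ i ∈ s, f i ^ (2 ^ k) := by
  classical
  induction s using Finset.induction_on with
  | empty => simp
  | insert a s ha ih => rw [sum_insert ha, sum_insert ha, add_pow2, ih]

end Char2

/-- Milnor series -/
@[ext] structure G (R : Type*) [CommRing R] where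
  c : ℕ → R
  c0 : c 0 = 1

attribute [simp] G.c0

namespace G

section Mon

variable {R : Type*} [CommRing R]

instance : One (G R) := ⟨⟨fun k => if k = 0 then 1 else 0, by simp⟩⟩

instance : Mul (G R) :=
  ⟨fun a b => ⟨fun k => ∑ p ∈ antidiagonal k, a.c p.1 ^ (2 ^ p.2) * b.c p.2, by simp⟩⟩

theorem one_c (k : ℕ) : (1 : G R).c k = if k = 0 then 1 else 0 := rfl

theorem mul_c (a b : G R) (k : ℕ) :
    (a * b).c k = ∑ p ∈ antidiagonal k, a.c p.1 ^ (2 ^ p.2) * b.c p.2 := rfl

/-- auxiliary sequence for the inverse -/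
def invF (a : ℕ → R) : ℕ → R
  | 0 => 1
  | n + 1 => ∑ i : Fin (n + 1), a (n + 1 - i) ^ (2 ^ (i : ℕ)) * invF a i

end Mon

variable {R : Type*} [CommRing R]

instance : Inv (G R) := ⟨fun a => ⟨invF a.c, by rw [invF]⟩⟩

theorem inv_c (a : G R) (k : ℕ) : (a⁻¹).c k = invF a.c k := rfl

theorem inv_c_succ (a : G R) (n : ℕ) :
    (a⁻¹).c (n + 1) = ∑ i ∈ range (n + 1), a.c (n + 1 - i) ^ (2 ^ i) * (a⁻¹).c i := by
  rw [inv_c, invF, Finset.sum_range]
  rfl

variable [Algebra (ZMod 2) R]

theorem mul_assoc' (a b c : G R) : a * b * c = a * (b * c) := by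
  ext n
  simp only [mul_c, sum_pow2, mul_pow, Finset.sum_mul, Finset.mul_sum, Finset.sum_sigma',
    ← pow_mul, ← pow_add]
  apply Finset.sum_nbij' (fun ⟨⟨_i, j⟩, ⟨k, l⟩⟩ ↦ ⟨(k, l + j), (l, j)⟩)
    (fun ⟨⟨i, _j⟩, ⟨k, l⟩⟩ ↦ ⟨(i + k, l), (i, k)⟩)
  · rintro ⟨⟨i, j⟩, ⟨k, l⟩⟩; simp; omega
  · rintro ⟨⟨i, j⟩, ⟨k, l⟩⟩; simp; omega
  · rintro ⟨⟨i, j⟩, ⟨k, l⟩⟩; simp
  · rintro ⟨⟨i, j⟩, ⟨k, l⟩⟩; simp
  · rintro ⟨⟨i, j⟩, ⟨k, l⟩⟩ h
    simp only [mul_assoc]

theorem mul_inv' (a : G R) : a * a⁻¹ = 1 := by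
  ext n
  cases n with
  | zero => simp
  | succ n =>
    rw [mul_c, one_c, if_neg (Nat.succ_ne_zero n), Finset.Nat.sum_antidiagonal_eq_sum_range_succ_mk]
    rw [← Finset.sum_range_reflect, Finset.sum_range_succ]
    have h1 : ∑ j ∈ range (n + 1), a.c (n.succ + 1 - 1 - j) ^ 2 ^ (n.succ - (n.succ + 1 - 1 - j)) *
        (a⁻¹).c (n.succ - (n.succ + 1 - 1 - j)) =
        ∑ i ∈ range (n + 1), a.c (n + 1 - i) ^ (2 ^ i) * (a⁻¹).c i := by
      apply Finset.sum_congr rfl
      intro i hi
      have hi' := Finset.mem_range.1 hi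
      have e1 : n.succ + 1 - 1 - i = n + 1 - i := by omega
      have e2 : n.succ - (n + 1 - i) = i := by omega
      rw [e1, e2]
    simp only [Nat.succ_eq_add_one] at h1 ⊢
    rw [h1, ← inv_c_succ]
    simp [add_self0]

instance : Group (G R) :=
  Group.ofRightAxioms mul_assoc'
    (by
      intro a; ext n
      rw [mul_c, Finset.sum_eq_single (n, 0)]
      · simp [one_c]
      · rintro ⟨i, j⟩ h hne
        simp at h
        have : j ≠ 0 := by rintro rfl; exact hne (by simp at h; simp [h])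
        simp [one_c, this]
      · intro h; simp at h)
    mul_inv'

section Map

variable {R' : Type*} [CommRing R'] [Algebra (ZMod 2) R']
variable {R'' : Type*} [CommRing R''] [Algebra (ZMod 2) R'']

/-- functoriality -/
def map (φ : R →+* R') : G R →* G R' where
  toFun a := ⟨fun k => φ (a.c k), by simp⟩
  map_one' := by ext k; simp only [one_c]; split <;> simp
  map_mul' a b := by ext k; simp [mul_c, map_sum]

theorem map_c (φ : R →+* R') (a : G R) (k : ℕ) : (map φ a).c k = φ (a.c k) := rfl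

theorem map_map (φ : R →+* R') (ψ : R' →+* R'') (a : G R) :
    map ψ (map φ a) = map (ψ.comp φ) a := rfl

theorem map_id' (a : G R) : map (RingHom.id R) a = a := rfl

/-- Frobenius, coordinatewise -/
def frob : G R →* G R where
  toFun a := ⟨fun k => a.c k ^ 2, by simp⟩
  map_one' := by ext k; simp only [one_c]; split <;> simp
  map_mul' a b := by
    ext k
    have h := sum_pow2 (antidiagonal k) (fun p : ℕ × ℕ => a.c p.1 ^ (2 ^ p.2) * b.c p.2) 1
    simp only [pow_one] at h
    simp only [mul_c, h]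
    apply Finset.sum_congr rfl
    intro p _
    rw [mul_pow, ← pow_mul, ← pow_mul, mul_comm 2]

theorem frob_c (a : G R) (k : ℕ) : (frob a).c k = a.c k ^ 2 := rfl

theorem frob_map (φ : R →+* R') (a : G R) : frob (map φ a) = map φ (frob a) := by
  ext k; simp [frob_c, map_c]

end Map

/-- the element `1 + F^a v` (`a ≥ 1`) -/
def sec (a : ℕ) (ha : 1 ≤ a) (v : R) : G R :=
  ⟨fun k => if k = 0 then 1 else if k = a then v else 0, by simp⟩

theorem sec_c (a : ℕ) (ha : 1 ≤ a) (v : R) (k : ℕ) :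
    (sec a ha v).c k = if k = 0 then 1 else if k = a then v else 0 := rfl

theorem sec_c_self (a : ℕ) (ha : 1 ≤ a) (v : R) : (sec a ha v).c a = v := by
  rw [sec_c, if_neg (by omega), if_pos rfl]

theorem sec_c_ne (a : ℕ) (ha : 1 ≤ a) (v : R) (k : ℕ) (h0 : k ≠ 0) (h : k ≠ a) :
    (sec a ha v).c k = 0 := by
  rw [sec_c, if_neg h0, if_neg h]

/-- the closed subgroup `ξ_i = 0` for `1 ≤ i < m`, `ξ_i ^ (2 ^ m) = 0` for `m ≤ i < a` -/
def KS (m a : ℕ) (R : Type*) [CommRing R] [Algebra (ZMod 2) R] : Subgroup (G R) where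
  carrier := {g | ∀ i, 1 ≤ i → (i < m → g.c i = 0) ∧ (i < a → g.c i ^ (2 ^ m) = 0)}
  one_mem' := by
    intro i hi
    have : (1 : G R).c i = 0 := by rw [one_c, if_neg (by omega)]
    rw [this]
    exact ⟨fun _ => rfl, fun _ => by simp⟩
  mul_mem' := by
    intro g h hg hh i hi
    constructor
    · intro him
      rw [mul_c]
      apply Finset.sum_eq_zero
      rintro ⟨j, l⟩ hjl
      simp only [HasAntidiagonal.mem_antidiagonal] at hjl
      dsimp only
      rcases Nat.eq_zero_or_pos j with hj | hj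
      · subst hj
        rw [((hh l (by omega)).1 (by omega)), mul_zero]
      · rw [((hg j hj).1 (by omega)), zero_pow (by positivity), zero_mul]
    · intro hia
      rw [mul_c, sum_pow2]
      apply Finset.sum_eq_zero
      rintro ⟨j, l⟩ hjl
      simp only [HasAntidiagonal.mem_antidiagonal] at hjl
      dsimp only
      rcases Nat.eq_zero_or_pos j with hj | hj
      · subst hj
        rw [mul_pow, ((hh l (by omega)).2 (by omega)), mul_zero]
      · rw [mul_pow, ← pow_mul, mul_comm (2 ^ l), pow_mul, ((hg j hj).2 (by omega)),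
          zero_pow (by positivity), zero_mul]
  inv_mem' := by
    intro g hg i hi
    constructor
    · intro him
      induction i using Nat.strong_induction_on with
      | _ i ih =>
        obtain ⟨n, rfl⟩ : ∃ n, i = n + 1 := ⟨i - 1, by omega⟩
        rw [inv_c_succ]
        apply Finset.sum_eq_zero
        intro l hl
        have hl' := Finset.mem_range.1 hl
        rw [((hg (n + 1 - l) (by omega)).1 (by omega)), zero_pow (by positivity), zero_mul]
    · intro hia
      obtain ⟨n, rfl⟩ : ∃ n, i = n + 1 := ⟨i - 1, by omega⟩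
      rw [inv_c_succ, sum_pow2]
      apply Finset.sum_eq_zero
      intro l hl
      have hl' := Finset.mem_range.1 hl
      rw [mul_pow, ← pow_mul, mul_comm (2 ^ l), pow_mul, ((hg (n + 1 - l) (by omega)).2 (by omega)),
          zero_pow (by positivity), zero_mul]

theorem mem_KS {m a : ℕ} {g : G R} :
    g ∈ KS m a R ↔ ∀ i, 1 ≤ i → (i < m → g.c i = 0) ∧ (i < a → g.c i ^ (2 ^ m) = 0) := Iff.rfl

/-- all coordinates below `a + m` are additive on `KS m a` -/
theorem KS_mul_c {m a : ℕ} (hm : 1 ≤ m) {g h : G R} (hg : g ∈ KS m a R) (hh : h ∈ KS m a R)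
    (k : ℕ) (hk1 : 1 ≤ k) (hk : k < a + m) : (g * h).c k = g.c k + h.c k := by
  rw [mul_c]
  have hsub : ({(k, 0), (0, k)} : Finset (ℕ × ℕ)) ⊆ antidiagonal k := by
    intro p hp
    simp at hp
    rcases hp with rfl | rfl <;> simp
  rw [← Finset.sum_subset hsub, Finset.sum_pair (by simp; omega)]
  · simp
  · rintro ⟨j, l⟩ hjl hne
    simp only [HasAntidiagonal.mem_antidiagonal] at hjl
    simp only [mem_insert, mem_singleton, Prod.mk.injEq, not_or] at hne
    dsimp only
    have hj : 1 ≤ j := by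
      by_contra hj
      have : j = 0 := by omega
      subst this
      exact hne.2 ⟨rfl, by omega⟩
    have hl : 1 ≤ l := by
      by_contra hl
      have : l = 0 := by omega
      subst this
      exact hne.1 ⟨by omega, rfl⟩
    by_cases hlm : l < m
    · rw [((hh l hl).1 hlm), mul_zero]
    · have e : (2 : ℕ) ^ l = 2 ^ m * 2 ^ (l - m) := by rw [← pow_add]; congr 1; omega
      rw [e, pow_mul, ((hg j hj).2 (by omega)), zero_pow (by positivity), zero_mul]

/-- the coordinate `a + m` on `KS m a` -/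
theorem KS_mul_c' {m a : ℕ} (hm : 1 ≤ m) (ha : m ≤ a) {g h : G R} (hg : g ∈ KS m a R)
    (hh : h ∈ KS m a R) :
    (g * h).c (a + m) = g.c (a + m) + h.c (a + m) + g.c a ^ (2 ^ m) * h.c m := by
  rw [mul_c]
  have hsub : ({(a + m, 0), (0, a + m), (a, m)} : Finset (ℕ × ℕ)) ⊆ antidiagonal (a + m) := by
    intro p hp
    simp at hp
    rcases hp with rfl | rfl | rfl <;> simp
  rw [← Finset.sum_subset hsub, Finset.sum_insert, Finset.sum_pair]
  · simp [add_assoc]
  · simp; omega
  · simp; omega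
  · rintro ⟨j, l⟩ hjl hne
    simp only [HasAntidiagonal.mem_antidiagonal] at hjl
    simp only [mem_insert, mem_singleton, Prod.mk.injEq, not_or] at hne
    dsimp only
    have hj : 1 ≤ j := by
      by_contra hj
      have : j = 0 := by omega
      subst this
      exact hne.2.1 ⟨rfl, by omega⟩
    have hl : 1 ≤ l := by
      by_contra hl
      have : l = 0 := by omega
      subst this
      exact hne.1 ⟨by omega, rfl⟩
    by_cases hlm : l < m
    · rw [((hh l hl).1 hlm), mul_zero]
    · have hlm' : l ≠ m := by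
        rintro rfl
        exact hne.2.2 ⟨by omega, rfl⟩
      have e : (2 : ℕ) ^ l = 2 ^ m * 2 ^ (l - m) := by rw [← pow_add]; congr 1; omega
      rw [e, pow_mul, ((hg j hj).2 (by omega)), zero_pow (by positivity), zero_mul]

end G

end Pool.Agent.H8.NP
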