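import Pool.Agent.H8.NP.GenA
import Pool.Agent.H8.NP.GenB
import Pool.Agent.H8.NP.GenC
import Pool.Agent.H8.NP.Grp

/-!
Natural families of total cochains on `G R` (`R` any `F_2`-algebra) with values in `R[X]`, and the
commutative ring `H K` (total cohomology ring of a closed subgroup functor `K`, computed by
homogeneous cochains with constant values).
-/

namespace Pool.Agent.H8.NP

open Finset Polynomial

noncomputable section

/-- `F_2`-algebras in `Type` -/
structure A2 where
  R : Type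
  [cr : CommRing R]
  [al : Algebra (ZMod 2) R]

attribute [instance] A2.cr A2.al

/-- subgroup functors -/
structure SG where
  S : ∀ i : A2, Subgroup (G i.R)
  nat : ∀ (i j : A2) (φ : i.R →+* j.R) (g : G i.R), g ∈ S i → G.map φ g ∈ S j

/-- the subgroup functor `KS m a` -/
def KM (m a : ℕ) : SG where
  S i := G.KS m a i.R
  nat i j φ g hg := by
    intro k hk
    obtain ⟨h1, h2⟩ := hg k hk
    refine ⟨fun h => ?_, fun h => ?_⟩
    · rw [G.map_c, h1 h, map_zero]
    · rw [G.map_c, ← map_pow, h2 h, map_zero]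

/-- all families of total cochains -/
def Big := ∀ i : A2, TC (G i.R) (Polynomial i.R)

instance : Ring Big := inferInstanceAs (Ring (∀ i : A2, TC (G i.R) (Polynomial i.R)))

namespace Big

theorem mul_apply (a b : Big) (i : A2) : (a * b) i = a i * b i := rfl
theorem add_apply (a b : Big) (i : A2) : (a + b) i = a i + b i := rfl
theorem neg_apply (a : Big) (i : A2) : (-a) i = - a i := rfl
theorem one_apply (i : A2) : (1 : Big) i = 1 := rfl
theorem zero_apply (i : A2) : (0 : Big) i = 0 := rfl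

/-- naturality -/
def IsNat (c : Big) : Prop :=
  ∀ (i j : A2) (φ : i.R →+* j.R) (n : ℕ) (x : ℕ → G i.R),
    c j n (fun k => G.map φ (x k)) = (c i n x).map φ

/-- finitely many components -/
def IsFin (c : Big) : Prop := ∃ N, ∀ n, N ≤ n → ∀ (i : A2) (x : ℕ → G i.R), c i n x = 0

def d (c : Big) : Big := fun i => TC.d (c i)
def c1 (a b : Big) : Big := fun i => TC.cup1 (a i) (b i)

theorem IsNat.d {c : Big} (hc : IsNat c) : IsNat c.d := by
  intro i j φ n x
  cases n with
  | zero => simp [Big.d, TC.d_zero_apply]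
  | succ n =>
    simp only [Big.d, TC.d_succ_apply, Polynomial.map_sum]
    exact Finset.sum_congr rfl fun k _ => hc i j φ n (fun l => x (skip k l))

theorem IsNat.c1 {a b : Big} (ha : IsNat a) (hb : IsNat b) : IsNat (a.c1 b) := by
  intro i j φ n x
  simp only [Big.c1, TC.cup1_apply, Polynomial.map_sum, Polynomial.map_mul]
  refine Finset.sum_congr rfl fun p _ => Finset.sum_congr rfl fun k _ => ?_
  exact congrArg₂ _ (ha i j φ p.1 (fun l => x (jump k p.2 l)))
    (hb i j φ p.2 (fun l => x (l + k)))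

theorem IsNat.mul {a b : Big} (ha : IsNat a) (hb : IsNat b) : IsNat (a * b) := by
  intro i j φ n x
  simp only [mul_apply, TC.mul_apply, Polynomial.map_sum, Polynomial.map_mul]
  refine Finset.sum_congr rfl fun p _ => ?_
  exact congrArg₂ _ (ha i j φ p.1 x) (hb i j φ p.2 (fun l => x (l + p.1)))

theorem IsFin.d {c : Big} (hc : IsFin c) : IsFin c.d := by
  obtain ⟨N, hN⟩ := hc
  refine ⟨N + 1, fun n hn i x => ?_⟩
  cases n with
  | zero => simp [Big.d, TC.d_zero_apply]
  | succ n =>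
    simp only [Big.d, TC.d_succ_apply]
    exact Finset.sum_eq_zero fun k _ => hN n (by omega) i _

theorem IsFin.c1 {a b : Big} (ha : IsFin a) (hb : IsFin b) : IsFin (a.c1 b) := by
  obtain ⟨N, hN⟩ := ha
  obtain ⟨M, hM⟩ := hb
  refine ⟨N + M, fun n hn i x => ?_⟩
  simp only [Big.c1, TC.cup1_apply]
  refine Finset.sum_eq_zero fun p hp => Finset.sum_eq_zero fun k _ => ?_
  have hp' := HasAntidiagonal.mem_antidiagonal.1 hp
  by_cases h : N ≤ p.1
  · rw [hN p.1 h, zero_mul]
  · rw [hM p.2 (by omega), mul_zero]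

theorem IsFin.mul {a b : Big} (ha : IsFin a) (hb : IsFin b) : IsFin (a * b) := by
  obtain ⟨N, hN⟩ := ha
  obtain ⟨M, hM⟩ := hb
  refine ⟨N + M, fun n hn i x => ?_⟩
  simp only [mul_apply, TC.mul_apply]
  refine Finset.sum_eq_zero fun p hp => ?_
  have hp' := HasAntidiagonal.mem_antidiagonal.1 hp
  by_cases h : N ≤ p.1
  · rw [hN p.1 h, zero_mul]
  · rw [hM p.2 (by omega), mul_zero]

end Big

/-- natural, dependent, finitely supported families: the ring of cochains -/
def FmS : Subring Big where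
  carrier := {c | c.IsNat ∧ (∀ i, TC.Dep (c i)) ∧ c.IsFin}
  mul_mem' ha hb := ⟨ha.1.mul hb.1, fun i => (ha.2.1 i).mul (hb.2.1 i), ha.2.2.mul hb.2.2⟩
  one_mem' := by
    refine ⟨fun i j φ n x => ?_, fun i => TC.dep_one, ⟨1, fun n hn i x => ?_⟩⟩
    · simp only [Big.one_apply, TC.one_apply]
      split <;> simp
    · simp only [Big.one_apply, TC.one_apply]
      rw [if_neg (by omega)]
  add_mem' ha hb := by
    refine ⟨fun i j φ n x => ?_, fun i => (ha.2.1 i).add (hb.2.1 i), ?_⟩
    · simp only [Big.add_apply, TC.add_apply, Polynomial.map_add]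
      exact congrArg₂ _ (ha.1 i j φ n x) (hb.1 i j φ n x)
    · obtain ⟨N, hN⟩ := ha.2.2
      obtain ⟨M, hM⟩ := hb.2.2
      refine ⟨N + M, fun n hn i x => ?_⟩
      simp only [Big.add_apply, TC.add_apply]
      rw [hN n (by omega), hM n (by omega), add_zero]
  zero_mem' := by
    refine ⟨fun i j φ n x => ?_, fun i => TC.dep_zero, ⟨0, fun n hn i x => ?_⟩⟩
    · simp only [Big.zero_apply, TC.zero_apply, Polynomial.map_zero]
    · simp only [Big.zero_apply, TC.zero_apply]
  neg_mem' ha := by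
    refine ⟨fun i j φ n x => ?_, fun i => (ha.2.1 i).neg, ?_⟩
    · simp only [Big.neg_apply, TC.neg_apply, Polynomial.map_neg]
      exact congrArg _ (ha.1 i j φ n x)
    · obtain ⟨N, hN⟩ := ha.2.2
      refine ⟨N, fun n hn i x => ?_⟩
      simp only [Big.neg_apply, TC.neg_apply]
      rw [hN n hn, neg_zero]

/-- natural, dependent, finitely supported families: the ring of cochains -/
abbrev Fm := ↥FmS

namespace Fm

/-- coboundary of a family -/
def d (c : Fm) : Fm :=
  ⟨c.1.d, c.2.1.d, fun i => (c.2.2.1 i).d, c.2.2.2.d⟩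

/-- cup-one product of families -/
def c1 (a b : Fm) : Fm :=
  ⟨a.1.c1 b.1, a.2.1.c1 b.2.1, fun i => (a.2.2.1 i).cup1 (b.2.2.1 i), a.2.2.2.c1 b.2.2.2⟩

theorem d_val (c : Fm) (i : A2) : c.d.1 i = TC.d (c.1 i) := rfl
theorem c1_val (a b : Fm) (i : A2) : (a.c1 b).1 i = TC.cup1 (a.1 i) (b.1 i) := rfl
theorem mul_val (a b : Fm) (i : A2) : (a * b).1 i = a.1 i * b.1 i := rfl
theorem add_val (a b : Fm) (i : A2) : (a + b).1 i = a.1 i + b.1 i := rfl
theorem neg_val (a : Fm) (i : A2) : (-a).1 i = - a.1 i := rfl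
theorem one_val (i : A2) : (1 : Fm).1 i = 1 := rfl
theorem zero_val (i : A2) : (0 : Fm).1 i = 0 := rfl

theorem ext' {a b : Fm} (h : ∀ i, a.1 i = b.1 i) : a = b := Subtype.ext (funext h)

theorem d_add (a b : Fm) : (a + b).d = a.d + b.d := ext' fun i => TC.d_add _ _
theorem d_neg (a : Fm) : (-a).d = - a.d := ext' fun i => TC.d_neg _
theorem d_zero : (0 : Fm).d = 0 := ext' fun i => TC.d_zero
theorem d_one : (1 : Fm).d = 0 := ext' fun i => TC.d_one
theorem d_d (a : Fm) : a.d.d = 0 := ext' fun i => TC.d_d _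
theorem d_mul (a b : Fm) : (a * b).d = a.d * b + a * b.d :=
  ext' fun i => TC.d_mul (a.2.2.1 i) _
theorem d_c1 (a b : Fm) : (a.c1 b).d = a.d.c1 b + a.c1 b.d + a * b + b * a :=
  ext' fun i => TC.d_cup1 (a.2.2.1 i) (b.2.2.1 i)
theorem c1_mul (a b c : Fm) : (a * b).c1 c = a * b.c1 c + a.c1 c * b :=
  ext' fun i => TC.cup1_mul (a.2.2.1 i) _ _
theorem c1_add_left (a b c : Fm) : (a + b).c1 c = a.c1 c + b.c1 c :=
  ext' fun i => TC.cup1_add_left _ _ _
theorem c1_add_right (a b c : Fm) : a.c1 (b + c) = a.c1 b + a.c1 c :=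
  ext' fun i => TC.cup1_add_right _ _ _

theorem add_self (a : Fm) : a + a = 0 := ext' fun i => by
  ext n x
  rw [add_val, TC.add_apply, zero_val, TC.zero_apply]
  exact add_self0 _

theorem neg_eq (a : Fm) : -a = a := by
  rw [neg_eq_iff_add_eq_zero, add_self]

theorem sub_eq (a b : Fm) : a - b = a + b := by
  rw [sub_eq_add_neg, neg_eq]

end Fm

/-- sequences in `K` -/
def SG.Sq (K : SG) {i : A2} (x : ℕ → G i.R) : Prop := ∀ k, x k ∈ K.S i

/-- equality on sequences in `K` -/
def EqK (K : SG) (a b : Fm) : Prop :=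
  ∀ (i : A2) (n : ℕ) (x : ℕ → G i.R), K.Sq x → a.1 i n x = b.1 i n x

namespace EqK

variable {K : SG} {a b c a' b' : Fm}

theorem refl (K : SG) (a : Fm) : EqK K a a := fun _ _ _ _ => rfl
theorem of_eq (K : SG) {a b : Fm} (h : a = b) : EqK K a b := h ▸ refl K a
theorem symm (h : EqK K a b) : EqK K b a := fun i n x hx => (h i n x hx).symm
theorem trans (h : EqK K a b) (h' : EqK K b c) : EqK K a c :=
  fun i n x hx => (h i n x hx).trans (h' i n x hx)
theorem add (h : EqK K a b) (h' : EqK K a' b') : EqK K (a + a') (b + b') := by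
  intro i n x hx
  rw [Fm.add_val, Fm.add_val, TC.add_apply, TC.add_apply, h i n x hx, h' i n x hx]
theorem mul (h : EqK K a b) (h' : EqK K a' b') : EqK K (a * a') (b * b') := by
  intro i n x hx
  rw [Fm.mul_val, Fm.mul_val, TC.mul_apply, TC.mul_apply]
  refine Finset.sum_congr rfl fun p _ => ?_
  rw [h i p.1 x hx, h' i p.2 _ (fun k => hx _)]
theorem d (h : EqK K a b) : EqK K a.d b.d := by
  intro i n x hx
  rw [Fm.d_val, Fm.d_val]
  cases n with
  | zero => rfl
  | succ n =>
    rw [TC.d_succ_apply, TC.d_succ_apply]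
    exact Finset.sum_congr rfl fun j _ => h i n _ (fun k => hx _)
theorem c1 (h : EqK K a b) (h' : EqK K a' b') : EqK K (a.c1 a') (b.c1 b') := by
  intro i n x hx
  rw [Fm.c1_val, Fm.c1_val, TC.cup1_apply, TC.cup1_apply]
  refine Finset.sum_congr rfl fun p _ => Finset.sum_congr rfl fun k _ => ?_
  rw [h i p.1 _ (fun k => hx _), h' i p.2 _ (fun k => hx _)]
theorem pow (h : EqK K a b) (n : ℕ) : EqK K (a ^ n) (b ^ n) := by
  induction n with
  | zero => simpa using refl K 1
  | succ n ih => rw [pow_succ, pow_succ]; exact ih.mul h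
theorem mono {K' : SG} (hK : ∀ i, K'.S i ≤ K.S i) (h : EqK K a b) : EqK K' a b :=
  fun i n x hx => h i n x (fun k => hK i (hx k))

end EqK

/-- invariant cochains on `K` with constant values -/
def InC (K : SG) : Subring Fm where
  carrier := {c | (∀ (i : A2) (n : ℕ) (x : ℕ → G i.R) (g : G i.R), g ∈ K.S i → K.Sq x →
      c.1 i n (fun k => g * x k) = c.1 i n x) ∧
    (∀ (i : A2) (n : ℕ) (x : ℕ → G i.R), K.Sq x → c.1 i n x = C ((c.1 i n x).coeff 0))}
  mul_mem' {a b} ha hb := by
    constructor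
    · intro i n x g hg hx
      rw [Fm.mul_val, TC.mul_apply, TC.mul_apply]
      refine Finset.sum_congr rfl fun p _ => ?_
      rw [ha.1 i p.1 x g hg hx, hb.1 i p.2 (fun k => x (k + p.1)) g hg (fun k => hx _)]
    · intro i n x hx
      rw [Fm.mul_val, TC.mul_apply, finsetSum_coeff, map_sum]
      refine Finset.sum_congr rfl fun p _ => ?_
      rw [mul_coeff_zero, map_mul, ← ha.2 i p.1 x hx, ← hb.2 i p.2 _ (fun k => hx _)]
  one_mem' := by
    constructor
    · intro i n x g hg hx
      rfl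
    · intro i n x hx
      rw [Fm.one_val, TC.one_apply]
      split <;> simp
  add_mem' {a b} ha hb := by
    constructor
    · intro i n x g hg hx
      rw [Fm.add_val, TC.add_apply, TC.add_apply, ha.1 i n x g hg hx, hb.1 i n x g hg hx]
    · intro i n x hx
      rw [Fm.add_val, TC.add_apply, coeff_add, map_add, ← ha.2 i n x hx, ← hb.2 i n x hx]
  zero_mem' := by
    constructor
    · intro i n x g hg hx
      rfl
    · intro i n x hx
      rw [Fm.zero_val, TC.zero_apply]
      simp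
  neg_mem' {a} ha := by
    constructor
    · intro i n x g hg hx
      rw [Fm.neg_val, TC.neg_apply, TC.neg_apply, ha.1 i n x g hg hx]
    · intro i n x hx
      rw [Fm.neg_val, TC.neg_apply, coeff_neg, map_neg, ← ha.2 i n x hx]

theorem InC.d {K : SG} {c : Fm} (hc : c ∈ InC K) : c.d ∈ InC K := by
  constructor
  · intro i n x g hg hx
    rw [Fm.d_val]
    cases n with
    | zero => rfl
    | succ n =>
      rw [TC.d_succ_apply, TC.d_succ_apply]
      exact Finset.sum_congr rfl fun j _ => hc.1 i n (fun k => x (skip j k)) g hg (fun k => hx _)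
  · intro i n x hx
    rw [Fm.d_val]
    cases n with
    | zero => simp [TC.d_zero_apply]
    | succ n =>
      rw [TC.d_succ_apply, finsetSum_coeff, map_sum]
      exact Finset.sum_congr rfl fun j _ => hc.2 i n _ (fun k => hx _)

theorem InC.c1 {K : SG} {a b : Fm} (ha : a ∈ InC K) (hb : b ∈ InC K) : a.c1 b ∈ InC K := by
  constructor
  · intro i n x g hg hx
    rw [Fm.c1_val, TC.cup1_apply, TC.cup1_apply]
    refine Finset.sum_congr rfl fun p _ => Finset.sum_congr rfl fun k _ => ?_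
    rw [ha.1 i p.1 (fun l => x (jump k p.2 l)) g hg (fun k => hx _),
      hb.1 i p.2 (fun l => x (l + k)) g hg (fun k => hx _)]
  · intro i n x hx
    rw [Fm.c1_val, TC.cup1_apply, finsetSum_coeff, map_sum]
    refine Finset.sum_congr rfl fun p _ => ?_
    rw [finsetSum_coeff, map_sum]
    refine Finset.sum_congr rfl fun k _ => ?_
    rw [mul_coeff_zero, map_mul, ← ha.2 i p.1 _ (fun k => hx _), ← hb.2 i p.2 _ (fun k => hx _)]

theorem InC.mono {K K' : SG} (hK : ∀ i, K'.S i ≤ K.S i) {c : Fm} (hc : c ∈ InC K) : c ∈ InC K' :=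
  ⟨fun i n x g hg hx => hc.1 i n x g (hK i hg) (fun k => hK i (hx k)),
    fun i n x hx => hc.2 i n x (fun k => hK i (hx k))⟩

/-- cocycles on `K` -/
def Z (K : SG) : Subring Fm where
  carrier := {c | c ∈ InC K ∧ EqK K c.d 0}
  mul_mem' {a b} ha hb := by
    refine ⟨(InC K).mul_mem ha.1 hb.1, ?_⟩
    rw [Fm.d_mul]
    have h1 := (ha.2.mul (EqK.refl K b)).add ((EqK.refl K a).mul hb.2)
    simpa using h1
  one_mem' := ⟨(InC K).one_mem, by rw [Fm.d_one]; exact EqK.refl K 0⟩
  add_mem' {a b} ha hb := by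
    refine ⟨(InC K).add_mem ha.1 hb.1, ?_⟩
    rw [Fm.d_add]
    simpa using ha.2.add hb.2
  zero_mem' := ⟨(InC K).zero_mem, by rw [Fm.d_zero]; exact EqK.refl K 0⟩
  neg_mem' {a} ha := by
    refine ⟨(InC K).neg_mem ha.1, ?_⟩
    rw [Fm.neg_eq]
    exact ha.2

theorem Z.mono {K K' : SG} (hK : ∀ i, K'.S i ≤ K.S i) {c : Fm} (hc : c ∈ Z K) : c ∈ Z K' :=
  ⟨InC.mono hK hc.1, hc.2.mono hK⟩

theorem Z.d_mem {K : SG} {c : Fm} (hc : c ∈ InC K) : c.d ∈ Z K :=
  ⟨InC.d hc, by rw [Fm.d_d]; exact EqK.refl K 0⟩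

/-- coboundaries on `K` -/
def Bd (K : SG) (c : Fm) : Prop := ∃ b, b ∈ InC K ∧ EqK K c b.d

namespace Bd

variable {K : SG} {a b c : Fm}

theorem zero (K : SG) : Bd K 0 := ⟨0, (InC K).zero_mem, by rw [Fm.d_zero]; exact EqK.refl K 0⟩

theorem of_d (hb : b ∈ InC K) : Bd K b.d := ⟨b, hb, EqK.refl K _⟩

theorem congr (h : EqK K a b) (hb : Bd K b) : Bd K a := by
  obtain ⟨e, he, h'⟩ := hb
  exact ⟨e, he, h.trans h'⟩

theorem add (ha : Bd K a) (hb : Bd K b) : Bd K (a + b) := by
  obtain ⟨e, he, h⟩ := ha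
  obtain ⟨f, hf, h'⟩ := hb
  exact ⟨e + f, (InC K).add_mem he hf, by rw [Fm.d_add]; exact h.add h'⟩

theorem mul_left (ha : a ∈ Z K) (hb : Bd K b) : Bd K (a * b) := by
  obtain ⟨e, he, h⟩ := hb
  refine ⟨a * e, (InC K).mul_mem ha.1 he, ?_⟩
  have h1 := (ha.2.mul (EqK.refl K e)).add ((EqK.refl K a).mul h.symm)
  rw [Fm.d_mul]
  refine EqK.symm ?_
  simpa using h1

theorem mul_right (ha : a ∈ Z K) (hb : Bd K b) : Bd K (b * a) := by
  obtain ⟨e, he, h⟩ := hb
  refine ⟨e * a, (InC K).mul_mem he ha.1, ?_⟩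
  have h1 := (h.symm.mul (EqK.refl K a)).add ((EqK.refl K e).mul ha.2)
  rw [Fm.d_mul]
  refine EqK.symm ?_
  simpa using h1

theorem comm (ha : a ∈ Z K) (hb : b ∈ Z K) : Bd K (a * b + b * a) := by
  refine ⟨a.c1 b, InC.c1 ha.1 hb.1, ?_⟩
  rw [Fm.d_c1]
  have h1 : EqK K (a.d.c1 b) 0 := by
    refine (ha.2.c1 (EqK.refl K b)).trans (EqK.of_eq K ?_)
    have := Fm.c1_add_left 0 0 b
    simpa using this
  have h2 : EqK K (a.c1 b.d) 0 := by
    refine ((EqK.refl K a).c1 hb.2).trans (EqK.of_eq K ?_)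
    have := Fm.c1_add_right a 0 0
    simpa using this
  have h3 := ((h1.add h2).add (EqK.refl K (a * b))).add (EqK.refl K (b * a))
  refine EqK.symm ?_
  simpa using h3

theorem mono {K' : SG} (hK : ∀ i, K'.S i ≤ K.S i) (h : Bd K a) : Bd K' a := by
  obtain ⟨e, he, h⟩ := h
  exact ⟨e, InC.mono hK he, h.mono hK⟩

end Bd

/-- cohomologous cocycles -/
def con (K : SG) : RingCon (Z K) where
  r a b := Bd K (a.1 + b.1)
  iseqv :=
    { refl := fun a => by rw [Fm.add_self]; exact Bd.zero K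
      symm := fun {a b} h => by rw [add_comm]; exact h
      trans := fun {a b c} h h' => by
        have := h.add h'
        have e : a.1 + b.1 + (b.1 + c.1) = a.1 + c.1 := by
          have := Fm.add_self b.1
          calc a.1 + b.1 + (b.1 + c.1) = a.1 + (b.1 + b.1) + c.1 := by abel
            _ = a.1 + c.1 := by rw [this, add_zero]
        rwa [e] at this }
  add' {a b c e} h h' := by
    have := Bd.add h h'
    have e' : a.1 + b.1 + (c.1 + e.1) = a.1 + c.1 + (b.1 + e.1) := by abel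
    rw [e'] at this
    exact this
  mul' {a b c e} h h' := by
    have h1 := Bd.mul_right c.2 h
    have h2 := Bd.mul_left b.2 h'
    have := h1.add h2
    have e' : (a.1 + b.1) * c.1 + b.1 * (c.1 + e.1) = a.1 * c.1 + b.1 * e.1 := by
      have := Fm.add_self (b.1 * c.1)
      calc (a.1 + b.1) * c.1 + b.1 * (c.1 + e.1)
          = a.1 * c.1 + (b.1 * c.1 + b.1 * c.1) + b.1 * e.1 := by
            rw [add_mul, mul_add]; abel
        _ = _ := by rw [this, add_zero]
    rw [e'] at this
    exact this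

/-- the total cohomology ring of `K` -/
def H (K : SG) := (con K).Quotient

instance (K : SG) : Ring (H K) := inferInstanceAs (Ring (con K).Quotient)

/-- the class of a cocycle -/
def cls (K : SG) : Z K →+* H K := (con K).mk'

theorem cls_surj (K : SG) : Function.Surjective (cls K) := (con K).mk'_surjective

theorem cls_eq {K : SG} {a b : Z K} : cls K a = cls K b ↔ Bd K (a.1 + b.1) := by
  exact (con K).eq

theorem cls_eq_zero {K : SG} {a : Z K} : cls K a = 0 ↔ Bd K a.1 := by
  rw [← map_zero (cls K), cls_eq]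
  simp

instance (K : SG) : CommRing (H K) :=
  { (inferInstance : Ring (H K)) with
    mul_comm := by
      intro a b
      obtain ⟨a, rfl⟩ := cls_surj K a
      obtain ⟨b, rfl⟩ := cls_surj K b
      rw [← map_mul, ← map_mul, cls_eq]
      exact Bd.comm a.2 b.2 }

theorem H.add_self {K : SG} (a : H K) : a + a = 0 := by
  obtain ⟨a, rfl⟩ := cls_surj K a
  rw [← map_add, cls_eq_zero]
  have := Fm.add_self a.1
  have e : (a + a : Z K).1 = 0 := this
  rw [e]
  exact Bd.zero K

/-- `w` is nilpotent in the cohomology of `K` -/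
def Nilp (K : SG) (w : Fm) : Prop := ∃ N, Bd K (w ^ N)

theorem nilp_iff {K : SG} (w : Z K) : Nilp K w.1 ↔ IsNilpotent (cls K w) := by
  constructor
  · rintro ⟨N, h⟩
    exact ⟨N, by rw [← map_pow, cls_eq_zero]; exact h⟩
  · rintro ⟨N, h⟩
    rw [← map_pow, cls_eq_zero] at h
    exact ⟨N, h⟩

/-- additive characters of `K` -/
structure Chr (K : SG) where
  t : ∀ i : A2, G i.R → i.R
  nat : ∀ (i j : A2) (φ : i.R →+* j.R) (g : G i.R), t j (G.map φ g) = φ (t i g)
  add : ∀ (i : A2) (g h : G i.R), g ∈ K.S i → h ∈ K.S i → t i (g * h) = t i g + t i h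

/-- the function `χ ^ (2 ^ j)` on vertices, as a family of degree zero -/
def Chr.pot {K : SG} (χ : Chr K) (j : ℕ) : Fm :=
  ⟨fun i => TC.deg0 (fun g => C (χ.t i g ^ (2 ^ j))), by
    refine ⟨fun i i' φ n x => ?_, fun i => TC.dep_deg0 _, ⟨1, fun n hn i x => ?_⟩⟩
    · simp only [TC.deg0]
      split
      · simp [χ.nat i i' φ]
      · simp
    · simp only [TC.deg0]
      rw [if_neg (by omega)]⟩

/-- the one-cocycle `[χ ^ (2 ^ j)]` -/
def Chr.h {K : SG} (χ : Chr K) (j : ℕ) : Fm := (χ.pot j).d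

theorem Chr.h_mem {K : SG} (χ : Chr K) (j : ℕ) : χ.h j ∈ Z K := by
  refine ⟨⟨?_, ?_⟩, ?_⟩
  · intro i n x g hg hx
    rw [Chr.h, Fm.d_val]
    cases n with
    | zero => rfl
    | succ n =>
      rw [TC.d_succ_apply, TC.d_succ_apply]
      cases n with
      | zero =>
        simp only [Finset.sum_range_succ, Finset.sum_range_zero, Chr.pot, TC.deg0, skip, if_true]
        rw [χ.add i g _ hg (hx _), χ.add i g _ hg (hx _), add_pow2, add_pow2]
        simp only [map_add]
        have := add_self0 (C (χ.t i g ^ 2 ^ j))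
        linear_combination this
      | succ n => simp [Chr.pot, TC.deg0]
  · intro i n x hx
    rw [Chr.h, Fm.d_val]
    cases n with
    | zero => simp [TC.d_zero_apply]
    | succ n =>
      rw [TC.d_succ_apply]
      cases n with
      | zero =>
        simp only [Finset.sum_range_succ, Finset.sum_range_zero, Chr.pot, TC.deg0, if_true,
          zero_add, coeff_add, coeff_C_zero, map_add]
      | succ n => simp [Chr.pot, TC.deg0]
  · rw [Chr.h, Fm.d_d]; exact EqK.refl K 0

/-- the one-cocycle `[χ ^ (2 ^ j)]` as an element of the ring of cocycles -/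
def Chr.hz {K : SG} (χ : Chr K) (j : ℕ) : Z K := ⟨χ.h j, χ.h_mem j⟩

/-- equivariant cochains with values in `R[X]`, where `K` acts by `X ↦ X + χ`, of `X`-degree `< D` -/
structure InM (K : SG) (χ : Chr K) (D : ℕ) (c : Fm) : Prop where
  eqv : ∀ (i : A2) (n : ℕ) (x : ℕ → G i.R) (g : G i.R), g ∈ K.S i → K.Sq x →
      c.1 i n (fun k => g * x k) = (c.1 i n x).comp (X + C (χ.t i g))
  deg : ∀ (i : A2) (n : ℕ) (x : ℕ → G i.R), K.Sq x → c.1 i n x ∈ degreeLT i.R D

end

end Pool.Agent.H8.NP
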