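import Pool.Agent.H8.NP.TraB
import Pool.Agent.H8.NP.Des

/-! Assembly of project MP_9cbe1e_gt. -/

namespace Pool.Agent.H8.NP

open Finset

noncomputable section

theorem nilpotent_P0 (s : ℕ) (hs : 0 < s) (z : Cobar 2 s) (hz : dC 2 s z = 0) :
    ∃ m : ℕ, 0 < m ∧ IsCob (cpow (P0 z) m) := by
  obtain ⟨N, hN⟩ := toFam_bound z
  have hzZ := toFam_mem_Z s z hz
  have hyZ := toFam_mem_Z s (P0 z) (dC_P0 z hz)
  have hter : ∀ m, 1 ≤ m → m ≤ N + 1 → Nilp (KM m (N + 1)) (toFam s (P0 z)) := by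
    intro m hm _
    refine ⟨1, ?_⟩
    rw [pow_one, toFam_P0]
    refine terminal (toFam s z) hzZ (fun i x => ?_) N hN m hm
    rw [toFam_val, if_neg (by omega)]
  obtain ⟨n, hn⟩ := descent _ hyZ N hter
  refine ⟨n + 1, Nat.succ_pos n, ?_⟩
  apply isCob_of_bd
  rw [toFam_cpow, pow_succ]
  have hle : ∀ i, (KM 0 0).S i ≤ (KM 1 1).S i := by
    intro i g _ k hk
    exact ⟨fun h => by omega, fun h => by omega⟩
  exact Bd.mul_right hyZ (hn.mono hle)

end

end Pool.Agent.H8.NP
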