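import Pool.Agent.H8.NP.TC

/-! Module GENA of project MP_9cbe1e_gt: the coboundary is a derivation of square zero
(characteristic two), dependence is preserved. -/

namespace Pool.Agent.H8.NP.TC

open Finset

variable {V A : Type*} [CommRing A]

theorem gena_char2 [Algebra (ZMod 2) A] (u : A) : u + u = 0 := by
  have h20 : (2 : A) = 0 := by
    have h := map_ofNat (algebraMap (ZMod 2) A) 2
    rw [← h]
    have : (OfNat.ofNat 2 : ZMod 2) = 0 := by decide
    rw [this, map_zero]
  rw [← two_mul, h20, zero_mul]

theorem d_add (a b : TC V A) : d (a + b) = d a + d b := by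
  ext n x
  cases n with
  | zero => simp [add_apply, d_zero_apply]
  | succ n => simp only [add_apply, d_succ_apply, Finset.sum_add_distrib]

theorem d_zero : d (0 : TC V A) = 0 := by
  ext n x
  cases n with
  | zero => simp [zero_apply, d_zero_apply]
  | succ n => simp [zero_apply, d_succ_apply]

theorem d_neg (a : TC V A) : d (-a) = - d a := by
  ext n x
  cases n with
  | zero => simp [neg_apply, d_zero_apply]
  | succ n => simp only [neg_apply, d_succ_apply, Finset.sum_neg_distrib]

theorem d_pull {W : Type*} (f : W → V) (a : TC V A) : d (pull f a) = pull f (d a) := by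
  ext n x
  cases n with
  | zero => rfl
  | succ n => rfl

theorem Dep.add {a b : TC V A} (ha : Dep a) (hb : Dep b) : Dep (a + b) := by
  intro n x y h
  rw [add_apply, add_apply, ha n x y h, hb n x y h]

theorem Dep.neg {a : TC V A} (ha : Dep a) : Dep (-a) := by
  intro n x y h
  rw [neg_apply, neg_apply, ha n x y h]

theorem dep_zero : Dep (0 : TC V A) := by
  intro n x y h
  rw [zero_apply, zero_apply]

theorem dep_one : Dep (1 : TC V A) := by
  intro n x y h
  rw [one_apply, one_apply]

theorem dep_deg0 (α : V → A) : Dep (deg0 α) := by
  intro n x y h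
  unfold deg0
  rw [h 0 (Nat.zero_le _)]

theorem Dep.mul {a b : TC V A} (ha : Dep a) (hb : Dep b) : Dep (a * b) := by
  intro n x y h
  rw [mul_apply, mul_apply]
  refine Finset.sum_congr rfl ?_
  rintro ⟨p, q⟩ hpq
  rw [HasAntidiagonal.mem_antidiagonal] at hpq
  simp only at hpq ⊢
  rw [ha p x y (fun i hi => h i (by omega)),
    hb q (fun k => x (k + p)) (fun k => y (k + p)) (fun i hi => h _ (by omega))]

theorem Dep.d {a : TC V A} (ha : Dep a) : Dep (TC.d a) := by
  intro n x y h
  cases n with
  | zero => rfl
  | succ n =>
    rw [d_succ_apply, d_succ_apply]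
    refine Finset.sum_congr rfl ?_
    intro j hj
    refine ha n _ _ ?_
    intro i hi
    refine h _ ?_
    unfold skip
    split_ifs <;> omega

theorem Dep.pull {W : Type*} (f : W → V) {a : TC V A} (ha : Dep a) : Dep (TC.pull f a) := by
  intro n x y h
  refine ha n _ _ ?_
  intro i hi
  simp only [h i hi]

theorem d_one [Algebra (ZMod 2) A] : d (1 : TC V A) = 0 := by
  ext n x
  rcases n with _ | _ | n
  · rfl
  · rw [d_succ_apply, zero_apply]
    simp only [one_apply, zero_add, Finset.sum_range_succ, Finset.range_zero, Finset.sum_empty,
      if_true]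
    exact gena_char2 1
  · rw [d_succ_apply, zero_apply]
    simp only [one_apply]
    refine Finset.sum_eq_zero fun j _ => ?_
    rw [if_neg (by omega)]

/-- the sum over pairs `i < j` cancels against the sum over pairs `i ≥ j`:
`skip j ∘ skip i = skip i ∘ skip (j - 1)` for `i < j` -/
theorem d_d [Algebra (ZMod 2) A] (a : TC V A) : d (d a) = 0 := by
  ext n x
  rcases n with _ | _ | n
  · rfl
  · rw [d_succ_apply, zero_apply]
    exact Finset.sum_eq_zero fun j _ => rfl
  · rw [d_succ_apply, zero_apply]
    simp only [d_succ_apply]
    rw [← Finset.sum_product']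
    refine Finset.sum_involution
      (fun p _ => if p.2 < p.1 then (p.2, p.1 - 1) else (p.2 + 1, p.1)) ?_ ?_ ?_ ?_
    · rintro ⟨j, i⟩ _
      by_cases h : i < j
      · simp only [h, if_true]
        have e : a n (fun k => x (skip j (skip i k))) =
            a n (fun k => x (skip i (skip (j - 1) k))) := by
          congr 1; funext k; congr 1
          unfold skip
          split_ifs <;> omega
        rw [e]
        exact gena_char2 _
      · simp only [h, if_false]
        have e : a n (fun k => x (skip j (skip i k))) =
            a n (fun k => x (skip (i + 1) (skip j k))) := by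
          congr 1; funext k; congr 1
          unfold skip
          split_ifs <;> omega
        rw [e]
        exact gena_char2 _
    · rintro ⟨j, i⟩ _ _
      by_cases h : i < j
      · simp only [h, if_true, ne_eq, Prod.mk.injEq]
        omega
      · simp only [h, if_false, ne_eq, Prod.mk.injEq]
        omega
    · rintro ⟨j, i⟩ hji
      rw [Finset.mem_product, Finset.mem_range, Finset.mem_range] at hji
      simp only at hji
      by_cases h : i < j
      · simp only [h, if_true, Finset.mem_product, Finset.mem_range]
        omega
      · simp only [h, if_false, Finset.mem_product, Finset.mem_range]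
        omega
    · rintro ⟨j, i⟩ _
      by_cases h : i < j
      · have h' : ¬ (j - 1 < i) := by omega
        simp only [h, if_true, h', if_false, Prod.mk.injEq, and_true]
        omega
      · have h' : j < i + 1 := by omega
        simp only [h, if_false, h', if_true, Prod.mk.injEq, true_and]
        omega

theorem gena_hom (h2 : ∀ u : A, u + u = 0) (f g : (ℕ → V) → A) (p q : ℕ)
    (hf : ∀ x y : ℕ → V, (∀ i, i ≤ p → x i = y i) → f x = f y) (x : ℕ → V) :
    ∑ j ∈ range (p + q + 2), f (fun k => x (skip j k)) * g (fun k => x (skip j (k + p))) =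
      ∑ j ∈ range (p + 2), f (fun k => x (skip j k)) * g (fun k => x (k + (p + 1))) +
      ∑ j ∈ range (q + 2), f x * g (fun k => x (skip j k + p)) := by
  have e : p + q + 2 = (p + 1) + (q + 1) := by omega
  rw [e, Finset.sum_range_add, Finset.sum_range_succ _ (p + 1), Finset.sum_range_succ' _ (q + 1)]
  have e1 : ∀ j ∈ range (p + 1), f (fun k => x (skip j k)) * g (fun k => x (skip j (k + p))) =
      f (fun k => x (skip j k)) * g (fun k => x (k + (p + 1))) := by
    intro j hj
    rw [Finset.mem_range] at hj
    congr 2; funext k; congr 1
    unfold skip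
    split_ifs <;> omega
  have e2 : ∀ j ∈ range (q + 1), f (fun k => x (skip (p + 1 + j) k)) *
      g (fun k => x (skip (p + 1 + j) (k + p))) = f x * g (fun k => x (skip (j + 1) k + p)) := by
    intro j hj
    congr 1
    · refine hf _ _ ?_
      intro i hi
      congr 1
      unfold skip
      split_ifs <;> omega
    · congr 1; funext k; congr 1
      unfold skip
      split_ifs <;> omega
  have e3 : f (fun k => x (skip (p + 1) k)) = f x := by
    refine hf _ _ ?_
    intro i hi
    congr 1
    unfold skip
    split_ifs <;> omega
  have e4 : (fun k => x (skip 0 k + p)) = (fun k => x (k + (p + 1))) := by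
    funext k; congr 1
    unfold skip
    split_ifs <;> omega
  rw [Finset.sum_congr rfl e1, Finset.sum_congr rfl e2, e3, e4]
  have := h2 (f x * g (fun k => x (k + (p + 1))))
  linear_combination -this

/-- Leibniz rule in characteristic two -/
theorem d_mul [Algebra (ZMod 2) A] {a : TC V A} (ha : Dep a) (b : TC V A) :
    d (a * b) = d a * b + a * d b := by
  ext n x
  cases n with
  | zero =>
    simp only [d_zero_apply, add_apply, mul_apply, Finset.Nat.antidiagonal_zero,
      Finset.sum_singleton, zero_mul, mul_zero, add_zero]
  | succ n =>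
    rw [d_succ_apply]
    simp only [add_apply, mul_apply]
    rw [Finset.sum_comm]
    rw [Finset.Nat.sum_antidiagonal_succ (n := n)
      (f := fun p : ℕ × ℕ => d a p.1 x * b p.2 (fun k => x (k + p.1)))]
    rw [Finset.Nat.sum_antidiagonal_succ' (n := n)
      (f := fun p : ℕ × ℕ => a p.1 x * d b p.2 (fun k => x (k + p.1)))]
    simp only [d_zero_apply, zero_mul, mul_zero, zero_add]
    rw [← Finset.sum_add_distrib]
    refine Finset.sum_congr rfl ?_
    rintro ⟨p, q⟩ hpq
    rw [HasAntidiagonal.mem_antidiagonal] at hpq
    simp only at hpq ⊢
    have key := gena_hom gena_char2 (a p) (b q) p q (ha p) x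
    rw [hpq] at key
    rw [key]
    simp only [d_succ_apply, Finset.sum_mul, Finset.mul_sum]

end Pool.Agent.H8.NP.TC
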