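import Pool.Agent.H8.NP.Fam

/-! Module LADA of project MP_9cbe1e_gt: algebra of equivariant `R[X]`-valued cochains
(`InM`): closure properties and division by `(X + χ (x 0)) ^ (2 ^ j)`. -/

namespace Pool.Agent.H8.NP

open Finset Polynomial

noncomputable section

variable {K : SG} {χ : Chr K}

/-! ### degrees -/

theorem lada_mem_iff {R : Type*} [CommRing R] {f : R[X]} {D : ℕ} :
    f ∈ degreeLT R D ↔ ∀ m, D ≤ m → f.coeff m = 0 := by
  rw [mem_degreeLT, degree_lt_iff_coeff_zero]

theorem lada_mul_mem {R : Type*} [CommRing R] {a b : R[X]} {D E : ℕ} (ha : a ∈ degreeLT R D)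
    (hb : b ∈ degreeLT R (E + 1)) : a * b ∈ degreeLT R (D + E) := by
  rw [lada_mem_iff] at *
  intro m hm
  rw [coeff_mul]
  apply Finset.sum_eq_zero
  rintro ⟨i, j⟩ hij
  have hij' := HasAntidiagonal.mem_antidiagonal.1 hij
  simp only at hij' ⊢
  by_cases h : D ≤ i
  · rw [ha i h, zero_mul]
  · rw [hb j (by omega), mul_zero]

theorem lada_C_mem {R : Type*} [CommRing R] (c : R) : C c ∈ degreeLT R 1 := by
  rw [lada_mem_iff]
  intro m hm
  rw [coeff_C, if_neg (by omega)]

theorem lada_const {R : Type*} [CommRing R] {f : R[X]} (hf : f ∈ degreeLT R 1) :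
    f = C (f.coeff 0) := by
  rw [lada_mem_iff] at hf
  ext m
  rw [coeff_C]
  split_ifs with h
  · rw [h]
  · exact hf m (by omega)

theorem lada_mono {R : Type*} [CommRing R] {f : R[X]} {D D' : ℕ} (h : D ≤ D')
    (hf : f ∈ degreeLT R D) : f ∈ degreeLT R D' := degreeLT_mono h hf

/-! ### closure properties -/

theorem InM.mono {D D' : ℕ} (h : D ≤ D') {c : Fm} (hc : InM K χ D c) : InM K χ D' c :=
  ⟨hc.eqv, fun i n x hx => lada_mono h (hc.deg i n x hx)⟩

theorem InM.add {D : ℕ} {a b : Fm} (ha : InM K χ D a) (hb : InM K χ D b) : InM K χ D (a + b) := by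
  constructor
  · intro i n x g hg hx
    rw [Fm.add_val, TC.add_apply, TC.add_apply, ha.eqv i n x g hg hx, hb.eqv i n x g hg hx,
      add_comp]
  · intro i n x hx
    rw [Fm.add_val, TC.add_apply]
    exact Submodule.add_mem _ (ha.deg i n x hx) (hb.deg i n x hx)

theorem lada_sum_comp {R ι : Type*} [CommRing R] (s : Finset ι) (f : ι → R[X]) (q : R[X]) :
    (∑ i ∈ s, f i).comp q = ∑ i ∈ s, (f i).comp q := by
  exact map_sum (compRingHom q) f s

theorem InM.d {D : ℕ} {c : Fm} (hc : InM K χ D c) : InM K χ D c.d := by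
  constructor
  · intro i n x g hg hx
    rw [Fm.d_val]
    cases n with
    | zero => rw [TC.d_zero_apply, TC.d_zero_apply, zero_comp]
    | succ n =>
      rw [TC.d_succ_apply, TC.d_succ_apply, lada_sum_comp]
      exact Finset.sum_congr rfl fun j _ => hc.eqv i n (fun k => x (skip j k)) g hg (fun k => hx _)
  · intro i n x hx
    rw [Fm.d_val]
    cases n with
    | zero => rw [TC.d_zero_apply]; exact Submodule.zero_mem _
    | succ n =>
      rw [TC.d_succ_apply]
      exact Submodule.sum_mem _ fun j _ => hc.deg i n (fun k => x (skip j k)) (fun k => hx _)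

theorem lada_mul {D E : ℕ} {a b : Fm} (ha : InM K χ D a) (hb : InM K χ (E + 1) b) :
    InM K χ (D + E) (a * b) := by
  constructor
  · intro i n x g hg hx
    rw [Fm.mul_val, TC.mul_apply, TC.mul_apply, lada_sum_comp]
    refine Finset.sum_congr rfl fun p _ => ?_
    rw [mul_comp, ha.eqv i p.1 x g hg hx,
      hb.eqv i p.2 (fun k => x (k + p.1)) g hg (fun k => hx _)]
  · intro i n x hx
    rw [Fm.mul_val, TC.mul_apply]
    exact Submodule.sum_mem _ fun p _ => lada_mul_mem (ha.deg i p.1 x hx)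
      (hb.deg i p.2 _ (fun k => hx _))

theorem lada_c1 {D E : ℕ} {a b : Fm} (ha : InM K χ D a) (hb : InM K χ (E + 1) b) :
    InM K χ (D + E) (a.c1 b) := by
  constructor
  · intro i n x g hg hx
    rw [Fm.c1_val, TC.cup1_apply, TC.cup1_apply, lada_sum_comp]
    refine Finset.sum_congr rfl fun p _ => ?_
    rw [lada_sum_comp]
    refine Finset.sum_congr rfl fun k _ => ?_
    rw [mul_comp, ha.eqv i p.1 (fun l => x (jump k p.2 l)) g hg (fun k => hx _),
      hb.eqv i p.2 (fun l => x (l + k)) g hg (fun k => hx _)]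
  · intro i n x hx
    rw [Fm.c1_val, TC.cup1_apply]
    exact Submodule.sum_mem _ fun p _ => Submodule.sum_mem _ fun k _ =>
      lada_mul_mem (ha.deg i p.1 _ (fun k => hx _)) (hb.deg i p.2 _ (fun k => hx _))

theorem lada_of_inC {b : Fm} (hb : b ∈ InC K) : InM K χ 1 b := by
  constructor
  · intro i n x g hg hx
    rw [hb.1 i n x g hg hx, hb.2 i n x hx, C_comp]
  · intro i n x hx
    rw [hb.2 i n x hx]
    exact lada_C_mem _

/-- products: degrees `< D` and `< D'` give degree `< D + D'` -/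
theorem InM.mul {D D' : ℕ} {a b : Fm} (ha : InM K χ D a) (hb : InM K χ D' b) :
    InM K χ (D + D') (a * b) :=
  lada_mul ha (hb.mono (Nat.le_succ D'))

theorem InM.mul_inC {D : ℕ} {a b : Fm} (ha : InM K χ D a) (hb : b ∈ InC K) :
    InM K χ D (a * b) :=
  lada_mul (E := 0) ha (lada_of_inC hb)

theorem InM.inC_mul {D : ℕ} {a b : Fm} (ha : a ∈ InC K) (hb : InM K χ D b) :
    InM K χ D (a * b) := by
  have ha' : InM K χ 1 a := lada_of_inC ha
  constructor
  · intro i n x g hg hx
    rw [Fm.mul_val, TC.mul_apply, TC.mul_apply, lada_sum_comp]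
    refine Finset.sum_congr rfl fun p _ => ?_
    rw [mul_comp, ha'.eqv i p.1 x g hg hx,
      hb.eqv i p.2 (fun k => x (k + p.1)) g hg (fun k => hx _)]
  · intro i n x hx
    rw [Fm.mul_val, TC.mul_apply]
    refine Submodule.sum_mem _ fun p _ => ?_
    rw [mul_comm]
    exact lada_mul_mem (E := 0) (hb.deg i p.2 _ (fun k => hx _)) (ha'.deg i p.1 x hx)

theorem InM.c1_inC {D : ℕ} {a b : Fm} (ha : InM K χ D a) (hb : b ∈ InC K) :
    InM K χ D (a.c1 b) :=
  lada_c1 (E := 0) ha (lada_of_inC hb)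

theorem InM.one : InM K χ 1 1 := lada_of_inC (InC K).one_mem

/-- degree `< 1` means invariant with constant values -/
theorem InM.inC {c : Fm} (hc : InM K χ 1 c) : c ∈ InC K := by
  refine ⟨?_, ?_⟩
  · intro i n x g hg hx
    rw [hc.eqv i n x g hg hx, lada_const (hc.deg i n x hx), C_comp]
  · intro i n x hx
    exact lada_const (hc.deg i n x hx)

/-! ### division -/

/-- the divisor -/
def ladaP {R : Type*} [CommRing R] (j : ℕ) (c : R) : R[X] := X ^ (2 ^ j) + C (c ^ (2 ^ j))

theorem ladaP_monic {R : Type*} [CommRing R] (j : ℕ) (c : R) : (ladaP j c).Monic :=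
  monic_X_pow_add_C _ (by positivity)

theorem ladaP_map {R S : Type*} [CommRing R] [CommRing S] (φ : R →+* S) (j : ℕ) (c : R) :
    (ladaP j c).map φ = ladaP j (φ c) := by
  simp [ladaP]

theorem ladaP_comp {R : Type*} [CommRing R] [Algebra (ZMod 2) R] (j : ℕ) (c r : R) :
    (ladaP j c).comp (X + C r) = ladaP j (r + c) := by
  unfold ladaP
  rw [add_comp, pow_comp, X_comp, C_comp, add_pow2, add_pow2 r c, map_add]
  simp only [map_pow]
  ring

theorem ladaP_degree {R : Type*} [CommRing R] [Nontrivial R] (j : ℕ) (c : R) :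
    (ladaP j c).degree = ((2 ^ j : ℕ) : WithBot ℕ) :=
  degree_X_pow_add_C (by positivity) _

theorem ladaP_natDegree {R : Type*} [CommRing R] [Nontrivial R] (j : ℕ) (c : R) :
    (ladaP j c).natDegree = 2 ^ j :=
  natDegree_X_pow_add_C

theorem lada_mod_mem {R : Type*} [CommRing R] (j : ℕ) (c : R) (f : R[X]) :
    f %ₘ ladaP j c ∈ degreeLT R (2 ^ j) := by
  rcases subsingleton_or_nontrivial R with h | h
  · rw [Subsingleton.elim (f %ₘ ladaP j c) 0]
    exact Submodule.zero_mem _
  · rw [mem_degreeLT, ← ladaP_degree j c]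
    exact degree_modByMonic_lt _ (ladaP_monic j c)

theorem lada_div_mem {R : Type*} [CommRing R] (j : ℕ) (c : R) {f : R[X]}
    (hf : f ∈ degreeLT R (2 ^ (j + 1))) : f /ₘ ladaP j c ∈ degreeLT R (2 ^ j) := by
  rcases subsingleton_or_nontrivial R with h | h
  · rw [Subsingleton.elim (f /ₘ ladaP j c) 0]
    exact Submodule.zero_mem _
  · have h1 := natDegree_divByMonic f (ladaP_monic j c)
    rw [ladaP_natDegree] at h1
    rw [mem_degreeLT] at hf ⊢
    have h2 : f.natDegree < 2 ^ (j + 1) := by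
      by_cases h0 : f = 0
      · rw [h0, natDegree_zero]; positivity
      · exact (natDegree_lt_iff_degree_lt h0).mpr hf
    have h3 : (f /ₘ ladaP j c).natDegree < 2 ^ j := by
      rw [h1]
      have : 2 ^ (j + 1) = 2 ^ j + 2 ^ j := by ring
      have : 0 < 2 ^ j := by positivity
      omega
    exact lt_of_le_of_lt degree_le_natDegree (by exact_mod_cast h3)

theorem lada_div_comp {R : Type*} [CommRing R] [Algebra (ZMod 2) R] (j : ℕ) (c r : R) (f : R[X]) :
    (f.comp (X + C r)) /ₘ ladaP j (r + c) = (f /ₘ ladaP j c).comp (X + C r) ∧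
      (f.comp (X + C r)) %ₘ ladaP j (r + c) = (f %ₘ ladaP j c).comp (X + C r) := by
  rcases subsingleton_or_nontrivial R with h | h
  · exact ⟨Subsingleton.elim _ _, Subsingleton.elim _ _⟩
  · apply div_modByMonic_unique _ _ (ladaP_monic j (r + c))
    constructor
    · rw [← ladaP_comp, ← mul_comp, ← add_comp, modByMonic_add_div]
    · rw [ladaP_degree, ← ladaP_degree j c, ← taylor_apply, degree_taylor]
      exact degree_modByMonic_lt _ (ladaP_monic j c)

theorem lada_zero_of_mul {R : Type*} [CommRing R] (j : ℕ) (c : R) {p : R[X]}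
    (h : ladaP j c * p ∈ degreeLT R (2 ^ j)) : p = 0 := by
  rcases subsingleton_or_nontrivial R with h' | h'
  · exact Subsingleton.elim _ _
  · by_contra hp
    have h1 := (ladaP_monic j c).natDegree_mul' hp
    have h2 : ladaP j c * p ≠ 0 := by
      intro h0
      exact hp ((ladaP_monic j c).mul_right_eq_zero_iff.mp h0)
    rw [mem_degreeLT, ← natDegree_lt_iff_degree_lt h2, h1, ladaP_natDegree] at h
    omega

/-- the family of degree zero `g ↦ X ^ (2 ^ j) + C (χ g ^ (2 ^ j))` -/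
def ladaT (χ : Chr K) (j : ℕ) : Fm :=
  ⟨fun i => TC.deg0 (fun g => ladaP j (χ.t i g)), by
    refine ⟨fun i i' φ n x => ?_, fun i => TC.dep_deg0 _, ⟨1, fun n hn i x => ?_⟩⟩
    · simp only [TC.deg0]
      split
      · rw [ladaP_map, χ.nat i i' φ]
      · simp
    · simp only [TC.deg0]
      rw [if_neg (by omega)]⟩

theorem ladaT_d (χ : Chr K) (j : ℕ) : (ladaT χ j).d = χ.h j := by
  apply Fm.ext'
  intro i
  refine TC.ext fun n x => ?_
  rw [Chr.h, Fm.d_val, Fm.d_val]
  cases n with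
  | zero => rfl
  | succ n =>
    rw [TC.d_succ_apply, TC.d_succ_apply]
    cases n with
    | zero =>
      simp only [Finset.sum_range_succ, Finset.sum_range_zero, Chr.pot, ladaT, TC.deg0, if_true,
        ladaP]
      have := add_self0 (X ^ (2 ^ j) : (i.R)[X])
      linear_combination this
    | succ n => simp [Chr.pot, ladaT, TC.deg0]

theorem ladaT_mul (χ : Chr K) (j : ℕ) (b : Fm) (i : A2) (n : ℕ) (x : ℕ → G i.R) :
    (ladaT χ j * b).1 i n x = ladaP j (χ.t i (x 0)) * b.1 i n x := by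
  rw [Fm.mul_val, TC.mul_apply, Finset.sum_eq_single (0, n)]
  · simp [ladaT, TC.deg0]
  · rintro ⟨k, l⟩ h hne
    have h' := HasAntidiagonal.mem_antidiagonal.1 h
    have hk : k ≠ 0 := by
      rintro rfl
      apply hne
      simp only [zero_add] at h'
      rw [h']
    simp [ladaT, TC.deg0, hk]
  · intro h
    simp at h

/-- the remainders -/
def ladaR (χ : Chr K) (j : ℕ) (f : Fm) : Fm :=
  ⟨fun i n x => f.1 i n x %ₘ ladaP j (χ.t i (x 0)), by
    refine ⟨?_, ?_, ?_⟩
    · intro i i' φ n x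
      dsimp only
      rw [f.2.1 i i' φ n x, χ.nat i i' φ, ← ladaP_map, map_modByMonic _ (ladaP_monic _ _)]
    · intro i n x y h
      dsimp only
      rw [f.2.2.1 i n x y h, h 0 (Nat.zero_le _)]
    · obtain ⟨N, hN⟩ := f.2.2.2
      refine ⟨N, fun n hn i x => ?_⟩
      dsimp only
      rw [hN n hn i x, zero_modByMonic]⟩

/-- the quotients -/
def ladaQ (χ : Chr K) (j : ℕ) (f : Fm) : Fm :=
  ⟨fun i n x => f.1 i n x /ₘ ladaP j (χ.t i (x 0)), by
    refine ⟨?_, ?_, ?_⟩
    · intro i i' φ n x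
      dsimp only
      rw [f.2.1 i i' φ n x, χ.nat i i' φ, ← ladaP_map, map_divByMonic _ (ladaP_monic _ _)]
    · intro i n x y h
      dsimp only
      rw [f.2.2.1 i n x y h, h 0 (Nat.zero_le _)]
    · obtain ⟨N, hN⟩ := f.2.2.2
      refine ⟨N, fun n hn i x => ?_⟩
      dsimp only
      rw [hN n hn i x, zero_divByMonic]⟩

theorem lada_eq (χ : Chr K) (j : ℕ) (f : Fm) : f = ladaR χ j f + ladaT χ j * ladaQ χ j f := by
  apply Fm.ext'
  intro i
  refine TC.ext fun n x => ?_
  rw [Fm.add_val, TC.add_apply, ladaT_mul]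
  exact (modByMonic_add_div _ _).symm

theorem ladaR_inM {j : ℕ} {D : ℕ} {f : Fm} (hf : InM K χ D f) :
    InM K χ (2 ^ j) (ladaR χ j f) := by
  constructor
  · intro i n x g hg hx
    change f.1 i n (fun k => g * x k) %ₘ ladaP j (χ.t i (g * x 0)) =
      (f.1 i n x %ₘ ladaP j (χ.t i (x 0))).comp (X + C (χ.t i g))
    rw [hf.eqv i n x g hg hx, χ.add i g (x 0) hg (hx 0)]
    exact (lada_div_comp _ _ _ _).2
  · intro i n x hx
    exact lada_mod_mem _ _ _

theorem ladaQ_inM {j : ℕ} {f : Fm} (hf : InM K χ (2 ^ (j + 1)) f) :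
    InM K χ (2 ^ j) (ladaQ χ j f) := by
  constructor
  · intro i n x g hg hx
    change f.1 i n (fun k => g * x k) /ₘ ladaP j (χ.t i (g * x 0)) =
      (f.1 i n x /ₘ ladaP j (χ.t i (x 0))).comp (X + C (χ.t i g))
    rw [hf.eqv i n x g hg hx, χ.add i g (x 0) hg (hx 0)]
    exact (lada_div_comp _ _ _ _).1
  · intro i n x hx
    exact lada_div_mem _ _ (hf.deg i n x hx)

/-- if `d f = u` on `K` with `u` of degree `< 2 ^ j` and `f` of degree `< 2 ^ (j + 1)`, then
`u = d f0 + h_j * f1` with `f0`, `f1` of degree `< 2 ^ j` and `f1` a cocycle.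
(Write `f = f0 + T * f1` with `T = deg0 (g ↦ X ^ (2 ^ j) + C (χ g ^ (2 ^ j)))`: quotient and
remainder of the values `f n x` by the monic polynomial `X ^ (2 ^ j) + C (χ (x 0) ^ (2 ^ j))`;
`d T = h_j`, and compare `X`-degrees.) -/
theorem InM.split {j : ℕ} {u f : Fm} (hu : InM K χ (2 ^ j) u) (hf : InM K χ (2 ^ (j + 1)) f)
    (hd : EqK K f.d u) :
    ∃ f0 f1 : Fm, InM K χ (2 ^ j) f0 ∧ InM K χ (2 ^ j) f1 ∧ EqK K f1.d 0 ∧
      EqK K u (f0.d + χ.h j * f1) := by
  have h0 : InM K χ (2 ^ j) (ladaR χ j f) := ladaR_inM hf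
  have h1 : InM K χ (2 ^ j) (ladaQ χ j f) := ladaQ_inM hf
  have hdf : f.d = (ladaR χ j f).d + (χ.h j * ladaQ χ j f + ladaT χ j * (ladaQ χ j f).d) := by
    conv_lhs => rw [lada_eq χ j f]
    rw [Fm.d_add, Fm.d_mul, ladaT_d]
  have hrest : InM K χ (2 ^ j) (u + ((ladaR χ j f).d + χ.h j * ladaQ χ j f)) :=
    hu.add (h0.d.add (InM.inC_mul (χ.h_mem j).1 h1))
  have hzero : EqK K (ladaQ χ j f).d 0 := by
    intro i n x hx
    rw [Fm.zero_val, TC.zero_apply]
    apply lada_zero_of_mul j (χ.t i (x 0))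
    rw [← ladaT_mul]
    have e1 := hd i n x hx
    rw [hdf] at e1
    simp only [Fm.add_val, TC.add_apply] at e1
    have e2 := hrest.deg i n x hx
    simp only [Fm.add_val, TC.add_apply] at e2
    have e3 : (ladaT χ j * (ladaQ χ j f).d).1 i n x =
        u.1 i n x + ((ladaR χ j f).d.1 i n x + (χ.h j * ladaQ χ j f).1 i n x) := by
      rw [← e1]
      have s1 := add_self0 ((ladaR χ j f).d.1 i n x)
      have s2 := add_self0 ((χ.h j * ladaQ χ j f).1 i n x)
      linear_combination -s1 - s2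
    rw [e3]
    exact e2
  refine ⟨ladaR χ j f, ladaQ χ j f, h0, h1, hzero, ?_⟩
  refine hd.symm.trans ?_
  rw [hdf]
  refine (EqK.refl K _).add ?_
  have h2 := (EqK.refl K (χ.h j * ladaQ χ j f)).add ((EqK.refl K (ladaT χ j)).mul hzero)
  simpa using h2

end

end Pool.Agent.H8.NP
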