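import Pool.Agent.H8.NP.LadA

/-! Module LADB of project MP_9cbe1e_gt: the ladder. -/

namespace Pool.Agent.H8.NP

open Finset Polynomial

noncomputable section

namespace LB

/-- the congruence `EqK` -/
def eqc (K : SG) : RingCon Fm where
  r := EqK K
  iseqv := ⟨EqK.refl K, EqK.symm, EqK.trans⟩
  add' h h' := EqK.add h h'
  mul' h h' := EqK.mul h h'

/-- projection to the quotient -/
def pr (K : SG) : Fm →+* (eqc K).Quotient := (eqc K).mk'

theorem pr_eq {K : SG} {a b : Fm} : pr K a = pr K b ↔ EqK K a b := (eqc K).eq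

theorem pr_add_self {K : SG} (x : (eqc K).Quotient) : x + x = 0 := by
  obtain ⟨a, rfl⟩ := (eqc K).mk'_surjective x
  rw [← map_add, Fm.add_self, map_zero]

theorem d_mul_right {K : SG} {a b : Fm} (hb : EqK K b.d 0) : EqK K (a * b).d (a.d * b) := by
  rw [Fm.d_mul]
  have h := (EqK.refl K (a.d * b)).add ((EqK.refl K a).mul hb)
  simpa using h

theorem d_mul_left {K : SG} {a b : Fm} (ha : EqK K a.d 0) : EqK K (a * b).d (a * b.d) := by
  rw [Fm.d_mul]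
  have h := (ha.mul (EqK.refl K b)).add (EqK.refl K (a * b.d))
  simpa using h

theorem c1_zero_left (b : Fm) : (0 : Fm).c1 b = 0 := by
  have := Fm.c1_add_left 0 0 b
  simpa using this

theorem c1_zero_right (a : Fm) : a.c1 (0 : Fm) = 0 := by
  have := Fm.c1_add_right a 0 0
  simpa using this

theorem d_c1_cyc {K : SG} {a b : Fm} (ha : EqK K a.d 0) (hb : EqK K b.d 0) :
    EqK K (a.c1 b).d (a * b + b * a) := by
  rw [Fm.d_c1]
  have h1 : EqK K (a.d.c1 b) 0 := (ha.c1 (EqK.refl K b)).trans (EqK.of_eq K (c1_zero_left b))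
  have h2 : EqK K (a.c1 b.d) 0 := ((EqK.refl K a).c1 hb).trans (EqK.of_eq K (c1_zero_right a))
  have h3 := ((h1.add h2).add (EqK.refl K (a * b))).add (EqK.refl K (b * a))
  simpa using h3

variable {K : SG} (χ : Chr K) (w : Z K)

/-- property `P` of the ladder -/
def PP (j N : ℕ) : Prop := ∀ u : Fm, InM K χ (2 ^ j) u → EqK K u.d 0 →
  ∃ f : Fm, InM K χ (2 ^ j) f ∧ EqK K (u * w.1 ^ N) f.d

/-- property `S` of the ladder -/
def SS (j N : ℕ) : Prop := ∀ u : Fm, InM K χ (2 ^ j) u → EqK K u.d 0 →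
  ∃ f0 f1 : Fm, InM K χ (2 ^ j) f0 ∧ InM K χ (2 ^ j) f1 ∧ EqK K f1.d 0 ∧
    EqK K (u * w.1 ^ N) (f0.d + χ.h j * f1)

theorem cyc_pow (n : ℕ) : EqK K (w.1 ^ n).d 0 := ((Z K).pow_mem w.2 n).2

theorem inC_pow (n : ℕ) : w.1 ^ n ∈ InC K := ((Z K).pow_mem w.2 n).1

theorem iter {j N : ℕ} (hS : SS χ w j N) (i : ℕ) : ∀ u : Fm, InM K χ (2 ^ j) u → EqK K u.d 0 →
    ∃ f g : Fm, InM K χ (2 ^ j) f ∧ InM K χ (2 ^ j) g ∧ EqK K g.d 0 ∧
      EqK K (u * w.1 ^ (N * i)) (f.d + χ.h j ^ i * g) := by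
  induction i with
  | zero =>
    intro u hu hud
    obtain ⟨f0, f1, hf0, _, _, _⟩ := hS u hu hud
    have hz : InM K χ (2 ^ j) 0 := by
      have := InM.mul_inC hf0 (InC K).zero_mem
      simpa using this
    refine ⟨0, u, hz, hu, hud, EqK.of_eq K ?_⟩
    rw [Nat.mul_zero, pow_zero, mul_one, pow_zero, one_mul, Fm.d_zero, zero_add]
  | succ i ih =>
    intro u hu hud
    obtain ⟨f, g, hf, hg, hgd, e⟩ := ih u hu hud
    obtain ⟨f0, f1, hf0, hf1, hf1d, e'⟩ := hS g hg hgd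
    have hhi : χ.h j ^ i ∈ Z K := (Z K).pow_mem (χ.h_mem j) i
    refine ⟨f * w.1 ^ N + χ.h j ^ i * f0, f1,
      InM.add (InM.mul_inC hf (inC_pow w N)) (InM.inC_mul hhi.1 hf0), hf1, hf1d, ?_⟩
    have a1 : EqK K (f * w.1 ^ N).d (f.d * w.1 ^ N) := d_mul_right (cyc_pow w N)
    have a2 : EqK K (χ.h j ^ i * f0).d (χ.h j ^ i * f0.d) := d_mul_left hhi.2
    rw [← pr_eq] at e e' a1 a2 ⊢
    simp only [map_mul, map_add, map_pow, Fm.d_add] at e e' a1 a2 ⊢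
    rw [a1, a2, Nat.mul_succ, pow_add, ← mul_assoc, e, add_mul, mul_assoc, e', pow_succ]
    noncomm_ring

theorem S_to_P {j N : ℕ} (hh : IsNilpotent (cls K (χ.hz j) * cls K w)) (hS : SS χ w j N) :
    ∃ N', PP χ w j N' := by
  obtain ⟨e, he⟩ := hh
  rw [mul_pow, ← map_pow, ← map_pow, ← map_mul, cls_eq_zero] at he
  obtain ⟨b, hb, hbd⟩ := he
  have hbd' : EqK K (χ.h j ^ e * w.1 ^ e) b.d := hbd
  refine ⟨N * e + e, ?_⟩
  intro u hu hud
  obtain ⟨f, g, hf, hg, hgd, h⟩ := iter χ w hS e u hu hud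
  have hhi : χ.h j ^ e ∈ Z K := (Z K).pow_mem (χ.h_mem j) e
  refine ⟨f * w.1 ^ e + (b * g + χ.h j ^ e * g.c1 (w.1 ^ e)),
    InM.add (InM.mul_inC hf (inC_pow w e)) (InM.add (InM.inC_mul hb hg)
      (InM.inC_mul hhi.1 (InM.c1_inC hg (inC_pow w e)))), ?_⟩
  have a1 : EqK K (f * w.1 ^ e).d (f.d * w.1 ^ e) := d_mul_right (cyc_pow w e)
  have a2 : EqK K (b * g).d (b.d * g) := d_mul_right hgd
  have a3 : EqK K (χ.h j ^ e * g.c1 (w.1 ^ e)).d (χ.h j ^ e * (g.c1 (w.1 ^ e)).d) :=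
    d_mul_left hhi.2
  have a4 : EqK K (g.c1 (w.1 ^ e)).d (g * w.1 ^ e + w.1 ^ e * g) := d_c1_cyc hgd (cyc_pow w e)
  rw [← pr_eq] at h hbd' a1 a2 a3 a4 ⊢
  simp only [map_mul, map_add, map_pow, Fm.d_add] at h hbd' a1 a2 a3 a4 ⊢
  rw [a1, a2, a3, a4, ← hbd', pow_add, ← mul_assoc, h]
  have h2 := pr_add_self ((pr K) (χ.h j) ^ e * (pr K) w.1 ^ e * (pr K) g)
  have h3 : (pr K f.d + pr K (χ.h j) ^ e * pr K g) * pr K w.1 ^ e =
      pr K f.d * pr K w.1 ^ e + (pr K (χ.h j) ^ e * (pr K g * pr K w.1 ^ e)) := by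
    noncomm_ring
  have h4 : pr K f.d * pr K w.1 ^ e + (pr K (χ.h j) ^ e * pr K w.1 ^ e * pr K g +
      pr K (χ.h j) ^ e * (pr K g * pr K w.1 ^ e + pr K w.1 ^ e * pr K g)) =
      pr K f.d * pr K w.1 ^ e + (pr K (χ.h j) ^ e * (pr K g * pr K w.1 ^ e)) +
      (pr K (χ.h j) ^ e * pr K w.1 ^ e * pr K g +
        pr K (χ.h j) ^ e * pr K w.1 ^ e * pr K g) := by
    noncomm_ring
  rw [h3, h4, h2, add_zero]

theorem P_to_S {j N : ℕ} (hP : PP χ w (j + 1) N) : SS χ w j N := by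
  intro u hu hud
  obtain ⟨f, hf, e⟩ := hP u (InM.mono (Nat.pow_le_pow_right (by norm_num) (Nat.le_succ j)) hu) hud
  obtain ⟨f0, f1, hf0, hf1, hf1d, e'⟩ := InM.split (InM.mul_inC hu (inC_pow w N)) hf e.symm
  exact ⟨f0, f1, hf0, hf1, hf1d, e'⟩

theorem start {F : Fm} {D J : ℕ} (hF : InM K χ D F) (hd : EqK K F.d w.1) (hJ : D ≤ 2 ^ J) :
    SS χ w J 1 := by
  intro u hu hud
  have huF : InM K χ (2 ^ (J + 1)) (u * F) := by
    refine InM.mono ?_ (InM.mul hu hF)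
    rw [pow_succ]
    omega
  have e : EqK K (u * F).d (u * w.1 ^ 1) := by
    rw [pow_one]
    exact (d_mul_left hud).trans ((EqK.refl K u).mul hd)
  obtain ⟨f0, f1, hf0, hf1, hf1d, e'⟩ := InM.split (InM.mul_inC hu (inC_pow w 1)) huF e
  exact ⟨f0, f1, hf0, hf1, hf1d, e'⟩

theorem down (hh : ∀ j, IsNilpotent (cls K (χ.hz j) * cls K w)) (J : ℕ) :
    (∃ N, PP χ w J N) → ∃ N, PP χ w 0 N := by
  induction J with
  | zero => exact id
  | succ J ih =>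
    rintro ⟨N, hN⟩
    exact ih (S_to_P χ w (hh J) (P_to_S χ w hN))

end LB

/-- If `w` becomes a coboundary in equivariant `R[X]`-valued cochains and all `h_j w` are
nilpotent, then `w` is nilpotent.
Proof: `P j N`: for every cocycle `u` of degree `< 2 ^ j` there is `f` of degree `< 2 ^ j` with
`u * w ^ N = d f` on `K`.
`S j N`: for every cocycle `u` of degree `< 2 ^ j` there are `f0`, and a cocycle `f1`, of degree
`< 2 ^ j`, with `u * w ^ N = d f0 + h_j * f1` on `K`.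
`S j N → ∃ N', P j N'`: iterate `S` `e` times: `u * w ^ (N e) = d f + h_j ^ e * f_e`; multiply by
`w ^ e` on the right, commute `f_e * w ^ e = w ^ e * f_e + d (f_e cup1 w ^ e)`, and use
`h_j ^ e * w ^ e = d b` on `K`.
`P (j + 1) N → S j N` by `InM.split`;  `S J 1` for `2 ^ J ≥ D` by `InM.split` applied to
`d (u * F) = u * w`;  `P 0 N` for `u = 1` gives the result. -/
theorem ladder {K : SG} (χ : Chr K) (w : Z K)
    (hh : ∀ j, IsNilpotent (cls K (χ.hz j) * cls K w))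
    (F : Fm) (D : ℕ) (hF : InM K χ D F) (hd : EqK K F.d w.1) : IsNilpotent (cls K w) := by
  have hS : LB.SS χ w D 1 := LB.start χ w hF hd (Nat.lt_two_pow_self).le
  obtain ⟨N, hN⟩ := LB.down χ w hh D (LB.S_to_P χ w (hh D) hS)
  obtain ⟨f, hf, e⟩ := hN 1 (by rw [pow_zero]; exact InM.one)
    (by rw [Fm.d_one]; exact EqK.refl K 0)
  rw [pow_zero] at hf
  rw [← nilp_iff]
  refine ⟨N, f, InM.inC hf, ?_⟩
  rw [one_mul] at e
  exact e

end

end Pool.Agent.H8.NP
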