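import Pool.Agent.H8.NP.Fam

/-! Module NLM of project MP_9cbe1e_gt: the relation obtained from the cup-one square of
`a^e b` (`a`, `b` classes of characters), and the nilpotence of all products `a_k b_j` when
`a_k b_k = 0` for all `k`. -/

namespace Pool.Agent.H8.NP

open Finset Polynomial

noncomputable section

/-- cup-one product with `h_j` is the commutator with the potential -/
theorem nlm_c1 {K : SG} (χ : Chr K) (j : ℕ) (z : Fm) :
    (χ.h j).c1 z = χ.pot j * z + z * χ.pot j := Fm.ext' fun i => by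
  have e1 : ((χ.h j).c1 z).1 i = TC.cup1 (TC.d ((χ.pot j).1 i)) (z.1 i) := rfl
  have e2 : (χ.pot j).1 i = TC.deg0 (fun g => C (χ.t i g ^ (2 ^ j))) := rfl
  have e3 : (χ.pot j * z + z * χ.pot j).1 i = (χ.pot j).1 i * z.1 i + z.1 i * (χ.pot j).1 i := rfl
  rw [e1, e3, e2]
  exact TC.cup1_d_deg0 (fun g => C (χ.t i g ^ (2 ^ j))) (z.1 i)

theorem nlm_deg0_mul {V A : Type*} [CommRing A] (α β : V → A) :
    TC.deg0 α * TC.deg0 β = TC.deg0 (fun g => α g * β g) := by
  ext n x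
  rw [TC.mul_apply]
  rcases n with _ | n
  · simp [TC.deg0]
  · rw [TC.deg0, if_neg (Nat.succ_ne_zero n)]
    refine Finset.sum_eq_zero fun p hp => ?_
    rw [HasAntidiagonal.mem_antidiagonal] at hp
    by_cases h : p.1 = 0
    · have : p.2 ≠ 0 := by omega
      simp [TC.deg0, this]
    · simp [TC.deg0, h]

theorem nlm_pot_sq {K : SG} (χ : Chr K) (j : ℕ) : χ.pot j * χ.pot j = χ.pot (j + 1) :=
  Fm.ext' fun i => by
    rw [Fm.mul_val]
    refine (nlm_deg0_mul _ _).trans ?_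
    simp only [Chr.pot]
    congr 1
    funext g
    rw [← C_mul, ← pow_add]
    congr 2
    ring

theorem nlm_pot_comm {K : SG} (χ ψ : Chr K) (j l : ℕ) :
    χ.pot j * ψ.pot l = ψ.pot l * χ.pot j :=
  Fm.ext' fun i => by
    rw [Fm.mul_val, Fm.mul_val]
    refine (nlm_deg0_mul _ _).trans (Eq.trans ?_ (nlm_deg0_mul _ _).symm)
    congr 1
    funext g
    exact mul_comm _ _

/-- the commutator of the potential with `h_j` is `h_{j+1}` -/
theorem nlm_com_self {K : SG} (χ : Chr K) (j : ℕ) :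
    χ.pot j * χ.h j + χ.h j * χ.pot j = χ.h (j + 1) := by
  rw [Chr.h, Chr.h, ← nlm_pot_sq, Fm.d_mul, add_comm]

theorem nlm_com_swap {K : SG} (χ ψ : Chr K) (j l : ℕ) :
    χ.pot j * ψ.h l + ψ.h l * χ.pot j = ψ.pot l * χ.h j + χ.h j * ψ.pot l := by
  have h1 := Fm.d_mul (χ.pot j) (ψ.pot l)
  have h2 := Fm.d_mul (ψ.pot l) (χ.pot j)
  rw [nlm_pot_comm χ ψ j l, h2] at h1
  -- `S.d * T + S * T.d = T.d * S + T * S.d`
  rw [← sub_eq_zero, Fm.sub_eq]
  have h3 : (ψ.pot l).d * χ.pot j + ψ.pot l * (χ.pot j).d +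
      ((χ.pot j).d * ψ.pot l + χ.pot j * (ψ.pot l).d) = 0 := by
    rw [h1, Fm.add_self]
  rw [Chr.h, Chr.h]
  calc _ = (ψ.pot l).d * χ.pot j + ψ.pot l * (χ.pot j).d +
      ((χ.pot j).d * ψ.pot l + χ.pot j * (ψ.pot l).d) := by abel
    _ = 0 := h3

/-- the operator `x ↦ ∑ a^i x a^(e-1-i)` -/
def nlmW {R : Type*} [Ring R] (a : R) (e : ℕ) (x : R) : R :=
  ∑ i ∈ range e, a ^ i * x * a ^ (e - 1 - i)

theorem nlmW_succ {R : Type*} [Ring R] (a : R) (e : ℕ) (x : R) :
    nlmW a (e + 1) x = nlmW a e x * a + a ^ e * x := by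
  rw [nlmW, nlmW, Finset.sum_range_succ, Finset.sum_mul]
  congr 1
  · refine Finset.sum_congr rfl fun i hi => ?_
    rw [Finset.mem_range] at hi
    rw [mul_assoc (a ^ i * x), ← pow_succ]
    congr 2
    omega
  · simp

theorem nlmW_add {R : Type*} [Ring R] (a : R) (e : ℕ) (x y : R) :
    nlmW a e (x + y) = nlmW a e x + nlmW a e y := by
  rw [nlmW, nlmW, nlmW, ← Finset.sum_add_distrib]
  refine Finset.sum_congr rfl fun i _ => ?_
  rw [mul_add, add_mul]

theorem nlmW_pow {R : Type*} [Ring R] (a : R) (e k : ℕ) (x : R) :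
    nlmW a e (a ^ k * x) = a ^ k * nlmW a e x := by
  rw [nlmW, nlmW, Finset.mul_sum]
  refine Finset.sum_congr rfl fun i _ => ?_
  rw [← mul_assoc, ← pow_add, ← mul_assoc, ← mul_assoc, ← pow_add, add_comm]

theorem nlmW_comm {R : Type*} [CommRing R] (a : R) (e : ℕ) (x : R) :
    nlmW a e x = (e : R) * a ^ (e - 1) * x := by
  rw [nlmW]
  have : ∀ i ∈ range e, a ^ i * x * a ^ (e - 1 - i) = a ^ (e - 1) * x := by
    intro i hi
    rw [Finset.mem_range] at hi
    rw [mul_right_comm, ← pow_add]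
    congr 2
    omega
  rw [Finset.sum_congr rfl this, Finset.sum_const, Finset.card_range, nsmul_eq_mul, mul_assoc]

theorem nlmW_map {R S : Type*} [Ring R] [Ring S] (f : R →+* S) (a : R) (e : ℕ) (x : R) :
    f (nlmW a e x) = nlmW (f a) e (f x) := by
  rw [nlmW, nlmW, map_sum]
  refine Finset.sum_congr rfl fun i _ => ?_
  rw [map_mul, map_mul, map_pow, map_pow]

/-- a derivation evaluated on a power -/
theorem nlm_der {R : Type*} [Ring R] (D : R → R) (hD : ∀ x y, D (x * y) = x * D y + D x * y)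
    (a : R) (e : ℕ) : D (a ^ e) = nlmW a e (D a) := by
  induction e with
  | zero =>
    have h := hD 1 1
    rw [mul_one, one_mul, mul_one] at h
    have h1 : D 1 = 0 := by
      have : D 1 + D 1 = D 1 + 0 := by rw [add_zero, ← h]
      exact add_left_cancel this
    rw [pow_zero, h1, nlmW, Finset.sum_range_zero]
  | succ e ih => rw [pow_succ, hD, ih, nlmW_succ, add_comm]

theorem nlm_inner {R : Type*} [Ring R] (h2 : ∀ x : R, x + x = 0) (T x y : R) :
    T * (x * y) + x * y * T = x * (T * y + y * T) + (T * x + x * T) * y := by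
  have h := h2 (x * (T * y))
  rw [mul_add, add_mul]
  simp only [mul_assoc]
  calc T * (x * y) + x * (y * T) = T * (x * y) + x * (y * T) + 0 := by rw [add_zero]
    _ = T * (x * y) + x * (y * T) + (x * (T * y) + x * (T * y)) := by rw [h]
    _ = _ := by abel

/-- the cup-one square of `a^e b` -/
theorem nlm_sq {K : SG} (χ ψ : Chr K) (j l e : ℕ) :
    (χ.h j ^ e * ψ.h l).c1 (χ.h j ^ e * ψ.h l) =
      nlmW (χ.h j) e (nlmW (χ.h j) e (χ.h (j + 1)) * ψ.h l) * ψ.h l +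
        χ.h j ^ (2 * e) * ψ.h (l + 1) := by
  set a := χ.h j with ha
  set b := ψ.h l with hb
  set T := χ.pot j with hT
  set S := ψ.pot l with hS
  set m := S * a + a * S with hm
  have hTa : T * a + a * T = χ.h (j + 1) := nlm_com_self χ j
  have hSb : S * b + b * S = ψ.h (l + 1) := nlm_com_self ψ l
  have hTb : T * b + b * T = m := nlm_com_swap χ ψ j l
  have hderT : ∀ x y : Fm, (T * (x * y) + x * y * T) =
      x * (T * y + y * T) + (T * x + x * T) * y := nlm_inner Fm.add_self T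
  have hderS : ∀ x y : Fm, (S * (x * y) + x * y * S) =
      x * (S * y + y * S) + (S * x + x * S) * y := nlm_inner Fm.add_self S
  set c := a ^ e * b with hc
  have hTc : T * c + c * T = nlmW a e (χ.h (j + 1)) * b + a ^ e * m := by
    rw [hc, hderT, hTb, nlm_der (fun x => T * x + x * T) hderT a e, hTa, add_comm]
  have hSc : S * c + c * S = nlmW a e m * b + a ^ e * ψ.h (l + 1) := by
    rw [hc, hderS, hSb, nlm_der (fun x => S * x + x * S) hderS a e, add_comm]
  have h1 : c.c1 c = a ^ e * (S * c + c * S) + nlmW a e (T * c + c * T) * b := by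
    conv_lhs => rw [hc]
    rw [← hc, Fm.c1_mul, nlm_der (fun x => x.c1 c) (fun x y => Fm.c1_mul x y c) a e,
      ha, hb, nlm_c1, nlm_c1]
  rw [h1, hTc, hSc, nlmW_add a e (nlmW a e (χ.h (j + 1)) * b) (a ^ e * m), nlmW_pow, two_mul,
    pow_add]
  have h2 := Fm.add_self (a ^ e * nlmW a e m * b)
  calc a ^ e * (nlmW a e m * b + a ^ e * ψ.h (l + 1)) +
      (nlmW a e (nlmW a e (χ.h (j + 1)) * b) + a ^ e * nlmW a e m) * b
      = nlmW a e (nlmW a e (χ.h (j + 1)) * b) * b + a ^ e * a ^ e * ψ.h (l + 1) +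
        (a ^ e * nlmW a e m * b + a ^ e * nlmW a e m * b) := by
        rw [mul_add, add_mul]; simp only [← mul_assoc]; abel
    _ = _ := by rw [h2, add_zero]

/-- the cup-one square of a coboundary is a coboundary -/
theorem nlm_c1_bd {K : SG} {c : Fm} (h : Bd K c) : Bd K (c.c1 c) := by
  obtain ⟨f, hf, he⟩ := h
  refine ⟨f.c1 f.d + f * f, (InC K).add_mem (InC.c1 hf (InC.d hf)) ((InC K).mul_mem hf hf), ?_⟩
  refine (he.c1 he).trans (EqK.of_eq K ?_)
  rw [Fm.d_add, Fm.d_c1, Fm.d_mul, Fm.d_d]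
  have h0 : f.c1 0 = 0 := by
    have := Fm.c1_add_right f 0 0
    simpa using this
  rw [h0, add_zero]
  have h1 := Fm.add_self (f * f.d)
  have h2 := Fm.add_self (f.d * f)
  calc f.d.c1 f.d = f.d.c1 f.d + (f * f.d + f * f.d) + (f.d * f + f.d * f) := by
        rw [h1, h2, add_zero, add_zero]
    _ = _ := by abel

/-- Sq^e (a^e b) = a^(2e) b' + e a^(2e-2) a' b^2 for the classes `a = χ_j`, `a' = χ_{j+1}`,
`b = ψ_l`, `b' = ψ_{l+1}` of powers of characters -/
theorem relQ {K : SG} (χ ψ : Chr K) (j l e : ℕ) (he : 1 ≤ e)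
    (h : cls K (χ.hz j) ^ e * cls K (ψ.hz l) = 0) :
    cls K (χ.hz j) ^ (2 * e) * cls K (ψ.hz (l + 1)) +
      (e : H K) * cls K (χ.hz j) ^ (2 * e - 2) * cls K (χ.hz (j + 1)) * cls K (ψ.hz l) ^ 2 = 0 := by
  rw [← map_pow, ← map_mul, cls_eq_zero] at h
  have h1 : Bd K (χ.h j ^ e * ψ.h l) := h
  have h2 := nlm_c1_bd h1
  rw [nlm_sq] at h2
  -- lift to the ring of cocycles
  set w : Z K := nlmW (χ.hz j) e (nlmW (χ.hz j) e (χ.hz (j + 1)) * ψ.hz l) * ψ.hz l +
    χ.hz j ^ (2 * e) * ψ.hz (l + 1) with hw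
  have h3 : w.1 = nlmW (χ.h j) e (nlmW (χ.h j) e (χ.h (j + 1)) * ψ.h l) * ψ.h l +
      χ.h j ^ (2 * e) * ψ.h (l + 1) := by
    have h4 := nlmW_map (Z K).subtype (χ.hz j) e (nlmW (χ.hz j) e (χ.hz (j + 1)) * ψ.hz l)
    have h5 := nlmW_map (Z K).subtype (χ.hz j) e (χ.hz (j + 1))
    rw [map_mul, h5] at h4
    have h6 : w.1 = (Z K).subtype (nlmW (χ.hz j) e (nlmW (χ.hz j) e (χ.hz (j + 1)) * ψ.hz l)) *
        ψ.h l + χ.h j ^ (2 * e) * ψ.h (l + 1) := rfl
    rw [h6, h4]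
    rfl
  rw [← h3, ← cls_eq_zero, hw, map_add, map_mul, nlmW_map, map_mul, nlmW_map, map_mul, map_pow,
    nlmW_comm, nlmW_comm] at h2
  have h7 : ((e : H K)) * e = e := by
    have h8 : ((e * e - e : ℕ) : H K) = 0 := by
      have h9 : Even (e * e - e) := by
        have : e * e - e = e * (e - 1) := by rw [Nat.mul_sub, mul_one]
        rw [this]
        exact Nat.even_mul_pred_self e
      obtain ⟨r, hr⟩ := h9
      rw [hr, Nat.cast_add, H.add_self]
    have h10 : ((e * e : ℕ) : H K) = ((e * e - e : ℕ) : H K) + e := by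
      rw [← Nat.cast_add, Nat.sub_add_cancel (Nat.le_mul_self e)]
    rw [← Nat.cast_mul, h10, h8, zero_add]
  have h11 : cls K (χ.hz j) ^ (2 * e - 2) = cls K (χ.hz j) ^ (e - 1) * cls K (χ.hz j) ^ (e - 1) := by
    rw [← pow_add]
    congr 1
    omega
  rw [h11]
  calc _ = (e : H K) * cls K (χ.hz j) ^ (e - 1) * (↑e * cls K (χ.hz j) ^ (e - 1) *
        cls K (χ.hz (j + 1)) * cls K (ψ.hz l)) * cls K (ψ.hz l) +
        cls K (χ.hz j) ^ (2 * e) * cls K (ψ.hz (l + 1)) := by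
        conv_lhs => rw [← h7]
        ring
    _ = 0 := h2

theorem nlm_pow {K : SG} (χ ψ : Chr K) (h0 : ∀ k, cls K (χ.hz k) * cls K (ψ.hz k) = 0) (k : ℕ) :
    ∀ j, k ≤ j → ∃ e, 1 ≤ e ∧ cls K (χ.hz k) ^ e * cls K (ψ.hz j) = 0 := by
  intro j hj
  induction j, hj using Nat.le_induction with
  | base => exact ⟨1, le_rfl, by rw [pow_one]; exact h0 k⟩
  | succ j hj ih =>
    obtain ⟨e, he, h⟩ := ih
    have h1 := relQ χ ψ k j e he h
    refine ⟨2 * e + 2, by omega, ?_⟩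
    have h2 : cls K (χ.hz k) ^ (2 * e - 2) * cls K (χ.hz k) ^ 2 =
        cls K (χ.hz k) ^ e * cls K (χ.hz k) ^ e := by
      rw [← pow_add, ← pow_add]
      congr 1
      omega
    calc cls K (χ.hz k) ^ (2 * e + 2) * cls K (ψ.hz (j + 1))
        = cls K (χ.hz k) ^ 2 * (cls K (χ.hz k) ^ (2 * e) * cls K (ψ.hz (j + 1)) +
          (e : H K) * cls K (χ.hz k) ^ (2 * e - 2) * cls K (χ.hz (k + 1)) * cls K (ψ.hz j) ^ 2) -
          (e : H K) * (cls K (χ.hz k) ^ (2 * e - 2) * cls K (χ.hz k) ^ 2) *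
            cls K (χ.hz (k + 1)) * cls K (ψ.hz j) ^ 2 := by ring
      _ = - ((e : H K) * (cls K (χ.hz k) ^ e) *
            cls K (χ.hz (k + 1)) * cls K (ψ.hz j)) *
            (cls K (χ.hz k) ^ e * cls K (ψ.hz j)) := by rw [h1, h2]; ring
      _ = 0 := by rw [h, mul_zero]

theorem nlm_nil {K : SG} {a b : H K} {e : ℕ} (he : 1 ≤ e) (h : a ^ e * b = 0) :
    IsNilpotent (a * b) := by
  refine ⟨e, ?_⟩
  rw [mul_pow]
  obtain ⟨r, rfl⟩ : ∃ r, e = r + 1 := ⟨e - 1, by omega⟩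
  rw [pow_succ b, mul_comm (b ^ r), ← mul_assoc, h, zero_mul]

theorem nlm {K : SG} (χ ψ : Chr K) (h0 : ∀ k, cls K (χ.hz k) * cls K (ψ.hz k) = 0) (k j : ℕ) :
    IsNilpotent (cls K (χ.hz k) * cls K (ψ.hz j)) := by
  rcases le_total k j with h | h
  · obtain ⟨e, he, h1⟩ := nlm_pow χ ψ h0 k j h
    exact nlm_nil he h1
  · obtain ⟨e, he, h1⟩ := nlm_pow ψ χ (fun k => by rw [mul_comm]; exact h0 k) j k h
    rw [mul_comm]
    exact nlm_nil he h1

end

end Pool.Agent.H8.NP
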