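import Mathlib

/-!
Total cochains on the full simplex with vertex set `V` and values in a commutative ring `A`:
the component of degree `n` is a function of a sequence of vertices (in applications it depends on
`x 0, ..., x n` only, see `Dep`).  Multiplication is the cup product, `d` the coboundary (without
signs: everything is used in characteristic two), `cup1` the cup-one product.
-/

namespace Pool.Agent.H8.NP

open Finset

/-- skip the `j`-th natural number -/
def skip (j k : ℕ) : ℕ := if k < j then k else k + 1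

/-- `jump i q` is the sequence `0, ..., i, i + q, i + q + 1, ...` -/
def jump (i q k : ℕ) : ℕ := if k ≤ i then k else k + q - 1

/-- total cochains -/
def TC (V A : Type*) := ℕ → (ℕ → V) → A

namespace TC

variable {V A : Type*} [CommRing A]

instance : AddCommGroup (TC V A) := inferInstanceAs (AddCommGroup (ℕ → (ℕ → V) → A))

instance : One (TC V A) := ⟨fun n _ => if n = 0 then 1 else 0⟩

instance : Mul (TC V A) :=
  ⟨fun a b n x => ∑ p ∈ antidiagonal n, a p.1 x * b p.2 (fun k => x (k + p.1))⟩

theorem mul_apply (a b : TC V A) (n : ℕ) (x : ℕ → V) :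
    (a * b) n x = ∑ p ∈ antidiagonal n, a p.1 x * b p.2 (fun k => x (k + p.1)) := rfl

theorem one_apply (n : ℕ) (x : ℕ → V) : (1 : TC V A) n x = if n = 0 then 1 else 0 := rfl

theorem add_apply (a b : TC V A) (n : ℕ) (x : ℕ → V) : (a + b) n x = a n x + b n x := rfl

theorem neg_apply (a : TC V A) (n : ℕ) (x : ℕ → V) : (-a) n x = - a n x := rfl

theorem zero_apply (n : ℕ) (x : ℕ → V) : (0 : TC V A) n x = 0 := rfl

omit [CommRing A] in
@[ext] theorem ext {a b : TC V A} (h : ∀ n x, a n x = b n x) : a = b :=
  funext fun n => funext fun x => h n x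

protected theorem mul_assoc' (a b c : TC V A) : a * b * c = a * (b * c) := by
  ext n x
  simp only [mul_apply, Finset.sum_mul, Finset.mul_sum, Finset.sum_sigma']
  apply Finset.sum_nbij' (fun ⟨⟨_i, j⟩, ⟨k, l⟩⟩ ↦ ⟨(k, l + j), (l, j)⟩)
    (fun ⟨⟨i, _j⟩, ⟨k, l⟩⟩ ↦ ⟨(i + k, l), (i, k)⟩)
  · rintro ⟨⟨i, j⟩, ⟨k, l⟩⟩; simp; omega
  · rintro ⟨⟨i, j⟩, ⟨k, l⟩⟩; simp; omega
  · rintro ⟨⟨i, j⟩, ⟨k, l⟩⟩; simp
  · rintro ⟨⟨i, j⟩, ⟨k, l⟩⟩; simp
  · rintro ⟨⟨i, j⟩, ⟨k, l⟩⟩ h
    simp at h
    obtain ⟨h1, h2⟩ := h
    subst h2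
    simp only [mul_assoc]
    congr 3
    funext t
    congr 1
    omega

instance : Ring (TC V A) :=
  { (inferInstance : AddCommGroup (TC V A)) with
    mul := (· * ·)
    one := 1
    mul_assoc := TC.mul_assoc'
    one_mul := by
      intro a; ext n x
      rw [mul_apply, Finset.sum_eq_single (0, n)]
      · simp [one_apply]
      · rintro ⟨i, j⟩ h hne
        simp at h
        have : i ≠ 0 := by rintro rfl; exact hne (by simp at h; simp [h])
        simp [one_apply, this]
      · intro h; simp at h
    mul_one := by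
      intro a; ext n x
      rw [mul_apply, Finset.sum_eq_single (n, 0)]
      · simp [one_apply]
      · rintro ⟨i, j⟩ h hne
        simp at h
        have : j ≠ 0 := by rintro rfl; exact hne (by simp at h; simp [h])
        simp [one_apply, this]
      · intro h; simp at h
    zero_mul := by intro a; ext n x; simp [mul_apply, zero_apply]
    mul_zero := by intro a; ext n x; simp [mul_apply, zero_apply]
    left_distrib := by
      intro a b c; ext n x
      simp [mul_apply, add_apply, mul_add, Finset.sum_add_distrib]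
    right_distrib := by
      intro a b c; ext n x
      simp [mul_apply, add_apply, add_mul, Finset.sum_add_distrib]
    }

/-- the coboundary (without signs) -/
def d (a : TC V A) : TC V A
  | 0, _ => 0
  | n + 1, x => ∑ j ∈ range (n + 2), a n (fun k => x (skip j k))

theorem d_zero_apply (a : TC V A) (x : ℕ → V) : d a 0 x = 0 := rfl

theorem d_succ_apply (a : TC V A) (n : ℕ) (x : ℕ → V) :
    d a (n + 1) x = ∑ j ∈ range (n + 2), a n (fun k => x (skip j k)) := rfl

/-- the component of degree `n` depends on `x 0, ..., x n` only -/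
def Dep (a : TC V A) : Prop :=
  ∀ (n : ℕ) (x y : ℕ → V), (∀ i, i ≤ n → x i = y i) → a n x = a n y

/-- the cup-one product -/
def cup1 (a b : TC V A) : TC V A := fun n x =>
  ∑ p ∈ antidiagonal (n + 1), ∑ i ∈ range p.1,
    a p.1 (fun k => x (jump i p.2 k)) * b p.2 (fun k => x (k + i))

theorem cup1_apply (a b : TC V A) (n : ℕ) (x : ℕ → V) :
    cup1 a b n x = ∑ p ∈ antidiagonal (n + 1), ∑ i ∈ range p.1,
      a p.1 (fun k => x (jump i p.2 k)) * b p.2 (fun k => x (k + i)) := rfl

/-- a function on the vertices as a cochain of degree zero -/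
def deg0 (α : V → A) : TC V A := fun n x => if n = 0 then α (x 0) else 0

/-- `y 0, ..., y i, x i, x (i + 1), ...` -/
def mix (i : ℕ) (x y : ℕ → V) (k : ℕ) : V := if k ≤ i then y k else x (k - 1)

/-- the prism operator -/
def prism (a : TC V A) : TC (V × V) A := fun n z =>
  ∑ i ∈ range (n + 1), a (n + 1) (mix i (fun k => (z k).1) (fun k => (z k).2))

theorem prism_apply (a : TC V A) (n : ℕ) (z : ℕ → V × V) :
    prism a n z =
      ∑ i ∈ range (n + 1), a (n + 1) (mix i (fun k => (z k).1) (fun k => (z k).2)) := rfl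

/-- pull-back along a map of vertex sets -/
def pull {W : Type*} (f : W → V) (a : TC V A) : TC W A := fun n x => a n (fun k => f (x k))

end TC

end Pool.Agent.H8.NP
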