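import Pool.Agent.H8.NP.Fam

/-! Module TER of project MP_9cbe1e_gt: the deformation lemma. -/

namespace Pool.Agent.H8.NP

open Finset Polynomial

noncomputable section

/-- pull-back along Frobenius -/
def Fm.P0 (z : Fm) : Fm :=
  ⟨fun i n x => z.1 i n (fun k => G.frob (x k)), by
    refine ⟨fun i j φ n x => ?_, fun i n x y h => ?_, ?_⟩
    · simp only [G.frob_map]
      exact z.2.1 i j φ n (fun k => G.frob (x k))
    · exact z.2.2.1 i n _ _ (fun k hk => by rw [h k hk])
    · obtain ⟨N, hN⟩ := z.2.2.2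
      exact ⟨N, fun n hn i x => hN n hn i _⟩⟩

section ter

variable {R : Type} [CommRing R] [Algebra (ZMod 2) R]

theorem ter_mul_c (a b : G R) (h : ∀ j i, 1 ≤ j → 1 ≤ i → a.c j ^ (2 ^ i) * b.c i = 0) (k : ℕ)
    (hk : 1 ≤ k) : (a * b).c k = a.c k + b.c k := by
  rw [G.mul_c]
  have hsub : ({(k, 0), (0, k)} : Finset (ℕ × ℕ)) ⊆ antidiagonal k := by
    intro p hp
    simp at hp
    rcases hp with rfl | rfl <;> simp
  rw [← Finset.sum_subset hsub, Finset.sum_pair (by simp; omega)]
  · simp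
  · rintro ⟨j, l⟩ hjl hne
    simp only [HasAntidiagonal.mem_antidiagonal] at hjl
    simp only [mem_insert, mem_singleton, Prod.mk.injEq, not_or] at hne
    dsimp only
    have hj : 1 ≤ j := by
      by_contra hj
      have : j = 0 := by omega
      subst this
      exact hne.2 ⟨rfl, by omega⟩
    have hl : 1 ≤ l := by
      by_contra hl
      have : l = 0 := by omega
      subst this
      exact hne.1 ⟨by omega, rfl⟩
    exact h j l hj hl

/-- the subgroup `H` -/
def TerH (M : ℕ) (a : G R) : Prop := ∀ k, 1 ≤ k → (k ≤ M → a.c k = 0) ∧ a.c k ^ (2 ^ M) = 0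

theorem ter_pow_zero {M i : ℕ} {v : R} (h : v ^ (2 ^ M) = 0) (hi : M ≤ i) : v ^ (2 ^ i) = 0 := by
  have e : (2 : ℕ) ^ i = 2 ^ M * 2 ^ (i - M) := by rw [← pow_add]; congr 1; omega
  rw [e, pow_mul, h, zero_pow (by positivity)]

theorem TerH.mul_c {M : ℕ} {a b : G R} (ha : TerH M a) (hb : TerH M b) (k : ℕ) (hk : 1 ≤ k) :
    (a * b).c k = a.c k + b.c k := by
  apply ter_mul_c _ _ _ k hk
  intro j i hj hi
  by_cases h : i ≤ M
  · rw [(hb i hi).1 h, mul_zero]
  · rw [ter_pow_zero (ha j hj).2 (by omega), zero_mul]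

theorem TerH.c1 {M : ℕ} {a : G R} (ha : TerH M a) : a.c 1 = 0 := by
  rcases Nat.eq_zero_or_pos M with h | h
  · subst h
    simpa using (ha 1 le_rfl).2
  · exact (ha 1 le_rfl).1 h

/-- the map `θ` -/
def terTheta (N : ℕ) (g : G R) : G R :=
  ⟨fun k => if k = 0 then 1 else if k ≤ N then g.c k ^ 2 else 0, by simp⟩

theorem terTheta_c (N : ℕ) (g : G R) (k : ℕ) :
    (terTheta N g).c k = if k = 0 then 1 else if k ≤ N then g.c k ^ 2 else 0 := rfl

theorem terTheta_mem {N m : ℕ} (hm : 1 ≤ m) {g : G R} (hg : g ∈ G.KS m (N + 1) R) :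
    TerH (m - 1) (terTheta N g) := by
  intro k hk
  obtain ⟨h1, h2⟩ := hg k hk
  rw [terTheta_c, if_neg (by omega)]
  constructor
  · intro hkm
    rw [h1 (by omega)]
    simp
  · split_ifs with h
    · have e : (2 : ℕ) ^ m = 2 * 2 ^ (m - 1) := by
        rw [← pow_succ']; congr 1; omega
      rw [← pow_mul, ← e]
      exact h2 (by omega)
    · exact zero_pow (by positivity)

theorem terTheta_mul {N m : ℕ} (hm : 1 ≤ m) {g h : G R} (hg : g ∈ G.KS m (N + 1) R)
    (hh : h ∈ G.KS m (N + 1) R) : terTheta N (g * h) = terTheta N g * terTheta N h := by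
  ext k
  rcases Nat.eq_zero_or_pos k with hk | hk
  · subst hk; simp
  · have hk0 : ¬ k = 0 := by omega
    rw [(terTheta_mem hm hg).mul_c (terTheta_mem hm hh) k hk, terTheta_c, terTheta_c, terTheta_c]
    simp only [if_neg hk0]
    split_ifs with h'
    · rw [G.KS_mul_c hm hg hh k hk (by omega)]
      simpa using add_pow2 (g.c k) (h.c k) 1
    · rw [add_zero]

/-- the map `ψ` -/
def terPsi (a : G R) : G (Polynomial R) :=
  ⟨fun k => if k = 0 then 1 else C (a.c k) + C (a.c (k + 1)) * X ^ (2 ^ (k + 1)), by simp⟩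

/-- the map `χ` -/
def terChi (a : G R) : G (Polynomial R) :=
  ⟨fun k => if k = 0 then 1 else
    C (a.c (k + 1)) * X ^ (2 ^ (k + 1)) + C (a.c k ^ 2) * X ^ (2 ^ (k + 1) - 2), by simp⟩

theorem terPsi_c (a : G R) (k : ℕ) (hk : 1 ≤ k) :
    (terPsi a).c k = C (a.c k) + C (a.c (k + 1)) * X ^ (2 ^ (k + 1)) := by
  show (if k = 0 then 1 else C (a.c k) + C (a.c (k + 1)) * X ^ (2 ^ (k + 1))) = _
  rw [if_neg (by omega)]

theorem terChi_c (a : G R) (k : ℕ) (hk : 1 ≤ k) :
    (terChi a).c k = C (a.c (k + 1)) * X ^ (2 ^ (k + 1)) + C (a.c k ^ 2) * X ^ (2 ^ (k + 1) - 2) := by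
  show (if k = 0 then 1 else
    C (a.c (k + 1)) * X ^ (2 ^ (k + 1)) + C (a.c k ^ 2) * X ^ (2 ^ (k + 1) - 2)) = _
  rw [if_neg (by omega)]

theorem terPsi_mul {M : ℕ} {a b : G R} (ha : TerH M a) (hb : TerH M b) :
    terPsi (a * b) = terPsi a * terPsi b := by
  ext1
  funext k
  rcases Nat.eq_zero_or_pos k with hk | hk
  · subst hk; simp
  · rw [ter_mul_c (terPsi a) (terPsi b) _ k hk, terPsi_c _ k hk, terPsi_c _ k hk, terPsi_c _ k hk,
      ha.mul_c hb k hk, ha.mul_c hb (k + 1) (by omega), C_add, C_add]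
    · ring
    · intro j i hj hi
      rw [terPsi_c _ j hj, terPsi_c _ i hi]
      by_cases h : i < M
      · rw [(hb i hi).1 (by omega), (hb (i + 1) (by omega)).1 (by omega)]
        simp
      · rw [add_pow2, mul_pow, ← C_pow, ← C_pow, ter_pow_zero (ha j hj).2 (by omega),
          ter_pow_zero (ha (j + 1) (by omega)).2 (by omega)]
        simp

theorem ter_mul_sec (A : G R) (v : R) (n : ℕ) :
    (A * G.sec 1 le_rfl v).c (n + 1) = A.c (n + 1) + A.c n ^ 2 * v := by
  rw [G.mul_c]
  have hsub : ({(n + 1, 0), (n, 1)} : Finset (ℕ × ℕ)) ⊆ antidiagonal (n + 1) := by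
    intro p hp
    simp at hp
    rcases hp with rfl | rfl <;> simp
  rw [← Finset.sum_subset hsub, Finset.sum_pair (by simp)]
  · simp [G.sec_c_self]
  · rintro ⟨j, l⟩ hjl hne
    simp only [HasAntidiagonal.mem_antidiagonal] at hjl
    simp only [mem_insert, mem_singleton, Prod.mk.injEq, not_or] at hne
    dsimp only
    rw [G.sec_c_ne 1 le_rfl v l, mul_zero]
    · rintro rfl
      exact hne.1 ⟨by omega, rfl⟩
    · rintro rfl
      exact hne.2 ⟨by omega, rfl⟩

theorem ter_sec_mul (B : G R) (v : R) (n : ℕ) :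
    (G.sec 1 le_rfl v * B).c (n + 1) = B.c (n + 1) + v ^ (2 ^ n) * B.c n := by
  rw [G.mul_c]
  have hsub : ({(0, n + 1), (1, n)} : Finset (ℕ × ℕ)) ⊆ antidiagonal (n + 1) := by
    intro p hp
    simp at hp
    rcases hp with rfl | rfl <;> simp [add_comm]
  rw [← Finset.sum_subset hsub, Finset.sum_pair (by simp)]
  · simp [G.sec_c_self]
  · rintro ⟨j, l⟩ hjl hne
    simp only [HasAntidiagonal.mem_antidiagonal] at hjl
    simp only [mem_insert, mem_singleton, Prod.mk.injEq, not_or] at hne
    dsimp only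
    rw [G.sec_c_ne 1 le_rfl v j, zero_pow (by positivity), zero_mul]
    · rintro rfl
      exact hne.1 ⟨rfl, by omega⟩
    · rintro rfl
      exact hne.2 ⟨rfl, by omega⟩

open LaurentPolynomial in
theorem ter_key {M : ℕ} {a : G R} (ha : TerH M a) :
    G.map (toLaurent : R[X] →+* LaurentPolynomial R) (terPsi a) *
        G.sec 1 le_rfl (T (-2) : LaurentPolynomial R)
      = G.sec 1 le_rfl (T (-2) : LaurentPolynomial R) *
        G.map (toLaurent : R[X] →+* LaurentPolynomial R) (terChi a) := by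
  ext1
  funext k
  rcases k with _ | n
  · simp
  · rw [ter_mul_sec, ter_sec_mul]
    simp only [G.map_c]
    rw [terPsi_c _ (n + 1) (by omega), terChi_c _ (n + 1) (by omega)]
    rcases Nat.eq_zero_or_pos n with hn | hn
    · subst hn
      rw [zero_add, ha.c1]
      simp
    · rw [terPsi_c _ n hn, terChi_c _ n hn]
      have hsq : (toLaurent (Polynomial.C (a.c n) + Polynomial.C (a.c (n + 1)) * X ^ (2 ^ (n + 1))) :
            LaurentPolynomial R) ^ 2
          = (toLaurent (Polynomial.C (a.c n) : R[X])) ^ 2 +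
            (toLaurent (Polynomial.C (a.c (n + 1)) : R[X])) ^ 2 *
              (T ((2 ^ (n + 1) : ℕ) : ℤ) : LaurentPolynomial R) ^ 2 := by
        rw [map_add, map_mul, toLaurent_X_pow]
        have := add_pow2 (toLaurent (Polynomial.C (a.c n) : R[X]))
          (toLaurent (Polynomial.C (a.c (n + 1)) : R[X]) *
            (T ((2 ^ (n + 1) : ℕ) : ℤ) : LaurentPolynomial R)) 1
        rw [pow_one] at this
        rw [this, mul_pow]
      rw [hsq]
      simp only [map_add, map_mul, map_pow, toLaurent_X, T_pow, mul_one]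
      have hc1 : ((2 ^ (n + 1 + 1) - 2 : ℕ) : ℤ) = 2 ^ (n + 1 + 1) - 2 := by
        have : 2 ≤ 2 ^ (n + 1 + 1) := by
          calc 2 = 2 ^ 1 := by norm_num
            _ ≤ 2 ^ (n + 1 + 1) := Nat.pow_le_pow_right (by norm_num) (by omega)
        push_cast [Nat.cast_sub this]
        ring
      have hc2 : ((2 ^ (n + 1) - 2 : ℕ) : ℤ) = 2 ^ (n + 1) - 2 := by
        have : 2 ≤ 2 ^ (n + 1) := by
          calc 2 = 2 ^ 1 := by norm_num
            _ ≤ 2 ^ (n + 1) := Nat.pow_le_pow_right (by norm_num) (by omega)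
        push_cast [Nat.cast_sub this]
        ring
      rw [hc1, hc2]
      have t1 : (T ((2 : ℕ) * ((2 ^ (n + 1) : ℕ) : ℤ)) : LaurentPolynomial R) * T (-2)
          = T (2 ^ (n + 1 + 1) - 2) := by
        rw [← T_add]; congr 1; push_cast; ring
      have t2 : (T (((2 ^ n : ℕ) : ℤ) * (-2)) : LaurentPolynomial R) * T ((2 ^ (n + 1) : ℕ) : ℤ)
          = 1 := by
        rw [← T_add, ← T_zero]; congr 1; push_cast; ring
      have t3 : (T (((2 ^ n : ℕ) : ℤ) * (-2)) : LaurentPolynomial R) * T (2 ^ (n + 1) - 2)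
          = T (-2) := by
        rw [← T_add]; congr 1; push_cast; ring
      linear_combination ((toLaurent (Polynomial.C (a.c (n + 1)) : R[X])) ^ 2) * t1 -
        (toLaurent (Polynomial.C (a.c (n + 1)) : R[X])) * t2 -
        ((toLaurent (Polynomial.C (a.c n) : R[X])) ^ 2) * t3

end ter

theorem ter_toLaurent_coeff {R : Type} [CommRing R] (P : R[X]) :
    (toLaurent P).coeff (0 : ℤ) = P.coeff 0 := by
  induction P using Polynomial.induction_on' with
  | add p q hp hq =>
    rw [map_add, coeff_add, ← hp, ← hq]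
    rfl
  | monomial n r =>
    rw [← C_mul_X_pow_eq_monomial, toLaurent_C_mul_X_pow, coeff_C_mul_X_pow,
      ← LaurentPolynomial.single_eq_C_mul_T]
    rw [AddMonoidAlgebra.coeff_single, Finsupp.single_apply]
    by_cases h : n = 0
    · subst h; simp
    · rw [if_neg (by exact_mod_cast h), if_neg (fun h' => h h'.symm)]

theorem ter_comp {R R' : Type} [CommRing R] [CommRing R'] (φ : R →+* R') :
    (toLaurent : R'[X] →+* LaurentPolynomial R').comp (Polynomial.mapRingHom φ)
      = (AddMonoidAlgebra.mapRingHom ℤ φ).comp (toLaurent : R[X] →+* LaurentPolynomial R) := by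
  apply Polynomial.ringHom_ext
  · intro r
    simp only [RingHom.comp_apply, coe_mapRingHom, map_C, toLaurent_C]
    rw [← LaurentPolynomial.single_eq_C, ← LaurentPolynomial.single_eq_C]
    exact (AddMonoidAlgebra.mapRingHom_single φ 0 r).symm
  · simp only [RingHom.comp_apply, coe_mapRingHom, map_X, toLaurent_X]
    have := (AddMonoidAlgebra.mapRingHom_single φ (1 : ℤ) 1).symm
    rw [map_one] at this
    exact this

/-- the ring of Laurent polynomials -/
def terL (i : A2) : A2 := ⟨LaurentPolynomial i.R⟩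

/-- the ring of polynomials -/
def terP (i : A2) : A2 := ⟨Polynomial i.R⟩

/-- the induced map of the rings of Laurent polynomials -/
def terPhi {i j : A2} (φ : i.R →+* j.R) : (terL i).R →+* (terL j).R :=
  AddMonoidAlgebra.mapRingHom ℤ φ

/-- the coefficient of `ε ^ 0` -/
def terC (i : A2) : (terL i).R →+ i.R where
  toFun f := AddMonoidAlgebra.coeff (R := i.R) (M := ℤ) f 0
  map_zero' := rfl
  map_add' _ _ := rfl

theorem terC_map {i j : A2} (φ : i.R →+* j.R) (f : (terL i).R) :
    terC j (terPhi φ f) = φ (terC i f) := AddMonoidAlgebra.coeff_mapRingHom φ f 0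

/-- extraction of the coefficient of `ε ^ 0` -/
def terExt (i : A2) : Polynomial (terL i).R →+ Polynomial i.R where
  toFun P := C (terC i (P.coeff 0))
  map_zero' := by simp
  map_add' P Q := by
    rw [coeff_add, map_add, C_add]

theorem terExt_apply (i : A2) (P : Polynomial (terL i).R) :
    terExt i P = C (terC i (P.coeff 0)) := rfl

/-- the pair of elements of `G (R[ε, ε⁻¹])` -/
def terW (N : ℕ) (i : A2) (g : G i.R) : G (terL i).R × G (terL i).R :=
  (G.map (toLaurent : i.R[X] →+* LaurentPolynomial i.R) (terPsi (terTheta N g)),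
    G.map (toLaurent : i.R[X] →+* LaurentPolynomial i.R) (terPsi (terTheta N g)) *
      G.sec 1 le_rfl (LaurentPolynomial.T (-2) : LaurentPolynomial i.R))

theorem terW_nat (N : ℕ) (i j : A2) (φ : i.R →+* j.R) (g : G i.R) :
    (terW N j (G.map φ g)).1 = G.map (terPhi φ) (terW N i g).1 ∧
      (terW N j (G.map φ g)).2 = G.map (terPhi φ) (terW N i g).2 := by
  have h1 : terTheta N (G.map φ g) = G.map φ (terTheta N g) := by
    ext k
    rw [G.map_c, terTheta_c, terTheta_c, G.map_c]
    split_ifs <;> simp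
  have h2 : terPsi (G.map φ (terTheta N g)) = G.map (Polynomial.mapRingHom φ)
      (terPsi (terTheta N g)) := by
    ext1
    funext k
    rcases Nat.eq_zero_or_pos k with hk | hk
    · subst hk; simp
    · rw [G.map_c, terPsi_c _ k hk, terPsi_c _ k hk, G.map_c, G.map_c]
      simp
  have h3 : G.map (toLaurent : j.R[X] →+* LaurentPolynomial j.R)
      (terPsi (terTheta N (G.map φ g))) = G.map (R := LaurentPolynomial i.R)
        (R' := LaurentPolynomial j.R) (AddMonoidAlgebra.mapRingHom ℤ φ)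
        (G.map (toLaurent : i.R[X] →+* LaurentPolynomial i.R) (terPsi (terTheta N g))) := by
    rw [h1, h2, G.map_map, G.map_map, ter_comp]
  have h4 : G.map (R := LaurentPolynomial i.R)
        (R' := LaurentPolynomial j.R) (AddMonoidAlgebra.mapRingHom ℤ φ)
        (G.sec 1 le_rfl (LaurentPolynomial.T (-2) : LaurentPolynomial i.R)) =
      G.sec 1 le_rfl (LaurentPolynomial.T (-2) : LaurentPolynomial j.R) := by
    ext1
    funext k
    rw [G.map_c, G.sec_c, G.sec_c]
    have h5 := (AddMonoidAlgebra.mapRingHom_single φ (-2 : ℤ) 1)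
    rw [map_one] at h5
    split_ifs
    · exact map_one _
    · exact h5
    · exact map_zero _
  refine ⟨h3, ?_⟩
  show G.map (toLaurent : j.R[X] →+* LaurentPolynomial j.R)
      (terPsi (terTheta N (G.map φ g))) *
      G.sec 1 le_rfl (LaurentPolynomial.T (-2) : LaurentPolynomial j.R) =
    G.map (R := LaurentPolynomial i.R) (R' := LaurentPolynomial j.R)
      (AddMonoidAlgebra.mapRingHom ℤ φ)
      (G.map (toLaurent : i.R[X] →+* LaurentPolynomial i.R) (terPsi (terTheta N g)) *
      G.sec 1 le_rfl (LaurentPolynomial.T (-2) : LaurentPolynomial i.R))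
  rw [map_mul, h3, h4]

theorem ter_mix_map {V W : Type*} (f : V → W) (i : ℕ) (x y : ℕ → V) :
    TC.mix i (fun k => f (x k)) (fun k => f (y k)) = fun k => f (TC.mix i x y k) := by
  funext k
  unfold TC.mix
  split_ifs <;> rfl

/-- the homotopy -/
def terB (z : Fm) (N : ℕ) : Fm :=
  ⟨fun i n x => terExt i (TC.prism (z.1 (terL i)) n (fun k => terW N i (x k))), by
    refine ⟨fun i j φ n x => ?_, fun i n x y h => ?_, ?_⟩
    · have e1 : TC.prism (z.1 (terL j)) n (fun k => terW N j (G.map φ (x k)))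
          = (TC.prism (z.1 (terL i)) n (fun k => terW N i (x k))).map (terPhi φ) := by
        rw [TC.prism_apply, TC.prism_apply, Polynomial.map_sum]
        refine Finset.sum_congr rfl fun l _ => ?_
        have e2 : (fun k => (terW N j (G.map φ (x k))).1) = fun k =>
            G.map (terPhi φ) (terW N i (x k)).1 :=
          funext fun k => (terW_nat N i j φ (x k)).1
        have e3 : (fun k => (terW N j (G.map φ (x k))).2) = fun k =>
            G.map (terPhi φ) (terW N i (x k)).2 :=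
          funext fun k => (terW_nat N i j φ (x k)).2
        rw [e2, e3, ter_mix_map]
        exact z.2.1 (terL i) (terL j) (terPhi φ) (n + 1) _
      show terExt j (TC.prism (z.1 (terL j)) n (fun k => terW N j (G.map φ (x k)))) =
        (terExt i (TC.prism (z.1 (terL i)) n (fun k => terW N i (x k)))).map φ
      rw [e1, terExt_apply, terExt_apply, map_C, Polynomial.coeff_map, terC_map]
    · show terExt i (TC.prism (z.1 (terL i)) n (fun k => terW N i (x k))) =
        terExt i (TC.prism (z.1 (terL i)) n (fun k => terW N i (y k)))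
      congr 1
      apply TC.Dep.prism (z.2.2.1 (terL i))
      intro k hk
      rw [h k hk]
    · obtain ⟨L, hL⟩ := z.2.2.2
      refine ⟨L, fun n hn i x => ?_⟩
      show terExt i (TC.prism (z.1 (terL i)) n (fun k => terW N i (x k))) = 0
      rw [TC.prism_apply, Finset.sum_eq_zero, map_zero]
      intro l _
      exact hL (n + 1) (by omega) _ _⟩

/-- the constant cochain -/
def terV (z : Fm) : Fm :=
  ⟨fun i n _ => z.1 i (n + 1) (fun _ => 1), by
    refine ⟨fun i j φ n x => ?_, fun i n x y h => rfl, ?_⟩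
    · have := z.2.1 i j φ (n + 1) (fun _ => 1)
      simp only [map_one] at this
      exact this
    · obtain ⟨L, hL⟩ := z.2.2.2
      exact ⟨L, fun n hn i x => hL (n + 1) (by omega) _ _⟩⟩

theorem ter_all (j : A2) (g : G j.R) : g ∈ (KM 0 0).S j := by
  intro i _
  exact ⟨fun h => absurd h (by omega), fun h => absurd h (by omega)⟩

/-- inclusion of polynomials in Laurent polynomials -/
def terI (i : A2) : (terP i).R →+* (terL i).R := (toLaurent : i.R[X] →+* LaurentPolynomial i.R)

/-- evaluation at zero -/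
def terE (i : A2) : (terP i).R →+* i.R := (evalRingHom 0 : i.R[X] →+* i.R)

theorem terC_I (i : A2) (P : (terP i).R) : terC i (terI i P) = terE i P := by
  have h1 : terC i (terI i P) = Polynomial.coeff (R := i.R) P 0 := ter_toLaurent_coeff (R := i.R) P
  rw [h1, coeff_zero_eq_eval_zero]
  rfl

theorem ter_ext_map {z : Fm} (hz : z ∈ Z (KM 0 0)) (i : A2) (n : ℕ) (y : ℕ → G (terP i).R) :
    terExt i (z.1 (terL i) n (fun k => G.map (terI i) (y k))) =
      z.1 i n (fun k => G.map (terE i) (y k)) := by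
  have h1 := z.2.1 (terP i) (terL i) (terI i) n y
  have h2 := z.2.1 (terP i) i (terE i) n y
  have h3 := hz.1.2 i n (fun k => G.map (terE i) (y k)) (fun k => ter_all i _)
  rw [h3, h1, h2, terExt_apply, Polynomial.coeff_map, Polynomial.coeff_map, terC_I]

theorem ter_psi0 (i : A2) (a : G i.R) : G.map (terE i) (terPsi a : G (terP i).R) = a := by
  ext k
  rw [G.map_c]
  rcases Nat.eq_zero_or_pos k with hk | hk
  · subst hk
    rw [G.c0, G.c0]
    exact map_one (terE i)
  · have h1 : (terPsi a : G (terP i).R).c k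
      = (C (a.c k) + C (a.c (k + 1)) * X ^ (2 ^ (k + 1)) : i.R[X]) := terPsi_c a k hk
    rw [h1]
    show eval 0 (C (a.c k) + C (a.c (k + 1)) * X ^ (2 ^ (k + 1)) : i.R[X]) = a.c k
    simp

theorem ter_chi0 (i : A2) (a : G i.R) : G.map (terE i) (terChi a : G (terP i).R) = 1 := by
  ext k
  rw [G.map_c]
  rcases Nat.eq_zero_or_pos k with hk | hk
  · subst hk
    rw [G.c0]
    exact map_one (terE i)
  · have h1 : (terChi a : G (terP i).R).c k
      = (C (a.c (k + 1)) * X ^ (2 ^ (k + 1)) + C (a.c k ^ 2) * X ^ (2 ^ (k + 1) - 2) : i.R[X]) :=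
      terChi_c a k hk
    rw [h1, G.one_c, if_neg (by omega)]
    show eval 0 (C (a.c (k + 1)) * X ^ (2 ^ (k + 1)) + C (a.c k ^ 2) * X ^ (2 ^ (k + 1) - 2) :
      i.R[X]) = 0
    have h2 : 2 ^ (k + 1) - 2 ≠ 0 := by
      have : 2 ^ 2 ≤ 2 ^ (k + 1) := Nat.pow_le_pow_right (by norm_num) (by omega)
      omega
    simp [h2]

theorem terW_mul (N m : ℕ) (hm : 1 ≤ m) (i : A2) {g h : G i.R} (hg : g ∈ (KM m (N + 1)).S i)
    (hh : h ∈ (KM m (N + 1)).S i) :
    (terW N i (g * h)).1 = (terW N i g).1 * (terW N i h).1 ∧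
      (terW N i (g * h)).2 = (terW N i g).1 * (terW N i h).2 := by
  have h1 : terPsi (terTheta N (g * h)) = terPsi (terTheta N g) * terPsi (terTheta N h) := by
    rw [terTheta_mul hm hg hh, terPsi_mul (terTheta_mem hm hg) (terTheta_mem hm hh)]
  have h2 : G.map (toLaurent : i.R[X] →+* LaurentPolynomial i.R) (terPsi (terTheta N (g * h)))
      = G.map (toLaurent : i.R[X] →+* LaurentPolynomial i.R) (terPsi (terTheta N g)) *
        G.map (toLaurent : i.R[X] →+* LaurentPolynomial i.R) (terPsi (terTheta N h)) := by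
    rw [h1, map_mul]
  refine ⟨h2, ?_⟩
  show G.map (toLaurent : i.R[X] →+* LaurentPolynomial i.R) (terPsi (terTheta N (g * h))) * _ =
    G.map (toLaurent : i.R[X] →+* LaurentPolynomial i.R) (terPsi (terTheta N g)) *
      (G.map (toLaurent : i.R[X] →+* LaurentPolynomial i.R) (terPsi (terTheta N h)) * _)
  rw [h2, mul_assoc]

theorem terB_mem {z : Fm} (hz : z ∈ Z (KM 0 0)) (N m : ℕ) (hm : 1 ≤ m) :
    terB z N ∈ InC (KM m (N + 1)) := by
  constructor
  · intro i n x g hg hx
    show terExt i (TC.prism (z.1 (terL i)) n (fun k => terW N i (g * x k))) =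
      terExt i (TC.prism (z.1 (terL i)) n (fun k => terW N i (x k)))
    congr 1
    rw [TC.prism_apply, TC.prism_apply]
    refine Finset.sum_congr rfl fun l _ => ?_
    have e2 : (fun k => (terW N i (g * x k)).1) = fun k => (terW N i g).1 * (terW N i (x k)).1 :=
      funext fun k => (terW_mul N m hm i hg (hx k)).1
    have e3 : (fun k => (terW N i (g * x k)).2) = fun k => (terW N i g).1 * (terW N i (x k)).2 :=
      funext fun k => (terW_mul N m hm i hg (hx k)).2
    rw [e2, e3, ter_mix_map (fun v => (terW N i g).1 * v)]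
    exact hz.1.1 (terL i) (n + 1) _ _ (ter_all _ _) (fun k => ter_all _ _)
  · intro i n x _
    show terExt i (TC.prism (z.1 (terL i)) n (fun k => terW N i (x k))) =
      C ((terExt i (TC.prism (z.1 (terL i)) n (fun k => terW N i (x k)))).coeff 0)
    rw [terExt_apply, coeff_C_zero]

theorem terV_mem {z : Fm} (hz : z ∈ Z (KM 0 0)) (K : SG) : terV z ∈ InC K := by
  constructor
  · intro i n x g hg hx
    rfl
  · intro i n x _
    exact hz.1.2 i (n + 1) (fun _ => 1) (fun k => ter_all _ _)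

theorem terV_d {z : Fm} (hz : z ∈ Z (KM 0 0))
    (h0 : ∀ (i : A2) (x : ℕ → G i.R), z.1 i 0 x = 0) (i : A2) (n : ℕ) (x : ℕ → G i.R) :
    (terV z).d.1 i n x = z.1 i n (fun _ => 1) := by
  rw [Fm.d_val]
  rcases n with _ | n
  · rw [TC.d_zero_apply, h0]
  · rw [TC.d_succ_apply]
    have h1 := hz.2 i (n + 2) (fun _ => 1) (fun k => ter_all _ _)
    rw [Fm.d_val, TC.d_succ_apply, Fm.zero_val, TC.zero_apply] at h1
    rw [Finset.sum_const] at h1
    show ∑ j ∈ range (n + 2), z.1 i (n + 1) (fun _ => 1) = _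
    rw [Finset.sum_const]
    rw [card_range] at h1 ⊢
    rw [show n + 1 + 2 = (n + 2) + 1 from rfl, succ_nsmul] at h1
    exact eq_of_add0 h1

theorem terB_d {z : Fm} (hz : z ∈ Z (KM 0 0)) (N m : ℕ) (hm : 1 ≤ m) (i : A2) (n : ℕ)
    (x : ℕ → G i.R) (hx : (KM m (N + 1)).Sq x) :
    (terB z N).d.1 i n x = z.1 i n (fun k => terTheta N (x k)) + z.1 i n (fun _ => 1) := by
  have h1 := TC.d_prism (z.2.2.1 (terL i))
  have h2 := congrFun (congrFun h1 n) (fun k => terW N i (x k))
  rw [TC.add_apply, TC.add_apply] at h2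
  have h3 : TC.prism (TC.d (z.1 (terL i))) n (fun k => terW N i (x k)) = 0 := by
    rw [TC.prism_apply]
    apply Finset.sum_eq_zero
    intro l _
    exact hz.2 (terL i) (n + 1) _ (fun k => ter_all _ _)
  rw [h3, add_zero] at h2
  have h4 : (terB z N).d.1 i n x =
      terExt i (TC.d (TC.prism (z.1 (terL i))) n (fun k => terW N i (x k))) := by
    rw [Fm.d_val]
    rcases n with _ | n
    · rw [TC.d_zero_apply, TC.d_zero_apply, map_zero]
    · rw [TC.d_succ_apply, TC.d_succ_apply, map_sum]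
      rfl
  rw [h4, h2, map_add]
  have h5 : terExt i (TC.pull Prod.fst (z.1 (terL i)) n (fun k => terW N i (x k)))
      = z.1 i n (fun k => terTheta N (x k)) := by
    have e1 := ter_ext_map hz i n (fun k => (terPsi (terTheta N (x k)) : G (terP i).R))
    have e2 : (fun k => G.map (terE i) (terPsi (terTheta N (x k)) : G (terP i).R))
        = fun k => terTheta N (x k) := funext fun k => ter_psi0 i _
    rw [e2] at e1
    exact e1
  have h6 : terExt i (TC.pull Prod.snd (z.1 (terL i)) n (fun k => terW N i (x k)))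
      = z.1 i n (fun _ => 1) := by
    have e1 := ter_ext_map hz i n (fun k => (terChi (terTheta N (x k)) : G (terP i).R))
    have e2 : (fun k => G.map (terE i) (terChi (terTheta N (x k)) : G (terP i).R))
        = fun _ => 1 := funext fun k => ter_chi0 i _
    rw [e2] at e1
    rw [← e1]
    congr 1
    have e3 : (fun k => (terW N i (x k)).2) = fun k =>
        (G.sec 1 le_rfl (LaurentPolynomial.T (-2) : LaurentPolynomial i.R) : G (terL i).R) *
          G.map (terI i) (terChi (terTheta N (x k)) : G (terP i).R) := by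
      funext k
      exact ter_key (terTheta_mem hm (hx k))
    show z.1 (terL i) n (fun k => (terW N i (x k)).2) = _
    rw [e3]
    exact hz.1.1 (terL i) n _ _ (ter_all _ _) (fun k => ter_all _ _)
  rw [h5, h6]

theorem ter_P0 {z : Fm} (N m : ℕ) (hm : 1 ≤ m)
    (hN : ∀ (i : A2) (n : ℕ) (x y : ℕ → G i.R),
      (∀ k l, l ≤ N → ((x 0)⁻¹ * x k).c l = ((y 0)⁻¹ * y k).c l) → z.1 i n x = z.1 i n y)
    (i : A2) (n : ℕ) (x : ℕ → G i.R) (hx : (KM m (N + 1)).Sq x) :
    z.P0.1 i n x = z.1 i n (fun k => terTheta N (x k)) := by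
  show z.1 i n (fun k => G.frob (x k)) = _
  apply hN
  intro k l hl
  have e1 : (G.frob (x 0))⁻¹ * G.frob (x k) = G.frob ((x 0)⁻¹ * x k) := by
    rw [map_mul, map_inv]
  have hmem : (x 0)⁻¹ * x k ∈ (KM m (N + 1)).S i :=
    Subgroup.mul_mem _ (Subgroup.inv_mem _ (hx 0)) (hx k)
  have e2 : (terTheta N (x 0))⁻¹ * terTheta N (x k) = terTheta N ((x 0)⁻¹ * x k) := by
    rw [inv_mul_eq_iff_eq_mul, ← terTheta_mul hm (hx 0) hmem, mul_inv_cancel_left]
  rw [e1, e2, G.frob_c, terTheta_c]
  rcases Nat.eq_zero_or_pos l with h | h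
  · subst h; simp
  · rw [if_neg (by omega), if_pos hl]

/-- Deformation lemma: `z` a cocycle on `G` without component of degree zero which only involves
the coordinates `≤ N`; then `P0 z` is a coboundary on `KM m (N + 1)` (for every `m ≥ 1`).
Proof. Put `M = m - 1`.  For `g` in `KM m (N + 1)` let `θ g` have coordinates `g_k ^ 2` for
`m ≤ k ≤ N`, and `0` for the other `k ≥ 1`.  It is a homomorphism (use `G.KS_mul_c`) into
`H = {a_k = 0 (1 ≤ k ≤ M), a_k ^ (2 ^ M) = 0 (k > M)}`, on which the group law is addition of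
coordinates; `P0 z (x) = z (θ x)`.
In `G (R[ε, ε⁻¹])` (Laurent polynomials) put, for `a ∈ H`,
`ψ(a)_k = a_k + a_{k+1} ε ^ (2 ^ (k+1))`, `χ(a)_k = a_{k+1} ε ^ (2 ^ (k+1)) + a_k ^ 2 ε ^ (2 ^ (k+1) - 2)`
for `k ≥ 1`, and `g = sec 1 (ε ⁻²)`.  Then `ψ` is multiplicative on `H` and `ψ(a) * g = g * χ(a)`.
The prism operator for the sequences `ψ(h_k)` and `ψ(h_k) g` gives
`z(ψ h) + z(ψ(h) g) = d(..)`, `z (ψ(h) g) = z(g χ(h)) = z(χ(h))`; take the coefficient of `ε ^ 0`:
`ψ`, `χ` have coefficients in `R[ε]`, at `ε = 0` they are `h` and `1`.  So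
`z(h) = d(coefficient of ε^0 of the prism) + z(1, 1, ...)`, and the constant cochain `z(1,1,...)` is
the coboundary of a constant cochain (`z` is a cocycle without component of degree `0`). -/
theorem terminal (z : Fm) (hz : z ∈ Z (KM 0 0)) (h0 : ∀ (i : A2) (x : ℕ → G i.R), z.1 i 0 x = 0)
    (N : ℕ)
    (hN : ∀ (i : A2) (n : ℕ) (x y : ℕ → G i.R),
      (∀ k l, l ≤ N → ((x 0)⁻¹ * x k).c l = ((y 0)⁻¹ * y k).c l) → z.1 i n x = z.1 i n y)
    (m : ℕ) (hm : 1 ≤ m) : Bd (KM m (N + 1)) z.P0 := by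
  refine ⟨terB z N + terV z, (InC _).add_mem (terB_mem hz N m hm) (terV_mem hz _), ?_⟩
  intro i n x hx
  rw [Fm.d_add, Fm.add_val, TC.add_apply, terB_d hz N m hm i n x hx, terV_d hz h0,
    ter_P0 N m hm hN i n x hx, add_assoc, add_self0, add_zero]

end

end Pool.Agent.H8.NP
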