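import Pool.Agent.H8.NP.Fam
import Pool.Agent.H8.NP.Ter
import Pool.Agent.H8.NP.Cobar

/-! Module TRAA of project MP_9cbe1e_gt: elements of the cobar complex as natural families. -/

namespace Pool.Agent.H8.NP

open Finset

noncomputable section

/-- the point of evaluation -/
def traa_pt (s : ℕ) {R : Type} [CommRing R] [Algebra (ZMod 2) R] (x : ℕ → G R) :
    Fin s × ℕ → R :=
  fun v => ((x (v.1 : ℕ))⁻¹ * x ((v.1 : ℕ) + 1)).c (v.2 + 1)

theorem traa_nat {R R' σ : Type} [CommRing R] [Algebra (ZMod 2) R] [CommRing R']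
    [Algebra (ZMod 2) R'] (φ : R →+* R') (f : σ → R) (z : MvPolynomial σ (ZMod 2)) :
    φ (MvPolynomial.aeval f z) = MvPolynomial.aeval (fun v => φ (f v)) z := by
  rw [MvPolynomial.map_aeval]
  have h : φ.comp (algebraMap (ZMod 2) R) = algebraMap (ZMod 2) R' := Subsingleton.elim _ _
  rw [h]
  rfl

theorem traa_map (s : ℕ) {R R' : Type} [CommRing R] [Algebra (ZMod 2) R] [CommRing R']
    [Algebra (ZMod 2) R'] (φ : R →+* R') (x : ℕ → G R) (v : Fin s × ℕ) :
    traa_pt s (fun k => G.map φ (x k)) v = φ (traa_pt s x v) := by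
  simp only [traa_pt]
  rw [← map_inv, ← map_mul, G.map_c]

/-- an element of the cobar complex as a family of homogeneous cochains: evaluate at the
coordinates of `(x j)⁻¹ * x (j + 1)` -/
def toFam (s : ℕ) (z : Cobar 2 s) : Fm :=
  ⟨fun i n x => if n = s then Polynomial.C (MvPolynomial.aeval
      (fun v : Fin s × ℕ => ((x (v.1 : ℕ))⁻¹ * x ((v.1 : ℕ) + 1)).c (v.2 + 1)) z : i.R) else 0, by
    refine ⟨?_, ?_, ?_⟩
    · intro i j φ n x
      by_cases h : n = s
      · simp only [if_pos h, Polynomial.map_C]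
        congr 1
        rw [traa_nat]
        congr 2
        funext v
        exact traa_map s φ x v
      · simp only [if_neg h, Polynomial.map_zero]
    · intro i n x y h
      by_cases hn : n = s
      · subst hn
        simp only [if_true]
        congr 3
        funext v
        have h1 := v.1.2
        rw [h _ (by omega), h _ (by omega)]
      · simp only [if_neg hn]
    · refine ⟨s + 1, fun n hn i x => ?_⟩
      simp only
      rw [if_neg (by omega)]⟩

theorem toFam_val (s : ℕ) (z : Cobar 2 s) (i : A2) (n : ℕ) (x : ℕ → G i.R) :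
    (toFam s z).1 i n x = if n = s then Polynomial.C (MvPolynomial.aeval
      (fun v : Fin s × ℕ => ((x (v.1 : ℕ))⁻¹ * x ((v.1 : ℕ) + 1)).c (v.2 + 1)) z : i.R) else 0 :=
  rfl

theorem traa_val (s : ℕ) (z : Cobar 2 s) (i : A2) (n : ℕ) (x : ℕ → G i.R) :
    (toFam s z).1 i n x =
      if n = s then Polynomial.C (MvPolynomial.aeval (traa_pt s x) z : i.R) else 0 :=
  rfl

theorem toFam_inC (s : ℕ) (z : Cobar 2 s) : toFam s z ∈ InC (KM 0 0) := by
  constructor
  · intro i n x g _ _
    rw [traa_val, traa_val]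
    have h : traa_pt s (fun k => g * x k) = traa_pt s x := by
      funext v
      simp only [traa_pt]
      congr 1
      group
    rw [h]
  · intro i n x _
    rw [traa_val]
    split_ifs
    · rw [Polynomial.coeff_C_zero]
    · rw [Polynomial.coeff_zero, map_zero]

theorem traa_xi {s : ℕ} {R : Type} [CommRing R] [Algebra (ZMod 2) R] (x : ℕ → G R) (j : Fin s)
    (n : ℕ) : MvPolynomial.aeval (traa_pt s x) (xi 2 j n) =
      ((x (j : ℕ))⁻¹ * x ((j : ℕ) + 1)).c n := by
  cases n with
  | zero => rw [xi, map_one, G.c0]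
  | succ n =>
    rw [xi, MvPolynomial.aeval_X]
    rfl

theorem traa_face (s : ℕ) {R : Type} [CommRing R] [Algebra (ZMod 2) R] (x : ℕ → G R)
    (i : Fin (s + 2)) (z : Cobar 2 s) :
    MvPolynomial.aeval (traa_pt (s + 1) x) (face 2 s i z) =
      MvPolynomial.aeval (traa_pt s (fun k => x (skip i k))) z := by
  have h : (MvPolynomial.aeval (traa_pt (s + 1) x)).comp (face 2 s i) =
      MvPolynomial.aeval (traa_pt s (fun k => x (skip i k))) := by
    apply MvPolynomial.algHom_ext
    intro v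
    rw [AlgHom.comp_apply, face, MvPolynomial.aeval_X, MvPolynomial.aeval_X]
    by_cases h1 : (v.1 : ℕ) + 1 < i
    · rw [if_pos h1, traa_xi]
      simp only [traa_pt, skip]
      rw [if_pos (by omega), if_pos h1]
      rfl
    · rw [if_neg h1]
      by_cases h2 : (v.1 : ℕ) + 1 = i
      · rw [if_pos h2]
        simp only [milnor, map_sum, map_mul, map_pow, traa_xi, traa_pt, skip]
        rw [if_pos (by omega), if_neg (by omega)]
        simp only [Fin.val_castSucc, Fin.val_succ]
        have h3 : (x (v.1 : ℕ))⁻¹ * x ((v.1 : ℕ) + 1 + 1) =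
            ((x (v.1 : ℕ))⁻¹ * x ((v.1 : ℕ) + 1)) *
              ((x ((v.1 : ℕ) + 1))⁻¹ * x ((v.1 : ℕ) + 1 + 1)) := by group
        rw [h3, G.mul_c]
      · rw [if_neg h2, traa_xi]
        simp only [traa_pt, skip]
        rw [if_neg (by omega), if_neg (by omega)]
        rfl
  rw [← h]
  rfl

theorem traa_neg1 {R : Type} [CommRing R] [Algebra (ZMod 2) R] (n : ℕ) : (-1 : R) ^ n = 1 := by
  rw [neg_eq_self0, one_pow]

theorem traa_dC (s : ℕ) {R : Type} [CommRing R] [Algebra (ZMod 2) R] (x : ℕ → G R)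
    (z : Cobar 2 s) :
    MvPolynomial.aeval (traa_pt (s + 1) x) (dC 2 s z) =
      ∑ j ∈ range (s + 2), MvPolynomial.aeval (traa_pt s (fun k => x (skip j k))) z := by
  rw [dC, map_sum, Finset.sum_range]
  refine Finset.sum_congr rfl (fun i _ => ?_)
  rw [map_mul, traa_face, map_pow, map_neg, map_one, traa_neg1, one_mul]

theorem toFam_d (s : ℕ) (z : Cobar 2 s) : (toFam s z).d = toFam (s + 1) (dC 2 s z) := by
  apply Fm.ext'
  intro i
  ext1 n x
  rw [Fm.d_val, traa_val]
  cases n with
  | zero => rw [TC.d_zero_apply, if_neg (by omega)]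
  | succ n =>
    rw [TC.d_succ_apply]
    by_cases h : n = s
    · subst h
      rw [if_pos rfl, traa_dC, map_sum]
      refine Finset.sum_congr rfl (fun j _ => ?_)
      rw [traa_val, if_pos rfl]
    · rw [if_neg (by omega)]
      refine Finset.sum_eq_zero (fun j _ => ?_)
      rw [traa_val, if_neg h]

theorem toFam_zero (s : ℕ) : toFam s 0 = 0 := by
  apply Fm.ext'
  intro i
  ext1 n x
  rw [traa_val, map_zero, map_zero, Fm.zero_val, TC.zero_apply, ite_self]

theorem toFam_mem_Z (s : ℕ) (z : Cobar 2 s) (hz : dC 2 s z = 0) : toFam s z ∈ Z (KM 0 0) := by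
  refine ⟨toFam_inC s z, ?_⟩
  rw [toFam_d, hz, toFam_zero]
  exact EqK.refl _ _

theorem toFam_cup {s t : ℕ} (u : Cobar 2 s) (v : Cobar 2 t) :
    toFam (s + t) (cup u v) = toFam s u * toFam t v := by
  apply Fm.ext'
  intro i
  ext1 n x
  rw [Fm.mul_val, TC.mul_apply, traa_val]
  by_cases h : n = s + t
  · subst h
    rw [if_pos rfl, Finset.sum_eq_single (s, t)]
    · rw [traa_val, traa_val, if_pos rfl, if_pos rfl, cup, map_mul, MvPolynomial.aeval_rename,
        MvPolynomial.aeval_rename, map_mul]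
      congr 1
      congr 3
      funext w
      simp only [Function.comp_apply, traa_pt, Fin.val_natAdd]
      have h1 : s + (w.1 : ℕ) = w.1 + s := by ring
      have h2 : s + (w.1 : ℕ) + 1 = w.1 + 1 + s := by ring
      rw [h1]
      have h3 : (w.1 : ℕ) + s + 1 = w.1 + 1 + s := by ring
      rw [h3]
    · rintro ⟨a, b⟩ hab hne
      have hab' := HasAntidiagonal.mem_antidiagonal.1 hab
      simp only at hab'
      by_cases ha : a = s
      · have hb : b ≠ t := by
          intro hb
          exact hne (by rw [ha, hb])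
        omega
      · rw [traa_val, if_neg ha, zero_mul]
    · intro h
      exfalso
      apply h
      rw [HasAntidiagonal.mem_antidiagonal]
  · rw [if_neg h]
    symm
    refine Finset.sum_eq_zero (fun p hp => ?_)
    have hp' := HasAntidiagonal.mem_antidiagonal.1 hp
    by_cases ha : p.1 = s
    · rw [traa_val t, if_neg (by omega), mul_zero]
    · rw [traa_val, if_neg ha, zero_mul]

theorem toFam_cpow {s : ℕ} (u : Cobar 2 s) (m : ℕ) :
    toFam (s * m) (cpow u m) = toFam s u ^ m := by
  induction m with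
  | zero =>
    rw [pow_zero]
    apply Fm.ext'
    intro i
    ext1 n x
    rw [traa_val, Fm.one_val, TC.one_apply, cpow, map_one, map_one, Nat.mul_zero]
  | succ m ih =>
    rw [pow_succ, ← ih, ← toFam_cup]
    rfl

theorem toFam_P0 {s : ℕ} (u : Cobar 2 s) : toFam s (P0 u) = (toFam s u).P0 := by
  apply Fm.ext'
  intro i
  ext1 n x
  have h1 : (toFam s u).P0.1 i n x = (toFam s u).1 i n (fun k => G.frob (x k)) := rfl
  rw [h1, traa_val, traa_val]
  have h2 : MvPolynomial.aeval (traa_pt s x) (P0 u) =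
      MvPolynomial.aeval (traa_pt s (fun k => G.frob (x k))) u := by
    have h : (MvPolynomial.aeval (traa_pt s x)).comp
        (MvPolynomial.aeval (fun v => (MvPolynomial.X v : Cobar 2 s) ^ 2)) =
        MvPolynomial.aeval (traa_pt s (fun k => G.frob (x k))) := by
      apply MvPolynomial.algHom_ext
      intro v
      rw [AlgHom.comp_apply, MvPolynomial.aeval_X, MvPolynomial.aeval_X, map_pow,
        MvPolynomial.aeval_X]
      simp only [traa_pt]
      rw [← map_inv, ← map_mul, G.frob_c]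
    rw [← h]
    rfl
  rw [h2]

theorem traa_P0_sq {s : ℕ} (u : Cobar 2 s) : P0 u = u ^ 2 := by
  have h : P0 u = MvPolynomial.expand 2 u := rfl
  rw [h]
  haveI : Fact (Nat.Prime 2) := ⟨Nat.prime_two⟩
  exact MvPolynomial.expand_zmod u

theorem dC_P0 {s : ℕ} (u : Cobar 2 s) (hu : dC 2 s u = 0) : dC 2 s (P0 u) = 0 := by
  rw [traa_P0_sq]
  have h1 : dC 2 s (u ^ 2) = (dC 2 s u) ^ (2 ^ 1) := by
    rw [dC, dC, sum_pow2]
    refine Finset.sum_congr rfl (fun i _ => ?_)
    rw [traa_neg1, one_mul, one_mul, map_pow, pow_one]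
  rw [h1, hu]
  simp

theorem traa_inv {R : Type} [CommRing R] [Algebra (ZMod 2) R] (a b : G R) (N : ℕ)
    (h : ∀ l, l ≤ N → a.c l = b.c l) : ∀ l, l ≤ N → (a⁻¹).c l = (b⁻¹).c l := by
  intro l
  induction l using Nat.strong_induction_on with
  | _ l ih =>
    intro hl
    cases l with
    | zero => rw [G.c0, G.c0]
    | succ l =>
      rw [G.inv_c_succ, G.inv_c_succ]
      refine Finset.sum_congr rfl (fun i hi => ?_)
      have hi' := Finset.mem_range.1 hi
      rw [ih i (by omega) (by omega), h _ (by omega)]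

theorem traa_mul {R : Type} [CommRing R] [Algebra (ZMod 2) R] (a b a' b' : G R) (N : ℕ)
    (h : ∀ l, l ≤ N → a.c l = b.c l) (h' : ∀ l, l ≤ N → a'.c l = b'.c l) :
    ∀ l, l ≤ N → (a * a').c l = (b * b').c l := by
  intro l hl
  rw [G.mul_c, G.mul_c]
  refine Finset.sum_congr rfl (fun p hp => ?_)
  have hp' := HasAntidiagonal.mem_antidiagonal.1 hp
  rw [h _ (by omega), h' _ (by omega)]

/-- only finitely many coordinates matter -/
theorem toFam_bound {s : ℕ} (u : Cobar 2 s) :
    ∃ N : ℕ, ∀ (i : A2) (n : ℕ) (x y : ℕ → G i.R),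
      (∀ k l, l ≤ N → ((x 0)⁻¹ * x k).c l = ((y 0)⁻¹ * y k).c l) →
      (toFam s u).1 i n x = (toFam s u).1 i n y := by
  classical
  refine ⟨u.vars.sup (fun v => v.2 + 1), ?_⟩
  intro i n x y h
  set N := u.vars.sup (fun v => v.2 + 1) with hN
  rw [traa_val, traa_val]
  have h1 : (MvPolynomial.aeval (traa_pt s x) u : i.R) = MvPolynomial.aeval (traa_pt s y) u := by
    have h2 := MvPolynomial.hom_congr_vars
      (f₁ := (MvPolynomial.aeval (traa_pt s x) : Cobar 2 s →ₐ[ZMod 2] i.R).toRingHom)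
      (f₂ := (MvPolynomial.aeval (traa_pt s y) : Cobar 2 s →ₐ[ZMod 2] i.R).toRingHom)
      (p₁ := u) (p₂ := u) (Subsingleton.elim _ _) ?_ rfl
    · exact h2
    · intro v hv _
      show MvPolynomial.aeval (traa_pt s x) (MvPolynomial.X v) =
        MvPolynomial.aeval (traa_pt s y) (MvPolynomial.X v)
      rw [MvPolynomial.aeval_X, MvPolynomial.aeval_X]
      have hvN : v.2 + 1 ≤ N := Finset.le_sup (f := fun v : Fin s × ℕ => v.2 + 1) hv
      have e : ∀ z : ℕ → G i.R, (z (v.1 : ℕ))⁻¹ * z ((v.1 : ℕ) + 1) =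
          ((z 0)⁻¹ * z (v.1 : ℕ))⁻¹ * ((z 0)⁻¹ * z ((v.1 : ℕ) + 1)) := by
        intro z
        group
      simp only [traa_pt]
      rw [e x, e y]
      exact traa_mul _ _ _ _ N (traa_inv _ _ N (fun l hl => h _ l hl)) (fun l hl => h _ l hl) _ hvN
  rw [h1]

end

end Pool.Agent.H8.NP
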