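import Pool.Agent.H8.NP.TraA

/-! Module TRAB of project MP_9cbe1e_gt: from families back to the cobar complex. -/

namespace Pool.Agent.H8.NP

open Finset

noncomputable section

/-- the universal group elements -/
def trab_g (M j : ℕ) : G (Cobar 2 M) := if h : j < M then ⟨xi 2 ⟨j, h⟩, rfl⟩ else 1

/-- the universal sequence -/
def trab_x (M : ℕ) : ℕ → G (Cobar 2 M)
  | 0 => 1
  | k + 1 => trab_x M k * trab_g M k

theorem trab_g_c {M j : ℕ} (h : j < M) (l : ℕ) : (trab_g M j).c l = xi 2 ⟨j, h⟩ l := by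
  unfold trab_g
  rw [dif_pos h]

theorem trab_face_xi (s : ℕ) (i : Fin (s + 2)) (j : Fin s) (l : ℕ) :
    face 2 s i (xi 2 j l) = if (j : ℕ) + 1 < i then xi 2 j.castSucc l
      else if (j : ℕ) + 1 = i then milnor 2 j l else xi 2 j.succ l := by
  cases l with
  | zero =>
    simp only [xi, map_one]
    split_ifs with h1 h2
    · rfl
    · simp [milnor, xi]
    · rfl
  | succ l =>
    simp only [xi, face]
    rw [MvPolynomial.aeval_X]

theorem trab_map_g (s : ℕ) (i : Fin (s + 2)) (k : ℕ) (hk : k < s) :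
    G.map (face 2 s i : Cobar 2 s →+* Cobar 2 (s + 1)) (trab_g s k) =
      if k + 1 < i then trab_g (s + 1) k
      else if k + 1 = i then trab_g (s + 1) k * trab_g (s + 1) (k + 1)
      else trab_g (s + 1) (k + 1) := by
  apply G.ext
  funext l
  rw [G.map_c, trab_g_c hk]
  have h1 := trab_face_xi s i ⟨k, hk⟩ l
  simp only at h1
  rw [RingHom.coe_coe, h1]
  split_ifs with h2 h3
  · rw [trab_g_c (by omega)]; rfl
  · rw [G.mul_c]
    unfold milnor
    refine Finset.sum_congr rfl fun p _ => ?_
    rw [trab_g_c (by omega), trab_g_c (by omega)]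
    rfl
  · rw [trab_g_c (by omega)]; rfl

theorem trab_map_x (s : ℕ) (i : Fin (s + 2)) (hi : (i : ℕ) ≠ 0) (k : ℕ) (hk : k ≤ s) :
    G.map (face 2 s i : Cobar 2 s →+* Cobar 2 (s + 1)) (trab_x s k) = trab_x (s + 1) (skip i k) := by
  induction k with
  | zero =>
    have : skip i 0 = 0 := by unfold skip; rw [if_pos (by omega)]
    rw [this]
    simp [trab_x]
  | succ k ih =>
    have e : trab_x s (k + 1) = trab_x s k * trab_g s k := rfl
    rw [e, map_mul, ih (by omega), trab_map_g s i k (by omega)]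
    split_ifs with h1 h2
    · have e1 : skip i k = k := by unfold skip; rw [if_pos (by omega)]
      have e2 : skip i (k + 1) = k + 1 := by unfold skip; rw [if_pos (by omega)]
      rw [e1, e2]; rfl
    · have e1 : skip i k = k := by unfold skip; rw [if_pos (by omega)]
      have e2 : skip i (k + 1) = k + 2 := by unfold skip; rw [if_neg (by omega)]
      rw [e1, e2, ← mul_assoc]; rfl
    · have e1 : skip i k = k + 1 := by unfold skip; rw [if_neg (by omega)]
      have e2 : skip i (k + 1) = k + 2 := by unfold skip; rw [if_neg (by omega)]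
      rw [e1, e2]; rfl

theorem trab_map_x0 (s : ℕ) (i : Fin (s + 2)) (hi : (i : ℕ) = 0) (k : ℕ) (hk : k ≤ s) :
    trab_g (s + 1) 0 * G.map (face 2 s i : Cobar 2 s →+* Cobar 2 (s + 1)) (trab_x s k) =
      trab_x (s + 1) (skip i k) := by
  induction k with
  | zero =>
    have : skip i 0 = 1 := by unfold skip; rw [if_neg (by omega)]
    rw [this]
    simp [trab_x]
  | succ k ih =>
    have e : trab_x s (k + 1) = trab_x s k * trab_g s k := rfl
    rw [e, map_mul, ← mul_assoc, ih (by omega), trab_map_g s i k (by omega),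
      if_neg (by omega), if_neg (by omega)]
    have e1 : skip i k = k + 1 := by unfold skip; rw [if_neg (by omega)]
    have e2 : skip i (k + 1) = k + 2 := by unfold skip; rw [if_neg (by omega)]
    rw [e1, e2]; rfl

/-- the ring of the universal point -/
abbrev trab_A (M : ℕ) : A2 := ⟨Cobar 2 M⟩

theorem trab_mem (i : A2) (g : G i.R) : g ∈ (KM 0 0).S i := by
  intro k _
  exact ⟨fun h => absurd h (by omega), fun h => absurd h (by omega)⟩

theorem trab_toFam {M : ℕ} (u : Cobar 2 M) :
    (toFam M u).1 (trab_A M) M (trab_x M) = Polynomial.C u := by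
  refine (toFam_val M u (trab_A M) M (trab_x M)).trans ?_
  rw [if_pos rfl]
  congr 1
  have h1 : (fun v : Fin M × ℕ => ((trab_x M (v.1 : ℕ))⁻¹ * trab_x M ((v.1 : ℕ) + 1)).c (v.2 + 1)) =
      fun v => MvPolynomial.X v := by
    funext v
    have e : trab_x M ((v.1 : ℕ) + 1) = trab_x M (v.1 : ℕ) * trab_g M (v.1 : ℕ) := rfl
    rw [e, inv_mul_cancel_left, trab_g_c v.1.2]
    rfl
  have h2 : MvPolynomial.aeval (R := ZMod 2) (S₁ := Cobar 2 M)
      (fun v : Fin M × ℕ => ((trab_x M (v.1 : ℕ))⁻¹ * trab_x M ((v.1 : ℕ) + 1)).c (v.2 + 1)) u = u := by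
    rw [h1, MvPolynomial.aeval_X_left_apply]
  exact h2

/-- Evaluate at the universal point: over `Cobar 2 M` take `x_k = g_0 * ... * g_{k-1}`, where `g_j`
(`j < M`) has coordinates `X (j, l)` (`c (l + 1)`), and `g_j = 1` for `j ≥ M`. -/
theorem isCob_of_bd {M : ℕ} (u : Cobar 2 M) (h : Bd (KM 0 0) (toFam M u)) : IsCob u := by
  obtain ⟨b, hb, hd⟩ := h
  have h1 := hd (trab_A M) M (trab_x M) (fun k => trab_mem _ _)
  replace h1 := (trab_toFam u).symm.trans h1
  cases M with
  | zero =>
    have h2 : (Polynomial.C u : Polynomial (Cobar 2 0)) = 0 := h1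
    exact Polynomial.C_injective (by rw [h2, map_zero])
  | succ s =>
    replace h1 := h1.trans (TC.d_succ_apply (b.1 (trab_A (s + 1))) s (trab_x (s + 1)))
    refine ⟨((b.1 (trab_A s) s (trab_x s)).coeff 0 : Cobar 2 s), ?_⟩
    have hC := hb.2 (trab_A s) s (trab_x s) (fun k => trab_mem _ _)
    have key : ∀ i : Fin (s + 2), b.1 (trab_A (s + 1)) s (fun k => trab_x (s + 1) (skip i k)) =
        Polynomial.C (face 2 s i ((b.1 (trab_A s) s (trab_x s)).coeff 0 : Cobar 2 s)) := by
      intro i
      have hnat := b.2.1 (trab_A s) (trab_A (s + 1))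
        (face 2 s i : Cobar 2 s →+* Cobar 2 (s + 1)) s (trab_x s)
      rw [hC, Polynomial.map_C] at hnat
      by_cases hi : (i : ℕ) = 0
      · have h2 := hb.1 (trab_A (s + 1)) s
          (fun k => G.map (face 2 s i : Cobar 2 s →+* Cobar 2 (s + 1)) (trab_x s k))
          (trab_g (s + 1) 0) (trab_mem _ _) (fun k => trab_mem _ _)
        have h3 := b.2.2.1 (trab_A (s + 1)) s (fun k => trab_x (s + 1) (skip i k))
          (fun k => trab_g (s + 1) 0 *
            G.map (face 2 s i : Cobar 2 s →+* Cobar 2 (s + 1)) (trab_x s k))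
          (fun k hk => (trab_map_x0 s i hi k hk).symm)
        rw [h3]
        exact h2.trans hnat
      · have h3 := b.2.2.1 (trab_A (s + 1)) s (fun k => trab_x (s + 1) (skip i k))
          (fun k => G.map (face 2 s i : Cobar 2 s →+* Cobar 2 (s + 1)) (trab_x s k))
          (fun k hk => (trab_map_x s i hi k hk).symm)
        rw [h3]
        exact hnat
    have h4 : Polynomial.C u =
        Polynomial.C (dC 2 s ((b.1 (trab_A s) s (trab_x s)).coeff 0 : Cobar 2 s)) := by
      refine h1.trans ?_
      rw [Finset.sum_range (fun j => b.1 (trab_A (s + 1)) s (fun k => trab_x (s + 1) (skip j k)))]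
      unfold dC
      rw [map_sum]
      refine Finset.sum_congr rfl fun i _ => ?_
      rw [key i]
      congr 1
      have : (-1 : Cobar 2 (s + 1)) = 1 := neg_eq_self0 1
      rw [this, one_pow, one_mul]
    exact (Polynomial.C_injective h4).symm

end

end Pool.Agent.H8.NP
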